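import Pool.Agent.H25.DI.Defs

/-!
# DI DetP: the determinant of the polygon

`det_pf`: `cf B = VV * diagonal (P.coeff)` entrywise.  `VV_det`: the matrix is a Vandermonde matrix up to the order of the columns, with the different nodes `ζ^k`.
-/

set_option autoImplicit false

namespace Pool.Agent.H25.DI

open Finset Polynomial
open Pool.Agent.H65.AS (cf)

theorem det_pf {n : ℕ} (ζ : ℂ) (P : ℂ[X]) (B : Fin (n + 1) → ℂ[X])
    (h : ∀ (k : Fin (n + 1)) (t : ℕ), t ≤ n → (B k).coeff t = P.coeff t * ζ ^ ((k : ℕ) * (n - t))) :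
    (cf B).det = (VV n ζ).det * ∏ j ∈ range (n + 1), P.coeff j := by
  have e : cf B = VV n ζ * Matrix.diagonal (fun j : Fin (n + 1) => P.coeff (j : ℕ)) := by
    ext k j
    rw [Matrix.mul_diagonal]
    simp only [cf, VV, Matrix.of_apply]
    rw [h k (j : ℕ) (Nat.lt_succ_iff.mp j.isLt), mul_comm]
  rw [e, Matrix.det_mul, Matrix.det_diagonal, Finset.prod_range (fun j => P.coeff j)]

theorem VV_det {n : ℕ} {ζ : ℂ} (hζ : IsPrimitiveRoot ζ (n + 1)) : (VV n ζ).det ≠ 0 := by
  have e : VV n ζ = (Matrix.vandermonde (fun k : Fin (n + 1) => ζ ^ (k : ℕ))).submatrix id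
      (Fin.revPerm : Equiv.Perm (Fin (n + 1))) := by
    ext k j
    simp only [VV, Matrix.of_apply, Matrix.submatrix_apply, id, Matrix.vandermonde_apply,
      Fin.revPerm_apply, Fin.val_rev]
    rw [← pow_mul]
    congr 2
    omega
  rw [e, Matrix.det_permute']
  refine mul_ne_zero ?_ ?_
  · rcases Int.units_eq_one_or (Equiv.Perm.sign (Fin.revPerm : Equiv.Perm (Fin (n + 1)))) with h | h <;>
      rw [h] <;> simp
  · rw [Matrix.det_vandermonde_ne_zero_iff]
    intro a b hab
    exact Fin.ext (hζ.pow_inj a.isLt b.isLt hab)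

end Pool.Agent.H25.DI
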