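import Pool.Agent.H25.DI.Defs

/-!
# DI Pol: the polynomials of the normal form

`pol v s = ∏_{j ∈ s} (C (v j).2 * X - C (v j).1)`.  `pol_ax`: the factors of the points of the axis below `i` are `X`, of those above are `1`
(`(-1, 0)`: `0 * X + 1`); `∏_{k ≤ n} (X - r ζ^k) = X^(n+1) - r^(n+1)` (Mathlib: `IsPrimitiveRoot.pow_sub_pow_eq_prod_sub_mul` or `X_pow_sub_C_eq_prod`).
`pol_rg`: `∏_i (X + q_i ζ^k) * ∏_{l ≠ k} (X - ζ^k ee (l - k))` is `ζ^(k (m+n)) P (ζ^(-k) X)`, `P = EE * QQ`; the map `l ↦ l - k` is a bijection of `univ.erase k` onto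
`univ.erase 0`, i.e. `Ico 1 (n + 1)`.  In general the coefficients of `∏_{i ∈ I} (X - c u_i)` are those of `∏_{i ∈ I} (X - u_i)` times `c^(|I| - t)`.
-/

set_option autoImplicit false

namespace Pool.Agent.H25.DI

open Finset Polynomial
open Pool.Agent.H65.AS (pol)

private lemma Pol_scale {ι : Type*} [DecidableEq ι] (I : Finset ι) (u : ι → ℂ) (c : ℂ) :
    ∀ t ≤ I.card, (∏ i ∈ I, (X - C (c * u i))).coeff t =
      (∏ i ∈ I, (X - C (u i))).coeff t * c ^ (I.card - t) := by
  induction I using Finset.induction_on with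
  | empty =>
    intro t ht
    rw [card_empty] at ht
    have ht0 : t = 0 := by omega
    subst ht0
    simp
  | insert a I ha ih =>
    intro t ht
    rw [card_insert_of_notMem ha] at ht ⊢
    rw [prod_insert ha, prod_insert ha, sub_mul, sub_mul, coeff_sub, coeff_sub, coeff_C_mul,
      coeff_C_mul]
    have hdeg : ∀ w : ι → ℂ, (∏ i ∈ I, (X - C (w i))).coeff (I.card + 1) = 0 := by
      intro w
      apply coeff_eq_zero_of_natDegree_lt
      have h1 : (∏ i ∈ I, (X - C (w i))).natDegree ≤ ∑ i ∈ I, (X - C (w i)).natDegree :=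
        natDegree_prod_le I _
      have h2 : ∑ i ∈ I, (X - C (w i)).natDegree = I.card := by
        rw [sum_congr rfl fun i _ => natDegree_X_sub_C (w i), sum_const, smul_eq_mul, mul_one]
      omega
    have hsec : c * u a * (∏ i ∈ I, (X - C (c * u i))).coeff t =
        u a * (∏ i ∈ I, (X - C (u i))).coeff t * c ^ (I.card + 1 - t) := by
      rcases Nat.lt_or_ge I.card t with h | h
      · have hte : t = I.card + 1 := by omega
        rw [hte, hdeg, hdeg]
        ring
      · rw [ih t h]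
        have e : I.card + 1 - t = (I.card - t) + 1 := by omega
        rw [e, pow_succ]
        ring
    rw [hsec]
    rcases t with _ | t
    · rw [mul_coeff_zero, mul_coeff_zero, coeff_X_zero, zero_mul, zero_mul]
      ring
    · rw [coeff_X_mul, coeff_X_mul, ih t (by omega)]
      have e : I.card + 1 - (t + 1) = I.card - t := by omega
      rw [e]
      ring

private lemma Pol_shift {n : ℕ} (s : ℝ) (ζ : ℂ) (k : Fin (n + 1)) :
    ∏ l ∈ univ.erase k, (X - C (ee s ζ ((l - k : Fin (n + 1)) : ℕ))) = QQ n s ζ := by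
  obtain ⟨h, hh⟩ : ∃ h : Fin (n + 1) → ℂ[X],
      ∀ x, h x = if x = 0 then 1 else (X - C (ee s ζ (x : ℕ))) :=
    ⟨fun x => if x = 0 then 1 else (X - C (ee s ζ (x : ℕ))), fun _ => rfl⟩
  have h1 : ∏ l ∈ univ.erase k, (X - C (ee s ζ ((l - k : Fin (n + 1)) : ℕ))) =
      ∏ l ∈ univ.erase k, h (l - k) := by
    refine prod_congr rfl fun l hl => ?_
    have hlk : l - k ≠ 0 := sub_ne_zero.2 (ne_of_mem_erase hl)
    rw [hh, if_neg hlk]
  have h2 : ∏ l ∈ univ.erase k, h (l - k) = ∏ l, h (l - k) := by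
    apply prod_erase
    rw [hh, if_pos (sub_self k)]
  have h3 : ∏ l, h (l - k) = ∏ x, h x := Equiv.prod_comp (Equiv.subRight k) h
  have h4 : ∏ x, h x = ∏ i : Fin n, h i.succ := by
    rw [Fin.prod_univ_succ, hh, if_pos rfl, one_mul]
  have h5 : ∏ i : Fin n, h i.succ = ∏ i : Fin n, (X - C (ee s ζ ((i : ℕ) + 1))) := by
    refine prod_congr rfl fun i _ => ?_
    rw [hh, if_neg (Fin.succ_ne_zero i), Fin.val_succ]
  have h6 : ∏ i : Fin n, (X - C (ee s ζ ((i : ℕ) + 1))) =
      ∏ x ∈ range n, (X - C (ee s ζ (x + 1))) :=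
    (prod_range fun x => (X - C (ee s ζ (x + 1)))).symm
  rw [h1, h2, h3, h4, h5, h6]
  unfold QQ
  rw [prod_Ico_eq_prod_range]
  refine prod_congr (by rw [Nat.add_sub_cancel]) fun x _ => ?_
  rw [add_comm]

theorem pol_ax {m n : ℕ} (r q : ℕ → ℝ) (s : ℝ) {ζ : ℂ} (hζ : IsPrimitiveRoot ζ (n + 1)) (i : Fin m) :
    pol (nf m n r q s ζ (Fin.castAdd (n + 1) i)) (univ.erase (Fin.castAdd (n + 1) i)) =
      X ^ (i : ℕ) * (X ^ (n + 1) - C ((r i : ℂ) ^ (n + 1))) := by
  unfold pol
  rw [prod_erase]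
  · rw [Fin.prod_univ_add]
    have e1 : ∀ j : Fin m, (C (nf m n r q s ζ (Fin.castAdd (n + 1) i) (Fin.castAdd (n + 1) j)).2 * X -
        C (nf m n r q s ζ (Fin.castAdd (n + 1) i) (Fin.castAdd (n + 1) j)).1 : ℂ[X]) =
        if j < i then X else 1 := by
      intro j
      unfold nf
      rw [Fin.addCases_left, Fin.addCases_left]
      by_cases hj : j < i
      · rw [if_pos hj, if_pos hj]
        simp
      · rw [if_neg hj, if_neg hj]
        simp
    have e2 : ∀ k : Fin (n + 1), (C (nf m n r q s ζ (Fin.castAdd (n + 1) i) (Fin.natAdd m k)).2 * X -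
        C (nf m n r q s ζ (Fin.castAdd (n + 1) i) (Fin.natAdd m k)).1 : ℂ[X]) =
        X - C (ζ ^ (k : ℕ) * (r i : ℂ)) := by
      intro k
      unfold nf
      rw [Fin.addCases_left, Fin.addCases_right]
      simp [mul_comm]
    simp only [e1, e2]
    have h1 : ∏ j : Fin m, (if j < i then X else 1 : ℂ[X]) = X ^ (i : ℕ) := by
      rw [prod_ite, prod_const, prod_const_one, mul_one]
      have h2 : (univ.filter fun j : Fin m => j < i) = Finset.Iio i := by
        ext j
        simp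
      rw [h2, Fin.card_Iio]
    have h2 : ∏ k : Fin (n + 1), (X - C (ζ ^ (k : ℕ) * (r i : ℂ)) : ℂ[X]) =
        X ^ (n + 1) - C ((r i : ℂ) ^ (n + 1)) := by
      rw [X_pow_sub_C_eq_prod hζ (Nat.succ_pos n) rfl]
      exact (prod_range fun x => (X - C (ζ ^ x * (r i : ℂ)) : ℂ[X])).symm
    rw [h1, h2]
  · unfold nf
    rw [Fin.addCases_left, Fin.addCases_left, if_neg (lt_irrefl i)]
    simp

/-- The unscaled roots. -/
private noncomputable def Pol_u (m n : ℕ) (q : ℕ → ℝ) (s : ℝ) (ζ : ℂ) (k : Fin (n + 1))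
    (b : Fin (m + (n + 1))) : ℂ :=
  Fin.addCases (motive := fun _ => ℂ) (fun i : Fin m => -(q i : ℂ))
    (fun l : Fin (n + 1) => ee s ζ ((l - k : Fin (n + 1)) : ℕ)) b

private lemma Pol_uprod (m n : ℕ) (q : ℕ → ℝ) (s : ℝ) (ζ : ℂ) (k : Fin (n + 1)) :
    ∏ b ∈ univ.erase (Fin.natAdd m k), (X - C (Pol_u m n q s ζ k b)) =
      (EE q m).map Complex.ofRealHom * QQ n s ζ := by
  obtain ⟨g, hg⟩ : ∃ g : Fin (m + (n + 1)) → ℂ[X],
      ∀ b, g b = if b = Fin.natAdd m k then 1 else (X - C (Pol_u m n q s ζ k b)) :=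
    ⟨fun b => if b = Fin.natAdd m k then 1 else (X - C (Pol_u m n q s ζ k b)), fun _ => rfl⟩
  have h1 : ∏ b ∈ univ.erase (Fin.natAdd m k), (X - C (Pol_u m n q s ζ k b)) =
      ∏ b ∈ univ.erase (Fin.natAdd m k), g b := by
    refine prod_congr rfl fun b hb => ?_
    rw [hg, if_neg (ne_of_mem_erase hb)]
  have h2 : ∏ b ∈ univ.erase (Fin.natAdd m k), g b = ∏ b, g b := by
    apply prod_erase
    rw [hg, if_pos rfl]
  have h3 : ∀ i : Fin m, g (Fin.castAdd (n + 1) i) = X + C (q i : ℂ) := by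
    intro i
    have hne : Fin.castAdd (n + 1) i ≠ Fin.natAdd m k := by
      intro h
      have := congrArg Fin.val h
      simp at this
      omega
    rw [hg, if_neg hne]
    unfold Pol_u
    rw [Fin.addCases_left]
    simp
  have h4 : ∏ l : Fin (n + 1), g (Fin.natAdd m l) =
      ∏ l ∈ univ.erase k, (X - C (ee s ζ ((l - k : Fin (n + 1)) : ℕ))) := by
    have h5 : ∏ l ∈ univ.erase k, (X - C (ee s ζ ((l - k : Fin (n + 1)) : ℕ))) =
        ∏ l ∈ univ.erase k, g (Fin.natAdd m l) := by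
      refine prod_congr rfl fun l hl => ?_
      have hne : Fin.natAdd m l ≠ Fin.natAdd m k := by
        intro h
        exact (ne_of_mem_erase hl) (Fin.natAdd_injective _ m h)
      rw [hg, if_neg hne]
      unfold Pol_u
      rw [Fin.addCases_right]
    rw [h5]
    symm
    apply prod_erase
    rw [hg, if_pos rfl]
  have h6 : ∏ i : Fin m, g (Fin.castAdd (n + 1) i) = (EE q m).map Complex.ofRealHom := by
    unfold EE
    rw [Polynomial.map_prod, prod_range]
    refine prod_congr rfl fun i _ => ?_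
    rw [h3]
    simp
  rw [h1, h2, Fin.prod_univ_add, h6, h4, Pol_shift]

theorem pol_rg {m n : ℕ} (r q : ℕ → ℝ) (s : ℝ) {ζ : ℂ} {R : ℝ[X]} (hR : QQ n s ζ = R.map Complex.ofRealHom) (k : Fin (n + 1)) (t : ℕ)
    (ht : t ≤ m + n) :
    (pol (nf m n r q s ζ (Fin.natAdd m k)) (univ.erase (Fin.natAdd m k))).coeff t =
      ((EE q m * R).coeff t : ℂ) * ζ ^ ((k : ℕ) * (m + n - t)) := by
  have hcard : (univ.erase (Fin.natAdd m k) : Finset (Fin (m + (n + 1)))).card = m + n := by
    rw [card_erase_of_mem (mem_univ _), card_univ, Fintype.card_fin]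
    omega
  have h1 : pol (nf m n r q s ζ (Fin.natAdd m k)) (univ.erase (Fin.natAdd m k)) =
      ∏ b ∈ univ.erase (Fin.natAdd m k), (X - C (ζ ^ (k : ℕ) * Pol_u m n q s ζ k b)) := by
    unfold pol
    refine prod_congr rfl fun b _ => ?_
    refine Fin.addCases (fun i => ?_) (fun l => ?_) b
    · unfold nf Pol_u
      rw [Fin.addCases_right, Fin.addCases_left, Fin.addCases_left]
      simp [mul_comm]
    · unfold nf Pol_u pf
      rw [Fin.addCases_right, Fin.addCases_right, Fin.addCases_right]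
      simp
  rw [h1, Pol_scale _ _ _ t (by rw [hcard]; exact ht), hcard, Pol_uprod, hR, ← Polynomial.map_mul,
    coeff_map, ← pow_mul]
  rfl

theorem pol_pf {n : ℕ} (s : ℝ) (ζ : ℂ) (k : Fin (n + 1)) (t : ℕ) (ht : t ≤ n) :
    (pol (pf n s ζ k) (univ.erase k)).coeff t = (QQ n s ζ).coeff t * ζ ^ ((k : ℕ) * (n - t)) := by
  have hcard : (univ.erase k : Finset (Fin (n + 1))).card = n := by
    rw [card_erase_of_mem (mem_univ _), card_univ, Fintype.card_fin]
    omega
  have h1 : pol (pf n s ζ k) (univ.erase k) =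
      ∏ l ∈ univ.erase k, (X - C (ζ ^ (k : ℕ) * ee s ζ ((l - k : Fin (n + 1)) : ℕ))) := by
    unfold pol pf
    refine prod_congr rfl fun l _ => ?_
    simp
  rw [h1, Pol_scale _ (fun l : Fin (n + 1) => ee s ζ ((l - k : Fin (n + 1)) : ℕ)) _ t
    (by rw [hcard]; exact ht), hcard, Pol_shift, ← pow_mul]

end Pool.Agent.H25.DI
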