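import Pool.Agent.H25.DI.Reg
import Pool.Agent.H25.DI.Pol
import Pool.Agent.H25.DI.DetP

/-!
# DI Coef: the coefficients of `QQ` are positive

By `reg`, `cdet (pf n s ζ) ≠ 0` for all `s ∈ [0,1)`, so by `pol_pf`, `det_pf` no coefficient `(QQ n s ζ).coeff l`, `l ≤ n`, is `0`.  `QQ` is real: the set of the roots `ee s ζ l` is
closed under conjugation (`ee_conj`).  The coefficients are continuous in `s ∈ [0,1]` (`tt_cont`), and `QQ n 1 ζ = ∏_{1 ≤ l ≤ n} (X - ζ^l) = 1 + X + ... + X^n`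
(`ee_one`; `X^(n+1) - 1 = ∏_{l ≤ n} (X - ζ^l)`).  By connectedness of `[s, 1)` (and the value `1` at `1`) all are positive.
-/

set_option autoImplicit false

namespace Pool.Agent.H25.DI

open Finset Polynomial
open Pool.Agent.H65.AS (cf cdet pol FF)

theorem Coef_ee_cont (ζ : ℂ) (l : ℕ) : Continuous fun s : ℝ => ee s ζ l := by
  unfold ee
  exact Complex.continuous_ofReal.add ((Complex.continuous_ofReal.comp (tt_cont _)).mul continuous_const)

theorem Coef_prod_cont {ι : Type*} (T : Finset ι) (f : ι → ℝ → ℂ) (hf : ∀ i, Continuous (f i)) (l : ℕ) :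
    Continuous fun s : ℝ => (∏ i ∈ T, (X - C (f i s)) : ℂ[X]).coeff l := by
  classical
  induction T using Finset.induction_on generalizing l with
  | empty => simpa using continuous_const
  | insert a T ha ih =>
      simp only [Finset.prod_insert ha, sub_mul, coeff_sub, coeff_C_mul]
      refine Continuous.sub ?_ ((hf a).mul (ih l))
      cases l with
      | zero => simpa using continuous_const
      | succ l => simpa only [coeff_X_mul] using ih l

theorem Coef_conj {n : ℕ} (s : ℝ) {ζ : ℂ} (hζ : IsPrimitiveRoot ζ (n + 1)) :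
    (QQ n s ζ).map (starRingEnd ℂ) = QQ n s ζ := by
  unfold QQ
  rw [Polynomial.map_prod]
  have h1 : ∀ l ∈ Finset.Ico 1 (n + 1), (X - C (ee s ζ l)).map (starRingEnd ℂ) =
      (fun j => (X - C (ee s ζ j) : ℂ[X])) (n + 1 - l) := by
    intro l hl
    rw [Finset.mem_Ico] at hl
    simp only [Polynomial.map_sub, map_X, map_C]
    rw [ee_conj s hζ (by omega : l ≤ n + 1)]
  have h2 := Finset.prod_Ico_reflect (fun j => (X - C (ee s ζ j) : ℂ[X])) 1
    (show n + 1 ≤ (n + 1) + 1 by omega)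
  rw [Finset.prod_congr rfl h1, h2, show n + 1 + 1 - (n + 1) = 1 by omega,
    show n + 1 + 1 - 1 = n + 1 by omega]

theorem Coef_one {n : ℕ} {ζ : ℂ} (hζ : IsPrimitiveRoot ζ (n + 1)) :
    QQ n 1 ζ = ∑ i ∈ range (n + 1), X ^ i := by
  have h1 : (X - C 1 : ℂ[X]) * QQ n 1 ζ = X ^ (n + 1) - 1 := by
    have h2 := X_pow_sub_C_eq_prod (α := (1 : ℂ)) (a := 1) hζ (Nat.succ_pos n) (one_pow _)
    have h3 : (C (1 : ℂ) : ℂ[X]) = 1 := C_1
    rw [h3] at h2
    rw [h2, Finset.range_eq_Ico, Finset.prod_eq_prod_Ico_succ_bot (Nat.succ_pos n)]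
    simp only [pow_zero, mul_one]
    congr 1
    unfold QQ
    exact Finset.prod_congr rfl fun l _ => by rw [ee_one]
  have h4 : (X - C 1 : ℂ[X]) ≠ 0 := X_sub_C_ne_zero 1
  refine mul_left_cancel₀ h4 ?_
  rw [h1, C_1, mul_comm, geom_sum_mul]

theorem Coef_ne {n : ℕ} {s : ℝ} (h0 : 0 ≤ s) (h1 : s < 1) {ζ : ℂ} (hζ : IsPrimitiveRoot ζ (n + 1)) {l : ℕ}
    (hl : l ≤ n) : (QQ n s ζ).coeff l ≠ 0 := by
  have h2 := (reg h0 h1 hζ).1
  have h3 : cdet (pf n s ζ) ≠ 0 := by
    intro h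
    unfold FF at h2
    rw [h, norm_zero, zero_div] at h2
    linarith
  have h4 : cdet (pf n s ζ) = (VV n ζ).det * ∏ j ∈ range (n + 1), (QQ n s ζ).coeff j :=
    det_pf ζ (QQ n s ζ) _ fun k t ht => pol_pf s ζ k t ht
  rw [h4] at h3
  have h5 := right_ne_zero_of_mul h3
  rw [Finset.prod_ne_zero_iff] at h5
  exact h5 l (Finset.mem_range.2 (by omega))

theorem exists_R {n : ℕ} {s : ℝ} (h0 : 0 ≤ s) (h1 : s < 1) {ζ : ℂ} (hζ : IsPrimitiveRoot ζ (n + 1)) :
    ∃ R : ℝ[X], QQ n s ζ = R.map Complex.ofRealHom ∧ R.natDegree ≤ n ∧ ∀ l, l ≤ n → 0 < R.coeff l := by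
  have hreal : ∀ (u : ℝ) (l : ℕ), (((QQ n u ζ).coeff l).re : ℂ) = (QQ n u ζ).coeff l := by
    intro u l
    have h2 := congrArg (fun P => Polynomial.coeff P l) (Coef_conj u hζ)
    simp only [coeff_map] at h2
    exact Complex.conj_eq_iff_re.1 h2
  have hlift : QQ n s ζ ∈ lifts Complex.ofRealHom := by
    rw [lifts_iff_coeff_lifts]
    intro l
    exact ⟨((QQ n s ζ).coeff l).re, hreal s l⟩
  obtain ⟨R, hR⟩ := (mem_lifts _).1 hlift
  have hco : ∀ l, R.coeff l = ((QQ n s ζ).coeff l).re := by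
    intro l
    rw [← hR, coeff_map]
    exact (Complex.ofReal_re _).symm
  refine ⟨R, hR.symm, ?_, ?_⟩
  · rw [← natDegree_map_eq_of_injective Complex.ofRealHom.injective R, hR]
    unfold QQ
    refine (natDegree_prod_le _ _).trans ?_
    calc _ ≤ ∑ _l ∈ Finset.Ico 1 (n + 1), 1 := Finset.sum_le_sum fun l _ => (natDegree_X_sub_C _).le
      _ = n := by simp
  · intro l hl
    rw [hco l]
    have hcont : Continuous fun u : ℝ => ((QQ n u ζ).coeff l).re :=
      Complex.continuous_re.comp (Coef_prod_cont _ (fun i u => ee u ζ i) (fun i => Coef_ee_cont ζ i) l)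
    have hone : ((QQ n 1 ζ).coeff l).re = 1 := by
      rw [Coef_one hζ]
      simp only [finsetSum_coeff, coeff_X_pow]
      rw [Finset.sum_ite_eq]
      rw [if_pos (Finset.mem_range.2 (by omega))]
      exact Complex.one_re
    by_contra hneg
    push Not at hneg
    have h3 : (0 : ℝ) ∈ Set.Icc ((QQ n s ζ).coeff l).re ((QQ n 1 ζ).coeff l).re :=
      ⟨hneg, by rw [hone]; exact zero_le_one⟩
    obtain ⟨u, hu, hu0⟩ := intermediate_value_Icc h1.le hcont.continuousOn h3
    rcases hu.2.eq_or_lt with h4 | h4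
    · rw [h4] at hu0
      simp only at hu0
      rw [hone] at hu0
      exact one_ne_zero hu0
    · refine Coef_ne (h0.trans hu.1) h4 hζ hl ?_
      rw [← hreal u l]
      simp only at hu0
      rw [hu0, Complex.ofReal_zero]

end Pool.Agent.H25.DI
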