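import Pool.Agent.H25.DI.Wt

/-!
# DI Det: the determinant

`N = m + n + 1`, `M = cf B` (rows: `B`, columns: coefficients `t < N`).  Let `W` be the `N x N` matrix with columns `λ_0, ..., λ_n` (`(λ_j)_t = wt t` if `t = j` modulo
`n + 1`, otherwise `0`) and `e_(n+1), ..., e_(N-1)`: lower triangular with diagonal `1` (`wt t = 1` for `t ≤ n`).  `M W`: the rows of the axis vanish in the first `n + 1`
columns (`wt (t + n + 1) = r t ^ (n+1) * wt t`) and are `B_i.coeff t`, `t > n`, in the others: after the shift `t = n + 1 + i'` a lower triangular matrix with diagonal `1`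
(`B_i.coeff (n+1+i') = 0` for `i' > i`, `1` for `i' = i`).  The rows of the ring are `ζ^(k (m + n - j)) S_j` in the first `n + 1` columns
(`ζ^(n+1) = 1`), a matrix whose determinant has the norm `‖det VV‖ ∏ |S_j|` (`ζ^(k (m+n-j)) = ζ^(k m) ζ^(k (n-j))`).  `det M = ± det (the two blocks)`.
(Reindex by `finSumFinEquiv`; `Matrix.det_fromBlocks_zero₁₂` or a similar one after moving the blocks.)
-/

set_option autoImplicit false

namespace Pool.Agent.H25.DI

open Finset Polynomial
open Pool.Agent.H65.AS (cf)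

/-- the column operations -/
private noncomputable def detW (m n : ℕ) (r : ℕ → ℝ) : Matrix (Fin (m + (n + 1))) (Fin m ⊕ Fin (n + 1)) ℂ :=
  Matrix.of fun t => Sum.elim (fun i' => if (t : ℕ) = (n + 1) + (i' : ℕ) then 1 else 0)
    (fun j => if (t : ℕ) % (n + 1) = j then (wt r n t : ℂ) else 0)

private def detE (m n : ℕ) : Fin m ⊕ Fin (n + 1) ≃ Fin (m + (n + 1)) :=
  (Equiv.sumComm _ _).trans (finSumFinEquiv.trans (finCongr (add_comm _ _)))

private lemma detE_inl (m n : ℕ) (i : Fin m) : (detE m n (Sum.inl i) : ℕ) = (n + 1) + i := by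
  simp only [detE, Equiv.trans_apply, Equiv.sumComm_apply, Sum.swap_inl,
    finSumFinEquiv_apply_right, finCongr_apply, Fin.val_cast, Fin.val_natAdd]

private lemma detE_inr (m n : ℕ) (j : Fin (n + 1)) : (detE m n (Sum.inr j) : ℕ) = j := by
  simp [detE]

private lemma detW_det (m n : ℕ) (r : ℕ → ℝ) : ((detW m n r).submatrix (detE m n) id).det = 1 := by
  have h : (detW m n r).submatrix (detE m n) id = Matrix.fromBlocks 1
      (Matrix.of fun (i : Fin m) (j : Fin (n + 1)) => detW m n r (detE m n (Sum.inl i)) (Sum.inr j))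
      0 1 := by
    ext a b
    rcases a with i | j <;> rcases b with i' | j'
    · rw [Matrix.submatrix_apply, Matrix.fromBlocks_apply₁₁, detW, Matrix.of_apply, id, Sum.elim_inl,
        detE_inl, Matrix.one_apply]
      exact if_congr (by rw [Fin.ext_iff]; omega) rfl rfl
    · rfl
    · rw [Matrix.submatrix_apply, Matrix.fromBlocks_apply₂₁, detW, Matrix.of_apply, id, Sum.elim_inl,
        detE_inr, Matrix.zero_apply, if_neg]
      have := j.2
      omega
    · rw [Matrix.submatrix_apply, Matrix.fromBlocks_apply₂₂, detW, Matrix.of_apply, id,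
        Sum.elim_inr, detE_inr, Matrix.one_apply, Nat.mod_eq_of_lt j.2, wt_small j.2,
        Complex.ofReal_one]
      exact if_congr (by rw [Fin.ext_iff]) rfl rfl
  rw [h, Matrix.det_fromBlocks_zero₂₁, Matrix.det_one, Matrix.det_one, one_mul]

private lemma det_ent1 {m n : ℕ} (r : ℕ → ℝ) (B : Fin (m + (n + 1)) → ℂ[X]) (a : Fin (m + (n + 1)))
    (i' : Fin m) : (cf B * detW m n r) a (Sum.inl i') = (B a).coeff ((n + 1) + i') := by
  have hi : (n + 1) + (i' : ℕ) < m + (n + 1) := by have := i'.2; omega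
  rw [Matrix.mul_apply, Finset.sum_eq_single (⟨(n + 1) + i', hi⟩ : Fin (m + (n + 1)))]
  · rw [detW, Matrix.of_apply, Sum.elim_inl, if_pos rfl, mul_one]
    rfl
  · intro t _ ht
    rw [detW, Matrix.of_apply, Sum.elim_inl, if_neg (fun h => ht (Fin.ext h)), mul_zero]
  · intro h
    exact absurd (Finset.mem_univ _) h

private lemma det_ent2 {m n : ℕ} (r : ℕ → ℝ) (B : Fin (m + (n + 1)) → ℂ[X]) (a : Fin (m + (n + 1)))
    (j : Fin (n + 1)) : (cf B * detW m n r) a (Sum.inr j) =
      ∑ t ∈ range (m + n + 1), (B a).coeff t * (if t % (n + 1) = j then (wt r n t : ℂ) else 0) := by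
  rw [Matrix.mul_apply, Finset.sum_range]
  rfl

private lemma det_top {m n : ℕ} (r : ℕ → ℝ) (i : Fin m) (j : Fin (n + 1)) :
    ∑ t ∈ range (m + n + 1), (X ^ (i : ℕ) * (X ^ (n + 1) - C ((r i : ℂ) ^ (n + 1))) : ℂ[X]).coeff t *
      (if t % (n + 1) = j then (wt r n t : ℂ) else 0) = 0 := by
  have hB : (X ^ (i : ℕ) * (X ^ (n + 1) - C ((r i : ℂ) ^ (n + 1))) : ℂ[X]) =
      X ^ ((i : ℕ) + (n + 1)) - C ((r i : ℂ) ^ (n + 1)) * X ^ (i : ℕ) := by
    rw [pow_add]
    ring
  rw [hB]
  simp only [coeff_sub, coeff_C_mul, coeff_X_pow, sub_mul]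
  rw [Finset.sum_sub_distrib]
  have hi := i.2
  rw [Finset.sum_eq_single ((i : ℕ) + (n + 1)), Finset.sum_eq_single (i : ℕ)]
  · rw [if_pos rfl, if_pos rfl, one_mul, mul_one, Nat.add_mod_right, wt_add]
    split_ifs
    · push_cast
      ring
    · ring
  · intro t _ ht
    rw [if_neg ht, mul_zero, zero_mul]
  · intro h
    exact absurd (Finset.mem_range.2 (by omega)) h
  · intro t _ ht
    rw [if_neg ht, zero_mul]
  · intro h
    exact absurd (Finset.mem_range.2 (by omega)) h

private lemma det_bot {m n : ℕ} {r : ℕ → ℝ} {ζ : ℂ} (hζ : ζ ^ (n + 1) = 1) (P : ℝ[X]) (B : ℂ[X])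
    (k : ℕ) (h2 : ∀ t : ℕ, t ≤ m + n → B.coeff t = (P.coeff t : ℂ) * ζ ^ (k * (m + n - t)))
    (j : Fin (n + 1)) :
    ∑ t ∈ range (m + n + 1), B.coeff t * (if t % (n + 1) = j then (wt r n t : ℂ) else 0) =
      ζ ^ (k * m) * (ζ ^ (k * (n - (j : ℕ))) * (SS r m n P j : ℂ)) := by
  unfold SS
  rw [Finset.sum_filter, Complex.ofReal_sum, Finset.mul_sum, Finset.mul_sum]
  refine Finset.sum_congr rfl fun t ht => ?_
  have ht' : t ≤ m + n := by
    have := Finset.mem_range.1 ht
    omega
  rw [h2 t ht']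
  split_ifs with h
  · have hj := j.2
    have h3 : ζ ^ (k * (m + n - t)) = ζ ^ (k * m) * ζ ^ (k * (n - (j : ℕ))) := by
      have h4 : ζ ^ (k * ((n + 1) * (t / (n + 1)))) = 1 := by
        rw [mul_left_comm, pow_mul, hζ, one_pow]
      have h5 : m + n - t + (n + 1) * (t / (n + 1)) = m + (n - (j : ℕ)) := by
        have := Nat.mod_add_div t (n + 1)
        omega
      rw [← pow_add, ← mul_add, ← h5, mul_add, pow_add, h4, mul_one]
    rw [h3]
    push_cast
    ring
  · simp

theorem det_nf {m n : ℕ} {r : ℕ → ℝ} {ζ : ℂ} (hζ : IsPrimitiveRoot ζ (n + 1)) (P : ℝ[X]) (B : Fin (m + (n + 1)) → ℂ[X])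
    (h1 : ∀ i : Fin m, B (Fin.castAdd (n + 1) i) = X ^ (i : ℕ) * (X ^ (n + 1) - C ((r i : ℂ) ^ (n + 1))))
    (h2 : ∀ (k : Fin (n + 1)) (t : ℕ), t ≤ m + n → (B (Fin.natAdd m k)).coeff t = (P.coeff t : ℂ) * ζ ^ ((k : ℕ) * (m + n - t))) :
    ‖(cf B).det‖ = ‖(VV n ζ).det‖ * ∏ j ∈ range (n + 1), |SS r m n P j| := by
  have hζn : ‖ζ‖ = 1 := hζ.norm'_eq_one (by omega)
  set E : Fin m ⊕ Fin (n + 1) ≃ Fin (m + (n + 1)) := finSumFinEquiv with hE
  -- the permutation of the columns
  have hperm : ‖((cf B).submatrix E (detE m n)).det‖ = ‖(cf B).det‖ := by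
    have h3 : (cf B).submatrix E (detE m n) =
        ((cf B).submatrix id (E.symm.trans (detE m n))).submatrix E E := by
      ext a b
      simp [Matrix.submatrix_apply]
    rw [h3, Matrix.det_submatrix_equiv_self, Matrix.det_permute', norm_mul]
    rcases Int.units_eq_one_or (Equiv.Perm.sign (E.symm.trans (detE m n))) with h | h <;>
      simp [h]
  have hmul : ((cf B).submatrix E (detE m n)).det = ((cf B * detW m n r).submatrix E id).det := by
    rw [← Matrix.submatrix_mul_equiv (cf B) (detW m n r) E (detE m n) id, Matrix.det_mul,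
      detW_det, mul_one]
  set A : Matrix (Fin m) (Fin m) ℂ := Matrix.of fun i i' => (B (Fin.castAdd (n + 1) i)).coeff ((n + 1) + i') with hA
  set D : Matrix (Fin (n + 1)) (Fin (n + 1)) ℂ :=
    Matrix.of fun k j => ζ ^ ((k : ℕ) * m) * (VV n ζ k j * (SS r m n P j : ℂ)) with hD
  have hblock : (cf B * detW m n r).submatrix E id = Matrix.fromBlocks A 0
      (Matrix.of fun k i' => (B (Fin.natAdd m k)).coeff ((n + 1) + (i' : ℕ))) D := by
    ext a b
    rcases a with i | k <;> rcases b with i' | j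
    · rw [Matrix.submatrix_apply, Matrix.fromBlocks_apply₁₁, id, det_ent1, hE,
        finSumFinEquiv_apply_left]
      rfl
    · rw [Matrix.submatrix_apply, Matrix.fromBlocks_apply₁₂, id, det_ent2, hE,
        finSumFinEquiv_apply_left, h1, det_top]
      rfl
    · rw [Matrix.submatrix_apply, Matrix.fromBlocks_apply₂₁, id, det_ent1, hE,
        finSumFinEquiv_apply_right]
      rfl
    · rw [Matrix.submatrix_apply, Matrix.fromBlocks_apply₂₂, id, det_ent2, hE,
        finSumFinEquiv_apply_right, det_bot hζ.pow_eq_one P (B (Fin.natAdd m k)) k (h2 k) j]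
      rfl
  have hAdet : A.det = 1 := by
    rw [Matrix.det_of_isLowerTriangular A]
    · refine Finset.prod_eq_one fun i _ => ?_
      rw [hA, Matrix.of_apply, h1, coeff_X_pow_mul', if_pos (by omega)]
      rw [Nat.add_sub_cancel, coeff_sub, coeff_X_pow, if_pos rfl, coeff_C, if_neg (by omega),
        sub_zero]
    · intro i i' hii
      have hlt : (i : ℕ) < i' := hii
      rw [hA, Matrix.of_apply, h1, coeff_X_pow_mul', if_pos (by omega), coeff_sub, coeff_X_pow,
        if_neg (by omega), coeff_C, if_neg (by omega), sub_zero]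
  have hDdet : D.det = (∏ k : Fin (n + 1), ζ ^ ((k : ℕ) * m)) *
      ((VV n ζ).det * ∏ j : Fin (n + 1), (SS r m n P j : ℂ)) := by
    have h3 : D = Matrix.of fun (k : Fin (n + 1)) (j : Fin (n + 1)) => ζ ^ ((k : ℕ) * m) *
        (Matrix.of fun (k : Fin (n + 1)) (j : Fin (n + 1)) =>
          (SS r m n P j : ℂ) * VV n ζ k j : Matrix (Fin (n + 1)) (Fin (n + 1)) ℂ) k j := by
      ext k j
      rw [hD, Matrix.of_apply, Matrix.of_apply, Matrix.of_apply, mul_comm (VV n ζ k j)]
    rw [h3, Matrix.det_mul_column (fun k : Fin (n + 1) => ζ ^ ((k : ℕ) * m)),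
      Matrix.det_mul_row (fun j : Fin (n + 1) => (SS r m n P j : ℂ)), mul_comm (VV n ζ).det]
  rw [← hperm, hmul, hblock, Matrix.det_fromBlocks_zero₁₂, hAdet, one_mul, hDdet, norm_mul,
    norm_mul, norm_prod, norm_prod, Finset.prod_eq_one, one_mul, Finset.prod_range]
  · simp
  · intro k _
    rw [norm_pow, hζn, one_pow]

end Pool.Agent.H25.DI
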