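import Pool.Agent.H25.DI.Ineq
import Pool.Agent.H25.DI.Det
import Pool.Agent.H25.DI.Coef

/-!
# DI Alg: the normal form

`gap_nf`: the pairs of two points of the axis give `‖br‖ = 1`, axis and ring give `r_i + q_i` (`‖ζ‖ = 1`), two of the ring the pair of the polygon
(`Fin.prod_univ_add`; the pairs `i < j` of `Fin (m + (n+1))`).  `FF_nf`: `det_nf`, `det_pf`, `pol_ax`, `pol_rg`, `pol_pf`, `exists_R`, `SS_ineq`, `SS_pos`, `VV_det`.
-/

set_option autoImplicit false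

namespace Pool.Agent.H25.DI

open Finset Polynomial
open Pool.Agent.Results.MP_1fedf0_gt.CollinearPlusOne (spin br)
open Pool.Agent.H65.AS (cf cdet pol FF)

private theorem Alg_ioi {N : ℕ} (a : Fin N) (f : Fin N → ℝ) :
    ∏ b ∈ Finset.Ioi a, f b = ∏ b, if a < b then f b else 1 := by
  rw [← Finset.prod_filter]
  refine Finset.prod_congr ?_ fun _ _ => rfl
  ext b
  simp

private theorem Alg_aa {m n : ℕ} (r q : ℕ → ℝ) (s : ℝ) (ζ : ℂ) (i j : Fin m) (h : i < j) :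
    ‖br (nf m n r q s ζ (Fin.castAdd (n + 1) i) (Fin.castAdd (n + 1) j))
      (nf m n r q s ζ (Fin.castAdd (n + 1) j) (Fin.castAdd (n + 1) i))‖ = 1 := by
  unfold nf br
  simp only [Fin.addCases_left]
  rw [if_neg (not_lt.mpr h.le), if_pos h]
  simp

private theorem Alg_ar {m n : ℕ} {r q : ℕ → ℝ} (hr : ∀ i, 0 < r i) (hq : ∀ i, 0 < q i) (s : ℝ) {ζ : ℂ}
    (hζ : IsPrimitiveRoot ζ (n + 1)) (i : Fin m) (k : Fin (n + 1)) :
    ‖br (nf m n r q s ζ (Fin.castAdd (n + 1) i) (Fin.natAdd m k))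
      (nf m n r q s ζ (Fin.natAdd m k) (Fin.castAdd (n + 1) i))‖ = r i + q i := by
  have h1 : ‖ζ‖ = 1 := hζ.norm'_eq_one (Nat.succ_ne_zero n)
  unfold nf br
  simp only [Fin.addCases_left, Fin.addCases_right]
  have e : ((r i : ℂ) * ζ ^ (k : ℕ)) * 1 - 1 * (-((q i : ℂ) * ζ ^ (k : ℕ))) =
      ((r i + q i : ℝ) : ℂ) * ζ ^ (k : ℕ) := by
    push_cast
    ring
  rw [e, norm_mul, norm_pow, h1, one_pow, mul_one, Complex.norm_real, Real.norm_eq_abs,
    abs_of_pos (add_pos (hr i) (hq i))]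

private theorem Alg_rr {m n : ℕ} (r q : ℕ → ℝ) (s : ℝ) (ζ : ℂ) (k l : Fin (n + 1)) :
    nf m n r q s ζ (Fin.natAdd m k) (Fin.natAdd m l) = pf n s ζ k l := by
  unfold nf
  simp only [Fin.addCases_right]

theorem gap_nf {m n : ℕ} {r q : ℕ → ℝ} (hr : ∀ i, 0 < r i) (hq : ∀ i, 0 < q i) (s : ℝ) {ζ : ℂ} (hζ : IsPrimitiveRoot ζ (n + 1)) :
    ∏ a, ∏ b ∈ Finset.Ioi a, ‖br (nf m n r q s ζ a b) (nf m n r q s ζ b a)‖ =
      (∏ i ∈ range m, (r i + q i)) ^ (n + 1) * ∏ k, ∏ l ∈ Finset.Ioi k, ‖br (pf n s ζ k l) (pf n s ζ l k)‖ := by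
  rw [Fin.prod_univ_add]
  have hax : ∀ i : Fin m, ∏ b ∈ Finset.Ioi (Fin.castAdd (n + 1) i),
      ‖br (nf m n r q s ζ (Fin.castAdd (n + 1) i) b) (nf m n r q s ζ b (Fin.castAdd (n + 1) i))‖ = (r i + q i) ^ (n + 1) := by
    intro i
    rw [Alg_ioi, Fin.prod_univ_add]
    have h1 : ∀ j : Fin m, (if Fin.castAdd (n + 1) i < Fin.castAdd (n + 1) j then
        ‖br (nf m n r q s ζ (Fin.castAdd (n + 1) i) (Fin.castAdd (n + 1) j))
          (nf m n r q s ζ (Fin.castAdd (n + 1) j) (Fin.castAdd (n + 1) i))‖ else 1) = 1 := by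
      intro j
      split_ifs with h
      · refine Alg_aa r q s ζ i j ?_
        rw [Fin.lt_def, Fin.val_castAdd, Fin.val_castAdd] at h
        rw [Fin.lt_def]
        exact h
      · rfl
    have h2 : ∀ k : Fin (n + 1), (if Fin.castAdd (n + 1) i < Fin.natAdd m k then
        ‖br (nf m n r q s ζ (Fin.castAdd (n + 1) i) (Fin.natAdd m k))
          (nf m n r q s ζ (Fin.natAdd m k) (Fin.castAdd (n + 1) i))‖ else 1) = r i + q i := by
      intro k
      have h : Fin.castAdd (n + 1) i < Fin.natAdd m k := by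
        rw [Fin.lt_def, Fin.val_castAdd, Fin.val_natAdd]
        have := i.isLt
        omega
      rw [if_pos h]
      exact Alg_ar hr hq s hζ i k
    rw [Finset.prod_congr rfl fun j _ => h1 j, Finset.prod_congr rfl fun k _ => h2 k]
    simp
  have hrg : ∀ k : Fin (n + 1), ∏ b ∈ Finset.Ioi (Fin.natAdd m k),
      ‖br (nf m n r q s ζ (Fin.natAdd m k) b) (nf m n r q s ζ b (Fin.natAdd m k))‖ =
        ∏ l ∈ Finset.Ioi k, ‖br (pf n s ζ k l) (pf n s ζ l k)‖ := by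
    intro k
    rw [Alg_ioi, Fin.prod_univ_add, Alg_ioi]
    have h1 : ∀ j : Fin m, (if Fin.natAdd m k < Fin.castAdd (n + 1) j then
        ‖br (nf m n r q s ζ (Fin.natAdd m k) (Fin.castAdd (n + 1) j))
          (nf m n r q s ζ (Fin.castAdd (n + 1) j) (Fin.natAdd m k))‖ else 1) = 1 := by
      intro j
      have h : ¬ Fin.natAdd m k < Fin.castAdd (n + 1) j := by
        rw [Fin.lt_def, Fin.val_castAdd, Fin.val_natAdd]
        have := j.isLt
        omega
      rw [if_neg h]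
    have h2 : ∀ l : Fin (n + 1), (if Fin.natAdd m k < Fin.natAdd m l then
        ‖br (nf m n r q s ζ (Fin.natAdd m k) (Fin.natAdd m l))
          (nf m n r q s ζ (Fin.natAdd m l) (Fin.natAdd m k))‖ else 1) =
        if k < l then ‖br (pf n s ζ k l) (pf n s ζ l k)‖ else 1 := by
      intro l
      rw [Alg_rr, Alg_rr]
      have h : Fin.natAdd m k < Fin.natAdd m l ↔ k < l := by
        rw [Fin.lt_def, Fin.lt_def, Fin.val_natAdd, Fin.val_natAdd]
        omega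
      simp only [h]
    rw [Finset.prod_congr rfl fun j _ => h1 j, Finset.prod_congr rfl fun l _ => h2 l]
    simp
  rw [Finset.prod_congr rfl fun i _ => hax i, Finset.prod_congr rfl fun k _ => hrg k,
    Finset.prod_pow, Fin.prod_univ_eq_prod_range (fun i => r i + q i) m]

theorem FF_nf {m n : ℕ} {r q : ℕ → ℝ} (hr : ∀ i, 0 < r i) (hq : ∀ i, 0 < q i) (hanti : ∀ i j, i ≤ j → j < m → r j ≤ r i)
    {s : ℝ} (h0 : 0 ≤ s) (h1 : s < 1) {ζ : ℂ} (hζ : IsPrimitiveRoot ζ (n + 1)) :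
    FF (pf n s ζ) ≤ FF (nf m n r q s ζ) := by
  obtain ⟨R, hR, hdeg, hpos⟩ := exists_R h0 h1 hζ
  have hK : 0 < (∏ i ∈ range m, (r i + q i)) ^ (n + 1) :=
    pow_pos (Finset.prod_pos fun i _ => add_pos (hr i) (hq i)) _
  have hpf : ‖cdet (pf n s ζ)‖ = ‖(VV n ζ).det‖ * ∏ j ∈ range (n + 1), R.coeff j := by
    unfold cdet
    rw [det_pf ζ (QQ n s ζ) _ (fun k t ht => pol_pf s ζ k t ht), norm_mul, norm_prod]
    refine congrArg _ (Finset.prod_congr rfl fun j hj => ?_)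
    rw [hR, coeff_map, Complex.ofRealHom_eq_coe, Complex.norm_real, Real.norm_eq_abs,
      abs_of_pos (hpos j (Nat.lt_succ_iff.mp (Finset.mem_range.mp hj)))]
  have hnf : ‖cdet (nf m n r q s ζ)‖ = ‖(VV n ζ).det‖ * ∏ j ∈ range (n + 1), SS r m n (EE q m * R) j := by
    unfold cdet
    rw [det_nf hζ (EE q m * R) _ (fun i => pol_ax r q s hζ i) (fun k t ht => pol_rg r q s hR k t ht)]
    refine congrArg _ (Finset.prod_congr rfl fun j hj => ?_)
    exact abs_of_pos (SS_pos hr hq hdeg hpos (Finset.mem_range.mp hj))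
  have hI := SS_ineq hr hq hanti hdeg hpos
  unfold FF
  rw [gap_nf hr hq s hζ, hpf, hnf]
  rw [← mul_div_mul_left _ _ hK.ne']
  refine div_le_div_of_nonneg_right ?_ ?_
  · calc (∏ i ∈ range m, (r i + q i)) ^ (n + 1) * (‖(VV n ζ).det‖ * ∏ j ∈ range (n + 1), R.coeff j)
        = ‖(VV n ζ).det‖ * ((∏ l ∈ range (n + 1), R.coeff l) * (∏ i ∈ range m, (r i + q i)) ^ (n + 1)) := by ring
      _ ≤ _ := mul_le_mul_of_nonneg_left hI (norm_nonneg _)
  · exact mul_nonneg hK.le (Finset.prod_nonneg fun _ _ => Finset.prod_nonneg fun _ _ => norm_nonneg _)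

end Pool.Agent.H25.DI
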