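import Pool.Agent.H25.DI.HMb

/-!
# DI Ax: the axis

`endpoints` (CollinearPlusOne) gives `τ₁ < τ₂` with `|c + τ (d - c)|² - 1 = D (τ - τ₁) (τ - τ₂)`, `D > 0`; `α`, `γ` are the spinors of the end points
`W₁ = c + τ₁ (d - c)`, `W₂ = c + τ₂ (d - c)` (compare `dirs` and `off_line` there: `hL0`, `hlam0`).  (2) `Lam α γ z = 0`, `z` not on the line: the end point of the ray from `c`
through `z` has `br (spin p) α = 0` or `br (spin p) γ = 0`, so it is `W₁` or `W₂` (`spin_inj`), so `z` is on the line.  (4) `Lam α α (c + τ (d - c))` is affine in `τ`, zero at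
`τ₁`, positive in the ball, so `= a (τ - τ₁)`; `Lam γ γ = b (τ₂ - τ)`, `a, b > 0`.
-/

set_option autoImplicit false

namespace Pool.Agent.H25.DI

open Pool.Agent.Results.MP_1fedf0_gt.CollinearPlusOne (spin br Lam Lam_line Lam_spin t_gt_one spin_inj endpoints)

private theorem ax_br_self (w : ℂ × ℂ) : br w w = 0 := by
  unfold br
  ring

/-- `Lam` vanishes at a point of the sphere if one of the two factors does -/
private theorem ax_lam_zero {α γ : ℂ × ℂ} {p : Fin 3 → ℝ} (hp : ∑ k, p k ^ 2 = 1)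
    (h : br (spin p) α = 0 ∨ br (spin p) γ = 0) : Lam α γ p = 0 := by
  obtain ⟨κ, hκ, e⟩ := Lam_spin α γ hp
  have hκ' : (κ : ℂ) ≠ 0 := by exact_mod_cast hκ.ne'
  have h1 : (κ : ℂ) * Lam α γ p = 0 := by
    rw [← e]
    rcases h with h | h
    · rw [h, zero_mul]
    · rw [h, map_zero, mul_zero]
  exact (mul_eq_zero.1 h1).resolve_left hκ'

private theorem ax_of_lam_zero {α γ : ℂ × ℂ} {p : Fin 3 → ℝ} (hp : ∑ k, p k ^ 2 = 1)
    (h : Lam α γ p = 0) : br (spin p) α = 0 ∨ br (spin p) γ = 0 := by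
  obtain ⟨κ, hκ, e⟩ := Lam_spin α γ hp
  rw [h, mul_zero] at e
  rcases mul_eq_zero.1 e with h1 | h1
  · exact Or.inl h1
  · exact Or.inr ((map_eq_zero (starRingEnd ℂ)).1 h1)

private theorem ax_sum (c e : Fin 3 → ℝ) (τ : ℝ) :
    ∑ k, (c + τ • e) k ^ 2 = ∑ k, (c k + τ * e k) ^ 2 := by
  simp only [Pi.add_apply, Pi.smul_apply, smul_eq_mul]

theorem chord {c d : Fin 3 → ℝ} (hc : Ball c) (hd : Ball d) (hcd : c ≠ d) :
    ∃ α γ : ℂ × ℂ, br α γ ≠ 0 ∧ (∀ τ : ℝ, Lam α γ (c + τ • (d - c)) = 0) ∧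
      (∀ z : Fin 3 → ℝ, Ball z → Lam α γ z = 0 → ∃ τ : ℝ, z = c + τ • (d - c)) ∧
      (∀ (τ τ' : ℝ) (p : Fin 3 → ℝ), Ball (c + τ • (d - c)) → Ball (c + τ' • (d - c)) →
        Ray (c + τ • (d - c)) (c + τ' • (d - c)) p → (τ < τ' → br (spin p) γ = 0) ∧ (τ' < τ → br (spin p) α = 0)) ∧
      (∀ (τ τ' A C A' C' : ℝ), τ ≤ τ' → Ball (c + τ • (d - c)) → Ball (c + τ' • (d - c)) → HM α γ (c + τ • (d - c)) A 0 C →
        HM α γ (c + τ' • (d - c)) A' 0 C' → A * C' ≤ A' * C) := by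
  have hdc : d - c ≠ 0 := sub_ne_zero.2 (Ne.symm hcd)
  have h0 : ∑ k, (c k + 0 * (d - c) k) ^ 2 < 1 := by
    have h1 : ∑ k : Fin 3, (c k + 0 * (d - c) k) ^ 2 = ∑ k : Fin 3, c k ^ 2 :=
      Finset.sum_congr rfl fun k _ => by ring
    rw [h1]
    exact hc
  obtain ⟨τ₁, τ₂, D, hlt, hD, hq⟩ := endpoints c (d - c) hdc 0 h0
  have s1 : ∑ k, (c + τ₁ • (d - c)) k ^ 2 = 1 := by
    rw [ax_sum]
    have h1 := hq τ₁
    rw [sub_self, zero_mul, mul_zero] at h1
    linarith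
  have s2 : ∑ k, (c + τ₂ • (d - c)) k ^ 2 = 1 := by
    rw [ax_sum]
    have h1 := hq τ₂
    rw [sub_self, mul_zero, mul_zero] at h1
    linarith
  have hin : ∀ τ : ℝ, Ball (c + τ • (d - c)) → τ₁ < τ ∧ τ < τ₂ := by
    intro τ hb
    unfold Ball at hb
    rw [ax_sum] at hb
    have h1 := hq τ
    have h3 : (τ - τ₁) * (τ - τ₂) < 0 := by
      by_contra hcon
      push Not at hcon
      have := mul_nonneg hD.le hcon
      linarith
    constructor
    · by_contra hcon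
      push Not at hcon
      have h4 : 0 ≤ (τ₁ - τ) * (τ₂ - τ) := mul_nonneg (by linarith) (by linarith)
      nlinarith
    · by_contra hcon
      push Not at hcon
      have h4 : 0 ≤ (τ - τ₁) * (τ - τ₂) := mul_nonneg (by linarith) (by linarith)
      linarith
  set α := spin (c + τ₁ • (d - c)) with hα
  set γ := spin (c + τ₂ • (d - c)) with hγ
  have hne : br α γ ≠ 0 := by
    intro h
    have h1 := spin_inj s1 s2 h
    rw [add_right_inj] at h1
    have h2 : (τ₁ - τ₂) • (d - c) = 0 := by rw [sub_smul, h1, sub_self]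
    rcases smul_eq_zero.1 h2 with h3 | h3
    · linarith
    · exact hdc h3
  have l1 : Lam α γ (c + τ₁ • (d - c)) = 0 := ax_lam_zero s1 (Or.inl (ax_br_self _))
  have l2 : Lam α γ (c + τ₂ • (d - c)) = 0 := ax_lam_zero s2 (Or.inr (ax_br_self _))
  have lcd : Lam α γ d - Lam α γ c = 0 := by
    rw [Lam_line] at l1 l2
    have h1 : ((τ₂ : ℂ) - τ₁) * (Lam α γ d - Lam α γ c) = 0 := by linear_combination l2 - l1
    have h2 : ((τ₂ : ℂ) - τ₁) ≠ 0 := by
      have : τ₂ - τ₁ ≠ 0 := by linarith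
      exact_mod_cast this
    exact (mul_eq_zero.1 h1).resolve_left h2
  have lc : Lam α γ c = 0 := by
    rw [Lam_line, lcd, mul_zero, add_zero] at l1
    exact l1
  have hline : ∀ τ : ℝ, Lam α γ (c + τ • (d - c)) = 0 := by
    intro τ
    rw [Lam_line, lcd, lc, mul_zero, add_zero]
  refine ⟨α, γ, hne, hline, ?_, ?_, ?_⟩
  · intro z hz hlz
    by_cases hzc : z = c
    · exact ⟨0, by rw [hzc, zero_smul, add_zero]⟩
    have hzc' : z - c ≠ 0 := sub_ne_zero.2 hzc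
    have h0' : ∑ k, (c k + 0 * (z - c) k) ^ 2 < 1 := by
      have h1 : ∑ k : Fin 3, (c k + 0 * (z - c) k) ^ 2 = ∑ k : Fin 3, c k ^ 2 :=
        Finset.sum_congr rfl fun k _ => by ring
      rw [h1]
      exact hc
    obtain ⟨σ₁, σ₂, E, hlt', hE, hq'⟩ := endpoints c (z - c) hzc' 0 h0'
    have hσ : σ₂ ≠ 0 := by
      intro h
      have h1 := hq' 0
      rw [h] at h1
      have h2 : E * ((0 - σ₁) * (0 - 0)) = 0 := by ring
      rw [h2] at h1
      linarith
    have sp : ∑ k, (c + σ₂ • (z - c)) k ^ 2 = 1 := by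
      rw [ax_sum]
      have h1 := hq' σ₂
      rw [sub_self, mul_zero, mul_zero] at h1
      linarith
    have lp : Lam α γ (c + σ₂ • (z - c)) = 0 := by
      rw [Lam_line, lc, hlz, sub_zero, mul_zero, add_zero]
    have fin : ∀ σ : ℝ, c + σ₂ • (z - c) = c + σ • (d - c) → ∃ τ : ℝ, z = c + τ • (d - c) := by
      intro σ h
      refine ⟨σ₂⁻¹ * σ, ?_⟩
      rw [add_right_inj] at h
      rw [mul_smul, ← h, smul_smul, inv_mul_cancel₀ hσ, one_smul, add_sub_cancel]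
    rcases ax_of_lam_zero sp lp with h | h
    · exact fin τ₁ (spin_inj sp s1 h)
    · exact fin τ₂ (spin_inj sp s2 h)
  · rintro τ τ' p hb hb' ⟨hp, t, ht, hpt⟩
    obtain ⟨a1, a2⟩ := hin τ hb
    have e1 : p = c + (τ + t * (τ' - τ)) • (d - c) := by
      rw [hpt]
      funext k
      simp only [Pi.add_apply, Pi.smul_apply, Pi.sub_apply, smul_eq_mul]
      ring
    have e2 : D * ((τ + t * (τ' - τ) - τ₁) * (τ + t * (τ' - τ) - τ₂)) = 0 := by
      rw [← hq, ← ax_sum, ← e1, hp, sub_self]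
    have e3 := (mul_eq_zero.1 e2).resolve_left hD.ne'
    constructor
    · intro hlt'
      have h6 : 0 < t * (τ' - τ) := mul_pos ht (by linarith)
      have h7 : τ + t * (τ' - τ) = τ₂ := by
        rcases mul_eq_zero.1 e3 with h | h
        · exfalso; linarith
        · linarith
      rw [e1, h7]
      exact ax_br_self _
    · intro hlt'
      have h6 : 0 < t * (τ - τ') := mul_pos ht (by linarith)
      have h7 : τ + t * (τ' - τ) = τ₁ := by
        rcases mul_eq_zero.1 e3 with h | h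
        · linarith
        · exfalso; nlinarith
      rw [e1, h7]
      exact ax_br_self _
  · intro τ τ' A C A' C' hle hb hb' h h'
    obtain ⟨a1, a2⟩ := hin τ hb
    obtain ⟨a3, a4⟩ := hin τ' hb'
    obtain ⟨pA, pC, -⟩ := HM_pos hne hb h
    obtain ⟨pA', pC', -⟩ := HM_pos hne hb' h'
    have m1 : Lam α α (c + τ₁ • (d - c)) = 0 := ax_lam_zero s1 (Or.inl (ax_br_self _))
    have m2 : Lam γ γ (c + τ₂ • (d - c)) = 0 := ax_lam_zero s2 (Or.inl (ax_br_self _))
    have u1 := h.1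
    have u2 := h'.1
    have v1 := h.2.2
    have v2 := h'.2.2
    rw [Lam_line] at m1 m2 u1 u2 v1 v2
    have k1 : A * (τ' - τ₁) = A' * (τ - τ₁) := by
      have : (A : ℂ) * ((τ' : ℂ) - τ₁) = (A' : ℂ) * ((τ : ℂ) - τ₁) := by
        rw [← u1, ← u2]
        linear_combination ((τ' : ℂ) - τ) * m1
      exact_mod_cast this
    have k2 : C * (τ₂ - τ') = C' * (τ₂ - τ) := by
      have : (C : ℂ) * ((τ₂ : ℂ) - τ') = (C' : ℂ) * ((τ₂ : ℂ) - τ) := by
        rw [← v1, ← v2]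
        linear_combination ((τ : ℂ) - τ') * m2
      exact_mod_cast this
    have hpos : 0 < (τ' - τ₁) * (τ₂ - τ) := mul_pos (by linarith) (by linarith)
    have hle2 : (τ - τ₁) * (τ₂ - τ') ≤ (τ' - τ₁) * (τ₂ - τ) :=
      mul_le_mul (by linarith) (by linarith) (by linarith) (by linarith)
    refine le_of_mul_le_mul_right ?_ hpos
    calc A * C' * ((τ' - τ₁) * (τ₂ - τ)) = (A * (τ' - τ₁)) * (C' * (τ₂ - τ)) := by ring
      _ = (A' * (τ - τ₁)) * (C * (τ₂ - τ')) := by rw [k1, k2]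
      _ = A' * C * ((τ - τ₁) * (τ₂ - τ')) := by ring
      _ ≤ A' * C * ((τ' - τ₁) * (τ₂ - τ)) :=
        mul_le_mul_of_nonneg_left hle2 (mul_pos pA' pC).le

end Pool.Agent.H25.DI
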