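import Pool.Agent.Results.MP_1fedf0_gt.WeaklyConvex

/-!
# PROJECT DI (MP_1fedf0_gt, points on a geodesic and a regular polygon around it): definitions

Paper proof: note 5807 (helper25).  `spin p` is a spinor of the point `p` of the sphere, `br` the symplectic form, `FF v` the normalised
determinant of an array of spinors (`Pool.Agent.H65.AS`).  The axis has `m` points, in increasing order, the polygon has `n + 1` vertices
(`n ≥ 0`), `ζ` is a primitive `(n+1)`-th root of unity.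
-/

set_option autoImplicit false

namespace Pool.Agent.H25.DI

open Finset Polynomial
open Pool.Agent.Results.MP_1fedf0_gt.CollinearPlusOne (spin br Lam)

/-- the Hermitian matrix of a point -/
noncomputable def herm (x : Fin 3 → ℝ) : Matrix (Fin 2) (Fin 2) ℂ :=
  !![1 + (x 2 : ℂ), (x 0 : ℂ) + (x 1 : ℂ) * Complex.I; (x 0 : ℂ) - (x 1 : ℂ) * Complex.I, 1 - (x 2 : ℂ)]

/-- the isometry of hyperbolic space given by `U` maps `x` to `y` -/
def Moves (U : Matrix (Fin 2) (Fin 2) ℂ) (x y : Fin 3 → ℝ) : Prop :=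
  ∃ κ : ℝ, 0 < κ ∧ U * herm x * U.conjTranspose = (κ : ℂ) • herm y

/-- the positive `t` with `|s + t (z - 1)| = 1` (`|z| = 1`) -/
noncomputable def tt (s : ℝ) (z : ℂ) : ℝ := (s + Real.sqrt (s ^ 2 + 4 * (1 - s ^ 2) / ‖z - 1‖ ^ 2)) / 2

/-- end point of the ray from the vertex `s` through the vertex `s ζ ^ l` of a regular polygon -/
noncomputable def ee (s : ℝ) (ζ : ℂ) (l : ℕ) : ℂ := (s : ℂ) + (tt s (ζ ^ l) : ℂ) * (ζ ^ l - 1)

/-- the spinors of a regular polygon -/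
noncomputable def pf (n : ℕ) (s : ℝ) (ζ : ℂ) (k l : Fin (n + 1)) : ℂ × ℂ :=
  (ζ ^ (k : ℕ) * ee s ζ ((l - k : Fin (n + 1)) : ℕ), 1)

/-- the spinors of `m` points on the axis and a regular polygon -/
noncomputable def nf (m n : ℕ) (r q : ℕ → ℝ) (s : ℝ) (ζ : ℂ) (a b : Fin (m + (n + 1))) : ℂ × ℂ :=
  Fin.addCases (motive := fun _ => ℂ × ℂ)
    (fun i : Fin m => Fin.addCases (motive := fun _ => ℂ × ℂ)
      (fun j : Fin m => if j < i then ((0 : ℂ), (1 : ℂ)) else (-1, 0))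
      (fun k : Fin (n + 1) => ((r i : ℂ) * ζ ^ (k : ℕ), 1)) b)
    (fun k : Fin (n + 1) => Fin.addCases (motive := fun _ => ℂ × ℂ)
      (fun i : Fin m => (-((q i : ℂ) * ζ ^ (k : ℕ)), 1))
      (fun l : Fin (n + 1) => pf n s ζ k l) b) a

/-- `∏ (X + q i)` -/
noncomputable def EE (q : ℕ → ℝ) (m : ℕ) : ℝ[X] := ∏ i ∈ range m, (X + C (q i))

/-- the polynomial of the vertex `0` of a regular polygon -/
noncomputable def QQ (n : ℕ) (s : ℝ) (ζ : ℂ) : ℂ[X] := ∏ l ∈ Finset.Ico 1 (n + 1), (X - C (ee s ζ l))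

/-- the weights: `1` for `t ≤ n`, `wt (t + n + 1) = r t ^ (n + 1) * wt t` -/
noncomputable def wt (r : ℕ → ℝ) (n : ℕ) (t : ℕ) : ℝ :=
  if t < n + 1 then 1 else r (t - (n + 1)) ^ (n + 1) * wt r n (t - (n + 1))
termination_by t
decreasing_by omega

/-- `S_j` -/
noncomputable def SS (r : ℕ → ℝ) (m n : ℕ) (P : ℝ[X]) (j : ℕ) : ℝ :=
  ∑ t ∈ (range (m + n + 1)).filter (fun t => t % (n + 1) = j), P.coeff t * wt r n t

/-- the Fourier matrix -/
noncomputable def VV (n : ℕ) (ζ : ℂ) : Matrix (Fin (n + 1)) (Fin (n + 1)) ℂ :=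
  Matrix.of fun k j => ζ ^ ((k : ℕ) * (n - (j : ℕ)))

/-- the Hermitian matrix of `x` in the coordinates `br · α`, `br · γ` is `[[A, Λ], [conj Λ, C]]` -/
def HM (α γ : ℂ × ℂ) (x : Fin 3 → ℝ) (A : ℝ) (Λ : ℂ) (C : ℝ) : Prop :=
  Lam α α x = (A : ℂ) ∧ Lam α γ x = Λ ∧ Lam γ γ x = (C : ℂ)

/-- `p` is the end point of the ray from `x` through `y` -/
def Ray (x y p : Fin 3 → ℝ) : Prop :=
  (∑ k : Fin 3, p k ^ 2 = 1) ∧ ∃ t : ℝ, 0 < t ∧ p = x + t • (y - x)

/-- the open unit ball -/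
def Ball (x : Fin 3 → ℝ) : Prop := ∑ k : Fin 3, x k ^ 2 < 1

end Pool.Agent.H25.DI
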