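import Pool.Agent.H25.DI.Defs

/-!
# DI Gl: invariance of the normalised determinant under `GL_2`

`det_hev` (H65/AS/Alg) with nodes `t_l`, for the family `g v` and, for `v`, with the nodes `g^(-1) t_l` (times `det g`): `br (g a) (g b) = det g * br a b`, so
`hev (n-1) t (pol (g v)) = ∏ br t (g v) = (det g)^(n-1) ∏ br (g^(-1) t) v` (`hev_pol`).  With `t_l = (l, 1)` the Vandermonde factor is not zero.  So
`cdet (g v) = (det g)^(n(n-1)/2) cdet v`, and the denominator of `FF` gets the same factor (in norm).  `n ≤ 1`: both are trivial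
(easier: treat `n = 0` alone, all other `n` uniformly).
-/

set_option autoImplicit false

namespace Pool.Agent.H25.DI

open Finset Polynomial
open Pool.Agent.Results.MP_1fedf0_gt.CollinearPlusOne (spin br)
open Pool.Agent.H65.AS (cf cdet pol FF hev hev_pol det_hev)

private theorem Gl_br (t v : ℂ × ℂ) (a b c d : ℂ) :
    br t (a * v.1 + b * v.2, c * v.1 + d * v.2) = br (d * t.1 - b * t.2, a * t.2 - c * t.1) v := by
  unfold br
  ring

private theorem Gl_br2 (u v : ℂ × ℂ) (a b c d : ℂ) :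
    br (a * u.1 + b * u.2, c * u.1 + d * u.2) (a * v.1 + b * v.2, c * v.1 + d * v.2) =
      (a * d - b * c) * br u v := by
  unfold br
  ring

private theorem Gl_cdet {N : ℕ} (v : Fin N → Fin N → ℂ × ℂ) (a b c d : ℂ) :
    cdet (fun i j => (a * (v i j).1 + b * (v i j).2, c * (v i j).1 + d * (v i j).2)) =
      cdet v * ∏ i : Fin N, ∏ _j ∈ Finset.Ioi i, (a * d - b * c) := by
  have hcard : ∀ i : Fin N, (Finset.univ.erase i).card = N - 1 := by
    intro i
    rw [Finset.card_erase_of_mem (Finset.mem_univ i), Finset.card_univ, Fintype.card_fin]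
  have h1 := det_hev (fun i => pol (fun j => (a * (v i j).1 + b * (v i j).2, c * (v i j).1 + d * (v i j).2))
    (Finset.univ.erase i)) (fun l : Fin N => (((l : ℕ) : ℂ), (1 : ℂ)))
  have h2 := det_hev (fun i => pol (v i) (Finset.univ.erase i))
    (fun l : Fin N => (d * ((l : ℕ) : ℂ) - b * 1, a * 1 - c * ((l : ℕ) : ℂ)))
  have h3 : (Matrix.of fun i l : Fin N => hev (N - 1) (((l : ℕ) : ℂ), (1 : ℂ))
      (pol (fun j => (a * (v i j).1 + b * (v i j).2, c * (v i j).1 + d * (v i j).2)) (Finset.univ.erase i))) =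
      Matrix.of fun i l : Fin N => hev (N - 1) (d * ((l : ℕ) : ℂ) - b * 1, a * 1 - c * ((l : ℕ) : ℂ))
        (pol (v i) (Finset.univ.erase i)) := by
    ext i l
    rw [Matrix.of_apply, Matrix.of_apply, ← hcard i, hev_pol, hev_pol]
    refine Finset.prod_congr rfl fun j _ => ?_
    exact Gl_br (((l : ℕ) : ℂ), (1 : ℂ)) (v i j) a b c d
  have h4 : ∏ i : Fin N, ∏ j ∈ Finset.Ioi i,
      ((d * ((j : ℕ) : ℂ) - b * 1) * (a * 1 - c * ((i : ℕ) : ℂ)) -
        (d * ((i : ℕ) : ℂ) - b * 1) * (a * 1 - c * ((j : ℕ) : ℂ))) =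
      (∏ i : Fin N, ∏ _j ∈ Finset.Ioi i, (a * d - b * c)) *
        ∏ i : Fin N, ∏ j ∈ Finset.Ioi i, (((j : ℕ) : ℂ) * 1 - ((i : ℕ) : ℂ) * 1) := by
    rw [← Finset.prod_mul_distrib]
    refine Finset.prod_congr rfl fun i _ => ?_
    rw [← Finset.prod_mul_distrib]
    refine Finset.prod_congr rfl fun j _ => ?_
    ring
  have h5 : ∏ i : Fin N, ∏ j ∈ Finset.Ioi i, (((j : ℕ) : ℂ) * 1 - ((i : ℕ) : ℂ) * 1) ≠ 0 := by
    refine Finset.prod_ne_zero_iff.2 fun i _ => Finset.prod_ne_zero_iff.2 fun j hj => ?_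
    rw [Finset.mem_Ioi] at hj
    rw [mul_one, mul_one, sub_ne_zero]
    intro h
    have h6 : (j : ℕ) = (i : ℕ) := by exact_mod_cast h
    exact hj.ne' (Fin.ext h6)
  beta_reduce at h1 h2
  rw [h3, h2] at h1
  unfold cdet
  refine mul_right_cancel₀ h5 ?_
  refine h1.symm.trans ?_
  refine (congrArg (fun z => _ * z) h4).trans ?_
  ring

theorem FF_gl {N : ℕ} (v : Fin N → Fin N → ℂ × ℂ) (a b c d : ℂ) (h : a * d - b * c ≠ 0) :
    FF (fun i j => (a * (v i j).1 + b * (v i j).2, c * (v i j).1 + d * (v i j).2)) = FF v := by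
  unfold FF
  rw [Gl_cdet]
  have h1 : ∏ i : Fin N, ∏ j ∈ Finset.Ioi i,
      ‖br (a * (v i j).1 + b * (v i j).2, c * (v i j).1 + d * (v i j).2)
        (a * (v j i).1 + b * (v j i).2, c * (v j i).1 + d * (v j i).2)‖ =
      ‖∏ i : Fin N, ∏ _j ∈ Finset.Ioi i, (a * d - b * c)‖ *
        ∏ i : Fin N, ∏ j ∈ Finset.Ioi i, ‖br (v i j) (v j i)‖ := by
    rw [norm_prod, ← Finset.prod_mul_distrib]
    refine Finset.prod_congr rfl fun i _ => ?_
    rw [norm_prod, ← Finset.prod_mul_distrib]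
    refine Finset.prod_congr rfl fun j _ => ?_
    rw [Gl_br2, norm_mul]
  have h2 : ‖∏ i : Fin N, ∏ _j ∈ Finset.Ioi i, (a * d - b * c)‖ ≠ 0 :=
    norm_ne_zero_iff.2 (Finset.prod_ne_zero_iff.2 fun i _ => Finset.prod_ne_zero_iff.2 fun j _ => h)
  beta_reduce
  rw [h1, norm_mul, mul_comm ‖cdet v‖, mul_div_mul_left _ _ h2]

end Pool.Agent.H25.DI
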