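import Pool.Agent.H25.DI.Defs

/-!
# DI HMb: Hermitian coordinates

`Lam α γ x` is the entry `(1,2)` of `G * herm x * G^*`, `G = !![α.2, -α.1; γ.2, -γ.1]`, `det G = br α γ` up to sign (also `(1,1)`, `(2,2)` for `Lam α α`, `Lam γ γ`); it is affine
in `x` (`Lam_line`) and at a point of the sphere a positive multiple of `br (spin p) α * conj (br (spin p) γ)` (`Lam_spin`).
`HM_pos`: `det (herm x) = 1 - |x|²`, so `A C - |Λ|² = |br α γ|² (1 - |x|²) > 0`; `A > 0`: `A` is a Hermitian form with the positive definite matrix `herm x`.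
`HM_sph`: `A = κ |w₁|²`, `Λ = κ w₁ conj w₂`, `C = κ |w₂|²` with the SAME `κ > 0` (from `spin_herm`, which depends only on `p`; `Lam_spin` gives a `κ` for each pair).  `ray_gt`: `t_gt_one` in CollinearPlusOne.
-/

set_option autoImplicit false

namespace Pool.Agent.H25.DI

open Pool.Agent.Results.MP_1fedf0_gt.CollinearPlusOne (spin br Lam Lam_line Lam_spin t_gt_one)

variable {α γ : ℂ × ℂ} {x y p : Fin 3 → ℝ} {A C A' C' : ℝ} {Λ Λ' : ℂ}

private theorem HMb_conj (α γ : ℂ × ℂ) (x : Fin 3 → ℝ) :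
    (starRingEnd ℂ) (Lam α γ x) = Lam γ α x := by
  unfold Lam
  simp only [map_add, map_sub, map_mul, Complex.conj_conj, Complex.conj_ofReal, Complex.conj_I, map_one]
  ring

private theorem HMb_spin {p : Fin 3 → ℝ} (hp : ∑ k : Fin 3, p k ^ 2 = 1) : ∃ κ : ℝ, 0 < κ ∧
    ∀ α γ : ℂ × ℂ, br (spin p) α * (starRingEnd ℂ) (br (spin p) γ) = κ * Lam α γ p := by
  obtain ⟨κ, hκ, h1, h2, h3, h4⟩ :=
    Pool.Agent.Results.MP_1fedf0_gt.CollinearPlusOne.spin_herm hp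
  refine ⟨κ, hκ, fun α γ => ?_⟩
  unfold br Lam
  simp only [map_sub, map_mul]
  linear_combination (α.2 * (starRingEnd ℂ) γ.2) * h1 + (α.1 * (starRingEnd ℂ) γ.1) * h2
    - (α.2 * (starRingEnd ℂ) γ.1) * h3 - (α.1 * (starRingEnd ℂ) γ.2) * h4

private theorem HMb_det (α γ : ℂ × ℂ) (x : Fin 3 → ℝ) :
    Lam α α x * Lam γ γ x - Lam α γ x * Lam γ α x =
      br α γ * (starRingEnd ℂ) (br α γ) * (1 - ((x 0 : ℂ) ^ 2 + (x 1 : ℂ) ^ 2 + (x 2 : ℂ) ^ 2)) := by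
  unfold Lam br
  simp only [map_sub, map_mul]
  linear_combination (-(x 1 : ℂ) ^ 2 * ((α.1 * γ.2 - α.2 * γ.1) *
    ((starRingEnd ℂ) α.1 * (starRingEnd ℂ) γ.2 - (starRingEnd ℂ) α.2 * (starRingEnd ℂ) γ.1))) *
      Complex.I_sq * (-1)

private theorem HMb_diag (α : ℂ × ℂ) (x : Fin 3 → ℝ) :
    ((1 + x 2 : ℝ) : ℂ) * Lam α α x =
      (((1 + x 2) * α.2.re - x 0 * α.1.re - x 1 * α.1.im) ^ 2 +
        ((1 + x 2) * α.2.im - x 0 * α.1.im + x 1 * α.1.re) ^ 2 +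
        (1 - (x 0 ^ 2 + x 1 ^ 2 + x 2 ^ 2)) * (α.1.re ^ 2 + α.1.im ^ 2) : ℝ) := by
  unfold Lam
  apply Complex.ext
  · simp only [Complex.mul_re, Complex.mul_im, Complex.add_re, Complex.add_im, Complex.sub_re,
      Complex.sub_im, Complex.ofReal_re, Complex.ofReal_im, Complex.conj_re, Complex.conj_im,
      Complex.I_re, Complex.I_im, Complex.one_re, Complex.one_im]
    ring
  · simp only [Complex.mul_re, Complex.mul_im, Complex.add_re, Complex.add_im, Complex.sub_re,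
      Complex.sub_im, Complex.ofReal_re, Complex.ofReal_im, Complex.conj_re, Complex.conj_im,
      Complex.I_re, Complex.I_im, Complex.one_re, Complex.one_im]
    ring

private theorem HMb_inv1 (α γ : ℂ × ℂ) (x : Fin 3 → ℝ) :
    br α γ * (starRingEnd ℂ) (br α γ) * (1 - (x 2 : ℂ)) =
      γ.2 * (starRingEnd ℂ) γ.2 * Lam α α x - γ.2 * (starRingEnd ℂ) α.2 * Lam α γ x -
        α.2 * (starRingEnd ℂ) γ.2 * Lam γ α x + α.2 * (starRingEnd ℂ) α.2 * Lam γ γ x := by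
  unfold Lam br
  simp only [map_sub, map_mul]
  ring

private theorem HMb_inv2 (α γ : ℂ × ℂ) (x : Fin 3 → ℝ) :
    br α γ * (starRingEnd ℂ) (br α γ) * (1 + (x 2 : ℂ)) =
      γ.1 * (starRingEnd ℂ) γ.1 * Lam α α x - γ.1 * (starRingEnd ℂ) α.1 * Lam α γ x -
        α.1 * (starRingEnd ℂ) γ.1 * Lam γ α x + α.1 * (starRingEnd ℂ) α.1 * Lam γ γ x := by
  unfold Lam br
  simp only [map_sub, map_mul]
  ring

private theorem HMb_inv3 (α γ : ℂ × ℂ) (x : Fin 3 → ℝ) :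
    br α γ * (starRingEnd ℂ) (br α γ) * ((x 0 : ℂ) + (x 1 : ℂ) * Complex.I) =
      γ.1 * (starRingEnd ℂ) γ.2 * Lam α α x - γ.1 * (starRingEnd ℂ) α.2 * Lam α γ x -
        α.1 * (starRingEnd ℂ) γ.2 * Lam γ α x + α.1 * (starRingEnd ℂ) α.2 * Lam γ γ x := by
  unfold Lam br
  simp only [map_sub, map_mul]
  ring

theorem HM_exists (α γ : ℂ × ℂ) (x : Fin 3 → ℝ) : ∃ (A : ℝ) (Λ : ℂ) (C : ℝ), HM α γ x A Λ C := by
  obtain ⟨A, hA⟩ := Complex.conj_eq_iff_real.1 (HMb_conj α α x)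
  obtain ⟨C, hC⟩ := Complex.conj_eq_iff_real.1 (HMb_conj γ γ x)
  exact ⟨A, Lam α γ x, C, hA, rfl, hC⟩

theorem HM_unique (h : HM α γ x A Λ C) (h' : HM α γ x A' Λ' C') : A = A' ∧ Λ = Λ' ∧ C = C' := by
  obtain ⟨h1, h2, h3⟩ := h
  obtain ⟨h1', h2', h3'⟩ := h'
  refine ⟨?_, by rw [← h2, ← h2'], ?_⟩
  · exact_mod_cast (by rw [← h1, ← h1'] : (A : ℂ) = A')
  · exact_mod_cast (by rw [← h3, ← h3'] : (C : ℂ) = C')

private theorem HMb_pos (hα : α ≠ 0) (hx : Ball x) {A : ℝ} (h : Lam α α x = (A : ℂ)) : 0 < A := by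
  unfold Ball at hx
  rw [Fin.sum_univ_three] at hx
  have ha : 0 < 1 + x 2 := by nlinarith [sq_nonneg (x 0), sq_nonneg (x 1)]
  have h1 := HMb_diag α x
  rw [h] at h1
  have h2 : (1 + x 2) * A = ((1 + x 2) * α.2.re - x 0 * α.1.re - x 1 * α.1.im) ^ 2 +
        ((1 + x 2) * α.2.im - x 0 * α.1.im + x 1 * α.1.re) ^ 2 +
        (1 - (x 0 ^ 2 + x 1 ^ 2 + x 2 ^ 2)) * (α.1.re ^ 2 + α.1.im ^ 2) := by exact_mod_cast h1
  have h3 : 0 < (1 + x 2) * A := by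
    rw [h2]
    by_cases h0 : α.1 = 0
    · have h4 : α.2 ≠ 0 := fun h4 => hα (Prod.ext h0 h4)
      have h5 : 0 < α.2.re ^ 2 + α.2.im ^ 2 := by
        have := Complex.normSq_pos.2 h4
        rw [Complex.normSq_apply] at this
        nlinarith
      rw [h0]
      simp only [Complex.zero_re, Complex.zero_im, mul_zero, sub_zero, add_zero]
      have h6 : 0 < (1 + x 2) ^ 2 * (α.2.re ^ 2 + α.2.im ^ 2) := by positivity
      nlinarith
    · have h5 : 0 < α.1.re ^ 2 + α.1.im ^ 2 := by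
        have := Complex.normSq_pos.2 h0
        rw [Complex.normSq_apply] at this
        nlinarith
      have h6 : 0 < (1 - (x 0 ^ 2 + x 1 ^ 2 + x 2 ^ 2)) * (α.1.re ^ 2 + α.1.im ^ 2) :=
        mul_pos (by linarith) h5
      positivity
  exact pos_of_mul_pos_right h3 ha.le

theorem HM_pos (hbr : br α γ ≠ 0) (hx : Ball x) (h : HM α γ x A Λ C) : 0 < A ∧ 0 < C ∧ ‖Λ‖ ^ 2 < A * C := by
  obtain ⟨h1, h2, h3⟩ := h
  have hα : α ≠ 0 := by
    rintro rfl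
    exact hbr (by simp [br])
  have hγ : γ ≠ 0 := by
    rintro rfl
    exact hbr (by simp [br])
  refine ⟨HMb_pos hα hx h1, HMb_pos hγ hx h3, ?_⟩
  have h4 := HMb_det α γ x
  rw [← HMb_conj α γ x, h1, h2, h3, Complex.mul_conj', Complex.mul_conj'] at h4
  have h5 : A * C - ‖Λ‖ ^ 2 = ‖br α γ‖ ^ 2 * (1 - (x 0 ^ 2 + x 1 ^ 2 + x 2 ^ 2)) := by
    exact_mod_cast h4
  unfold Ball at hx
  rw [Fin.sum_univ_three] at hx
  have h6 : 0 < ‖br α γ‖ := norm_pos_iff.2 hbr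
  have h7 : 0 < ‖br α γ‖ ^ 2 * (1 - (x 0 ^ 2 + x 1 ^ 2 + x 2 ^ 2)) :=
    mul_pos (by positivity) (by linarith)
  linarith

theorem HM_line (h : HM α γ x A Λ C) (h' : HM α γ y A' Λ' C') (t : ℝ) :
    HM α γ (x + t • (y - x)) (A + t * (A' - A)) (Λ + (t : ℂ) * (Λ' - Λ)) (C + t * (C' - C)) := by
  obtain ⟨h1, h2, h3⟩ := h
  obtain ⟨h1', h2', h3'⟩ := h'
  refine ⟨?_, ?_, ?_⟩
  · rw [Lam_line, h1, h1']; push_cast; ring
  · rw [Lam_line, h2, h2']
  · rw [Lam_line, h3, h3']; push_cast; ring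

theorem HM_sph (hp : ∑ k : Fin 3, p k ^ 2 = 1) (h : HM α γ p A Λ C) :
    0 ≤ A ∧ 0 ≤ C ∧ ‖Λ‖ ^ 2 = A * C ∧ (Λ ≠ 0 → br (spin p) γ ≠ 0) ∧ (C : ℂ) * br (spin p) α = Λ * br (spin p) γ := by
  obtain ⟨h1, h2, h3⟩ := h
  obtain ⟨κ, hκ, hs⟩ := HMb_spin hp
  have hκ' : (κ : ℂ) ≠ 0 := by exact_mod_cast hκ.ne'
  have k1 := hs α α
  have k2 := hs α γ
  have k3 := hs γ γ
  rw [h1, Complex.mul_conj'] at k1
  rw [h2] at k2
  rw [h3] at k3
  have k3' := k3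
  rw [Complex.mul_conj'] at k3'
  have e1 : ‖br (spin p) α‖ ^ 2 = κ * A := by exact_mod_cast k1
  have e3 : ‖br (spin p) γ‖ ^ 2 = κ * C := by exact_mod_cast k3'
  have e2 : ‖br (spin p) α‖ * ‖br (spin p) γ‖ = κ * ‖Λ‖ := by
    have := congrArg norm k2
    rw [norm_mul, norm_mul, RCLike.norm_conj, Complex.norm_real, Real.norm_eq_abs,
      abs_of_pos hκ] at this
    exact this
  refine ⟨?_, ?_, ?_, ?_, ?_⟩
  · by_contra hA
    push Not at hA
    have : κ * A < 0 := mul_neg_of_pos_of_neg hκ hA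
    nlinarith [sq_nonneg ‖br (spin p) α‖]
  · by_contra hA
    push Not at hA
    have : κ * C < 0 := mul_neg_of_pos_of_neg hκ hA
    nlinarith [sq_nonneg ‖br (spin p) γ‖]
  · have h4 : κ ^ 2 * ‖Λ‖ ^ 2 = κ ^ 2 * (A * C) := by
      rw [← mul_pow, ← e2, mul_pow, e1, e3]; ring
    exact mul_left_cancel₀ (pow_ne_zero 2 hκ.ne') h4
  · intro hΛ h0
    rw [h0, map_zero, mul_zero] at k2
    rcases mul_eq_zero.1 k2.symm with h5 | h5
    · exact hκ' h5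
    · exact hΛ h5
  · apply mul_left_cancel₀ hκ'
    linear_combination (br (spin p) γ) * k2 - (br (spin p) α) * k3

theorem ray_gt (hx : Ball x) (hy : Ball y) (h : Ray x y p) : ∃ t : ℝ, 1 < t ∧ p = x + t • (y - x) := by
  obtain ⟨hp, t, ht, h⟩ := h
  exact ⟨t, t_gt_one hx hy hp t ht h, h⟩

/-- points with proportional coordinates are equal (the trace of `herm` is `2`) -/
theorem HM_ray (hbr : br α γ ≠ 0) {κ : ℝ} (h : HM α γ x A Λ C) (h' : HM α γ y (κ * A) ((κ : ℂ) * Λ) (κ * C)) : x = y := by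
  obtain ⟨h1, h2, h3⟩ := h
  obtain ⟨h1', h2', h3'⟩ := h'
  have hc : Lam γ α x = (starRingEnd ℂ) Λ := by rw [← HMb_conj, h2]
  have hc' : Lam γ α y = (κ : ℂ) * (starRingEnd ℂ) Λ := by
    rw [← HMb_conj, h2', map_mul, Complex.conj_ofReal]
  have hD : br α γ * (starRingEnd ℂ) (br α γ) ≠ 0 :=
    mul_ne_zero hbr ((map_ne_zero _).2 hbr)
  have a1 := HMb_inv1 α γ x
  have a2 := HMb_inv2 α γ x
  have a3 := HMb_inv3 α γ x
  have b1 := HMb_inv1 α γ y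
  have b2 := HMb_inv2 α γ y
  have b3 := HMb_inv3 α γ y
  rw [h1, h2, h3, hc] at a1 a2 a3
  rw [h1', h2', h3', hc'] at b1 b2 b3
  push_cast at b1 b2 b3
  have c1 : (1 - (y 2 : ℂ)) = κ * (1 - (x 2 : ℂ)) := by
    apply mul_left_cancel₀ hD
    linear_combination b1 - (κ : ℂ) * a1
  have c2 : (1 + (y 2 : ℂ)) = κ * (1 + (x 2 : ℂ)) := by
    apply mul_left_cancel₀ hD
    linear_combination b2 - (κ : ℂ) * a2
  have c3 : ((y 0 : ℂ) + (y 1 : ℂ) * Complex.I) = κ * ((x 0 : ℂ) + (x 1 : ℂ) * Complex.I) := by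
    apply mul_left_cancel₀ hD
    linear_combination b3 - (κ : ℂ) * a3
  have d1 : 1 - y 2 = κ * (1 - x 2) := by exact_mod_cast c1
  have d2 : 1 + y 2 = κ * (1 + x 2) := by exact_mod_cast c2
  have hκ : κ = 1 := by linarith
  subst hκ
  have e0 := congrArg Complex.re c3
  have e1 := congrArg Complex.im c3
  simp at e0 e1
  funext k
  fin_cases k
  · exact e0.symm
  · exact e1.symm
  · change x 2 = y 2
    linarith

end Pool.Agent.H25.DI
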