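import Mathlib

/-!
# DI Hol: superadditivity of the geometric mean

`c t ^ |J| = ∏_j a j t`.  If some row sum `S_j = ∑_t a j t` is `0`, all `a j t = 0` for this `j`, so `c = 0`.  Otherwise, by the inequality of the arithmetic and
geometric mean (`Real.inner_le_nnorm_mul_nnorm` is not needed; `Real.geom_mean_le_arith_mean_weighted` with weights `1/|J|`), for every `t`:
`c t / (∏ S_j)^(1/|J|) = ∏_j (a j t / S_j)^(1/|J|) ≤ (1/|J|) ∑_j a j t / S_j`; sum over `t`: the right side gives `1`.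
-/

set_option autoImplicit false

namespace Pool.Agent.H25.DI

theorem hoelder {J T : Type} [Fintype J] [Fintype T] [Nonempty J] (a : J → T → ℝ) (c : T → ℝ) (ha : ∀ j t, 0 ≤ a j t)
    (hc : ∀ t, 0 ≤ c t) (h : ∀ t, c t ^ Fintype.card J = ∏ j, a j t) :
    (∑ t, c t) ^ Fintype.card J ≤ ∏ j, ∑ t, a j t := by
  have hk : 0 < Fintype.card J := Fintype.card_pos
  have hk0 : Fintype.card J ≠ 0 := hk.ne'
  have hkR : (0 : ℝ) < (Fintype.card J : ℝ) := by exact_mod_cast hk
  have hS0 : ∀ j, 0 ≤ ∑ t, a j t := fun j => Finset.sum_nonneg fun t _ => ha j t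
  by_cases hz : ∃ j, ∑ t, a j t = 0
  · obtain ⟨j, hj⟩ := hz
    have h1 : ∀ t, a j t = 0 := fun t =>
      (Finset.sum_eq_zero_iff_of_nonneg fun t _ => ha j t).1 hj t (Finset.mem_univ t)
    have h2 : ∀ t, c t = 0 := by
      intro t
      have h3 := h t
      rw [Finset.prod_eq_zero (Finset.mem_univ j) (h1 t)] at h3
      exact (pow_eq_zero_iff hk0).1 h3
    have h4 : ∑ t, c t = 0 := Finset.sum_eq_zero fun t _ => h2 t
    rw [h4, zero_pow hk0]
    exact Finset.prod_nonneg fun j _ => hS0 j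
  push Not at hz
  have hS : ∀ j, 0 < ∑ t, a j t := fun j => lt_of_le_of_ne (hS0 j) (Ne.symm (hz j))
  set S : J → ℝ := fun j => ∑ t, a j t with hSdef
  have hP : 0 < ∏ j, S j := Finset.prod_pos fun j _ => hS j
  set P : ℝ := (∏ j, S j) ^ ((Fintype.card J : ℝ)⁻¹) with hPdef
  have hPpos : 0 < P := Real.rpow_pos_of_pos hP _
  have hPk : P ^ Fintype.card J = ∏ j, S j := Real.rpow_inv_natCast_pow hP.le hk0
  have hkey : ∀ t, c t / P ≤ ∑ j, (Fintype.card J : ℝ)⁻¹ * (a j t / S j) := by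
    intro t
    have hz0 : ∀ j ∈ (Finset.univ : Finset J), 0 ≤ a j t / S j := fun j _ => div_nonneg (ha j t) (hS j).le
    have h1 := Real.geom_mean_le_arith_mean_weighted (Finset.univ : Finset J)
      (fun _ => (Fintype.card J : ℝ)⁻¹) (fun j => a j t / S j) (fun _ _ => by positivity)
      (by rw [Finset.sum_const, Finset.card_univ, nsmul_eq_mul]; exact mul_inv_cancel₀ hkR.ne') hz0
    refine le_trans (le_of_eq ?_) h1
    rw [Real.finset_prod_rpow _ _ hz0]
    have h2 : ∏ j, (a j t / S j) = (c t / P) ^ Fintype.card J := by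
      rw [div_pow, hPk, h t, Finset.prod_div_distrib]
    rw [h2]
    exact (Real.pow_rpow_inv_natCast (div_nonneg (hc t) hPpos.le) hk0).symm
  have hsum : (∑ t, c t) / P ≤ 1 := by
    rw [Finset.sum_div]
    refine (Finset.sum_le_sum fun t _ => hkey t).trans (le_of_eq ?_)
    rw [Finset.sum_comm]
    have h3 : ∀ j ∈ (Finset.univ : Finset J), ∑ t, (Fintype.card J : ℝ)⁻¹ * (a j t / S j) =
        (Fintype.card J : ℝ)⁻¹ := by
      intro j _
      rw [← Finset.mul_sum, ← Finset.sum_div]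
      have h4 : (∑ t, a j t) / S j = 1 := div_self (hS j).ne'
      rw [h4, mul_one]
    rw [Finset.sum_congr rfl h3, Finset.sum_const, Finset.card_univ, nsmul_eq_mul]
    exact mul_inv_cancel₀ hkR.ne'
  have hle : ∑ t, c t ≤ P := (div_le_one hPpos).1 hsum
  calc (∑ t, c t) ^ Fintype.card J ≤ P ^ Fintype.card J :=
        pow_le_pow_left₀ (Finset.sum_nonneg fun t _ => hc t) hle _
    _ = ∏ j, ∑ t, a j t := hPk

end Pool.Agent.H25.DI
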