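import Pool.Agent.H25.DI.Defs

/-!
# DI Sym: `∏ (r_i + q_i) ≤ ∑_t e_(m-t)(q) r_0 ... r_(t-1)` for decreasing `r`

`(EE q m).coeff t = e_(m-t)(q)`.  Induction on `m`: `EE q (m+1) = EE q m * (X + q_m)`, so the sum for `m + 1` is
`∑_t (EE q m).coeff t * (R_(t+1) + q_m R_t)`, `R_t = ∏_{i<t} r_i`, `R_(t+1) = r_t R_t ≥ r_m R_t` for `t ≤ m`, so it is at least `(r_m + q_m)` times
the sum for `m`.  (For the induction the hypothesis `hanti` for `m + 1` contains the one for `m`.)
-/

set_option autoImplicit false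

namespace Pool.Agent.H25.DI

open Finset Polynomial

private lemma sym_coeff_zero (q : ℕ → ℝ) (m : ℕ) : (EE q (m + 1)).coeff 0 = (EE q m).coeff 0 * q m := by
  unfold EE
  rw [prod_range_succ, mul_coeff_zero]
  simp

private lemma sym_coeff_succ (q : ℕ → ℝ) (m t : ℕ) :
    (EE q (m + 1)).coeff (t + 1) = (EE q m).coeff t + (EE q m).coeff (t + 1) * q m := by
  unfold EE
  rw [prod_range_succ, mul_add, coeff_add, coeff_mul_X, coeff_mul_C]

private lemma sym_zero (q : ℕ → ℝ) : EE q 0 = 1 := by
  simp [EE]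

theorem EE_coeff_nonneg {q : ℕ → ℝ} (hq : ∀ i, 0 < q i) (m t : ℕ) : 0 ≤ (EE q m).coeff t := by
  induction m generalizing t with
  | zero =>
    rw [sym_zero, coeff_one]
    split_ifs <;> norm_num
  | succ m ih =>
    cases t with
    | zero =>
      rw [sym_coeff_zero]
      exact mul_nonneg (ih 0) (hq m).le
    | succ t =>
      rw [sym_coeff_succ]
      exact add_nonneg (ih t) (mul_nonneg (ih (t + 1)) (hq m).le)

theorem EE_coeff_pos {q : ℕ → ℝ} (hq : ∀ i, 0 < q i) {m t : ℕ} (ht : t ≤ m) : 0 < (EE q m).coeff t := by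
  induction m generalizing t with
  | zero =>
    have : t = 0 := by omega
    subst this
    rw [sym_zero, coeff_one]
    norm_num
  | succ m ih =>
    cases t with
    | zero =>
      rw [sym_coeff_zero]
      exact mul_pos (ih (Nat.zero_le m)) (hq m)
    | succ t =>
      rw [sym_coeff_succ]
      exact add_pos_of_pos_of_nonneg (ih (by omega)) (mul_nonneg (EE_coeff_nonneg hq m (t + 1)) (hq m).le)

theorem EE_natDegree (q : ℕ → ℝ) (m : ℕ) : (EE q m).natDegree = m := by
  unfold EE
  rw [natDegree_prod_of_monic _ _ (fun i _ => monic_X_add_C (q i))]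
  simp

theorem sym_le {r q : ℕ → ℝ} (hr : ∀ i, 0 < r i) (hq : ∀ i, 0 < q i) (m : ℕ) (hanti : ∀ i j, i ≤ j → j < m → r j ≤ r i) :
    ∏ i ∈ range m, (r i + q i) ≤ ∑ t ∈ range (m + 1), (EE q m).coeff t * ∏ i ∈ range t, r i := by
  induction m with
  | zero =>
    simp [sym_zero]
  | succ m ih =>
    have ih' := ih fun i j hij hj => hanti i j hij (by omega)
    have htop : (EE q m).coeff (m + 1) = 0 := by
      apply coeff_eq_zero_of_natDegree_lt
      rw [EE_natDegree]
      exact Nat.lt_succ_self m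
    have e1 : ∑ t ∈ range (m + 1 + 1), (EE q (m + 1)).coeff t * ∏ i ∈ range t, r i =
        ∑ t ∈ range (m + 1), (EE q m).coeff t * (∏ i ∈ range t, r i) * (r t + q m) := by
      rw [sum_range_succ', sym_coeff_zero]
      have e2 : ∀ t, (EE q (m + 1)).coeff (t + 1) * ∏ i ∈ range (t + 1), r i =
          (EE q m).coeff t * (∏ i ∈ range t, r i) * r t +
            q m * ((EE q m).coeff (t + 1) * ∏ i ∈ range (t + 1), r i) := by
        intro t
        rw [sym_coeff_succ, prod_range_succ]
        ring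
      simp only [e2]
      rw [sum_add_distrib, ← mul_sum]
      have e3 : ∑ t ∈ range (m + 1), (EE q m).coeff (t + 1) * ∏ i ∈ range (t + 1), r i +
          (EE q m).coeff 0 * ∏ i ∈ range 0, r i = ∑ t ∈ range (m + 1), (EE q m).coeff t * ∏ i ∈ range t, r i := by
        rw [← sum_range_succ' (fun t => (EE q m).coeff t * ∏ i ∈ range t, r i) (m + 1), sum_range_succ, htop,
          zero_mul, add_zero]
      have e4 : ∑ t ∈ range (m + 1), (EE q m).coeff t * (∏ i ∈ range t, r i) * (r t + q m) =
          ∑ t ∈ range (m + 1), (EE q m).coeff t * (∏ i ∈ range t, r i) * r t +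
            q m * ∑ t ∈ range (m + 1), (EE q m).coeff t * ∏ i ∈ range t, r i := by
        rw [mul_sum, ← sum_add_distrib]
        refine sum_congr rfl fun t _ => ?_
        ring
      rw [e4, ← e3]
      ring
    rw [e1, prod_range_succ]
    calc (∏ i ∈ range m, (r i + q i)) * (r m + q m)
        ≤ (∑ t ∈ range (m + 1), (EE q m).coeff t * ∏ i ∈ range t, r i) * (r m + q m) :=
          mul_le_mul_of_nonneg_right ih' (add_pos (hr m) (hq m)).le
      _ = ∑ t ∈ range (m + 1), (EE q m).coeff t * (∏ i ∈ range t, r i) * (r m + q m) := by rw [sum_mul]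
      _ ≤ ∑ t ∈ range (m + 1), (EE q m).coeff t * (∏ i ∈ range t, r i) * (r t + q m) := by
          refine sum_le_sum fun t ht => ?_
          have h1 : r m ≤ r t := hanti t m (Nat.lt_succ_iff.1 (mem_range.1 ht)) (Nat.lt_succ_self m)
          refine mul_le_mul_of_nonneg_left (by linarith) ?_
          exact mul_nonneg (EE_coeff_nonneg hq m t) (prod_nonneg fun i _ => (hr i).le)

end Pool.Agent.H25.DI
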