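import Pool.Agent.H25.DI.Wt
import Pool.Agent.H25.DI.Sym
import Pool.Agent.H25.DI.Hol

/-!
# DI Ineq: the inequality for the sums `S_j`

`P = EE q m * R`, `P.coeff u = ∑_{t + l = u} (EE q m).coeff t * R.coeff l` (`l ≤ n`, `t ≤ m`).  For `j ≤ n` and `t ≤ m` let `l = l(j,t) ≤ n` be the residue of `j - t`
modulo `n + 1`; then `S_j = ∑_{t ≤ m} a_(j,t)`, `a_(j,t) = (EE q m).coeff t * R.coeff l * wt (l + t)` (the pairs `(t, l)` with `t + l = j` modulo `n + 1`).  For fixed `t`
the map `j ↦ l(j,t)` is a bijection of `range (n+1)`, so `∏_j a_(j,t) = ((EE q m).coeff t * ∏_{i<t} r_i)^(n+1) * ∏_l R.coeff l` (`win`).  Now `hoelder` with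
`J = Fin (n+1)`, `T = Fin (m+1)`, `c t = (EE q m).coeff t * (∏_{i<t} r_i) * (∏_l R.coeff l)^(1/(n+1))`, and `sym_le`.
-/

set_option autoImplicit false

namespace Pool.Agent.H25.DI

open Finset Polynomial

private def Ineq_l (n j t : ℕ) : ℕ := (j + n * t) % (n + 1)

private theorem Ineq_lt (n j t : ℕ) : Ineq_l n j t < n + 1 := Nat.mod_lt _ (Nat.succ_pos n)

private theorem Ineq_mod {n j : ℕ} (hj : j < n + 1) (t : ℕ) : (Ineq_l n j t + t) % (n + 1) = j := by
  unfold Ineq_l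
  rw [Nat.mod_add_mod]
  have h : j + n * t + t = j + (n + 1) * t := by ring
  rw [h, Nat.add_mul_mod_self_left, Nat.mod_eq_of_lt hj]

private theorem Ineq_inv {n l : ℕ} (hl : l < n + 1) (t : ℕ) : Ineq_l n ((l + t) % (n + 1)) t = l := by
  unfold Ineq_l
  rw [Nat.mod_add_mod]
  have h : l + t + n * t = l + (n + 1) * t := by ring
  rw [h, Nat.add_mul_mod_self_left, Nat.mod_eq_of_lt hl]

private theorem Ineq_bij (n t : ℕ) (f : ℕ → ℝ) :
    ∏ j : Fin (n + 1), f (Ineq_l n j t) = ∏ l ∈ range (n + 1), f l := by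
  rw [← Finset.prod_range (fun j => f (Ineq_l n j t))]
  exact Finset.prod_nbij' (fun j => Ineq_l n j t) (fun l => (l + t) % (n + 1))
    (fun j _ => mem_range.2 (Ineq_lt n j t)) (fun l _ => mem_range.2 (Nat.mod_lt _ (Nat.succ_pos n)))
    (fun j hj => Ineq_mod (mem_range.1 hj) t) (fun l hl => Ineq_inv (mem_range.1 hl) t) (fun j _ => rfl)

private theorem Ineq_coeff {q : ℕ → ℝ} {m n : ℕ} {R : ℝ[X]} (hdeg : R.natDegree ≤ n) (u : ℕ) :
    (EE q m * R).coeff u =
      ∑ t ∈ range (m + 1), ∑ l ∈ range (n + 1), if t + l = u then (EE q m).coeff t * R.coeff l else 0 := by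
  have hE : EE q m = ∑ t ∈ range (m + 1), monomial t ((EE q m).coeff t) :=
    (EE q m).as_sum_range' (m + 1) (by rw [EE_natDegree]; exact Nat.lt_succ_self m)
  have hRR : R = ∑ l ∈ range (n + 1), monomial l (R.coeff l) := R.as_sum_range' (n + 1) (Nat.lt_succ_of_le hdeg)
  have h1 : EE q m * R = ∑ t ∈ range (m + 1), ∑ l ∈ range (n + 1), monomial (t + l) ((EE q m).coeff t * R.coeff l) := by
    calc EE q m * R = (∑ t ∈ range (m + 1), monomial t ((EE q m).coeff t)) * ∑ l ∈ range (n + 1), monomial l (R.coeff l) := by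
          rw [← hE, ← hRR]
      _ = _ := by
          rw [Finset.sum_mul_sum]
          refine Finset.sum_congr rfl fun t _ => Finset.sum_congr rfl fun l _ => ?_
          rw [monomial_mul_monomial]
  rw [h1, finsetSum_coeff]
  refine Finset.sum_congr rfl fun t _ => ?_
  rw [finsetSum_coeff]
  refine Finset.sum_congr rfl fun l _ => ?_
  rw [coeff_monomial]

private theorem Ineq_SS {r q : ℕ → ℝ} {m n : ℕ} {R : ℝ[X]} (hdeg : R.natDegree ≤ n) {j : ℕ} (hj : j < n + 1) :
    SS r m n (EE q m * R) j =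
      ∑ t ∈ range (m + 1), (EE q m).coeff t * R.coeff (Ineq_l n j t) * wt r n (Ineq_l n j t + t) := by
  unfold SS
  rw [Finset.sum_filter]
  have h1 : ∀ u ∈ range (m + n + 1), (if u % (n + 1) = j then (EE q m * R).coeff u * wt r n u else 0) =
      ∑ t ∈ range (m + 1), ∑ l ∈ range (n + 1),
        if t + l = u then (if u % (n + 1) = j then (EE q m).coeff t * R.coeff l * wt r n u else 0) else 0 := by
    intro u _
    by_cases h : u % (n + 1) = j
    · rw [if_pos h, Ineq_coeff hdeg u, Finset.sum_mul]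
      refine Finset.sum_congr rfl fun t _ => ?_
      rw [Finset.sum_mul]
      refine Finset.sum_congr rfl fun l _ => ?_
      by_cases h' : t + l = u
      · rw [if_pos h', if_pos h', if_pos h]
      · rw [if_neg h', if_neg h', zero_mul]
    · rw [if_neg h]
      symm
      refine Finset.sum_eq_zero fun t _ => Finset.sum_eq_zero fun l _ => ?_
      by_cases h' : t + l = u
      · rw [if_pos h', if_neg h]
      · rw [if_neg h']
  rw [Finset.sum_congr rfl h1, Finset.sum_comm]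
  refine Finset.sum_congr rfl fun t ht => ?_
  rw [Finset.sum_comm, Finset.sum_eq_single (Ineq_l n j t)]
  · rw [Finset.sum_eq_single (t + Ineq_l n j t)]
    · have h2 : (t + Ineq_l n j t) % (n + 1) = j := by
        rw [Nat.add_comm]
        exact Ineq_mod hj t
      rw [if_pos rfl, if_pos h2, Nat.add_comm t]
    · intro u _ hu
      rw [if_neg (Ne.symm hu)]
    · intro h
      exfalso
      apply h
      rw [mem_range]
      have h3 := mem_range.1 ht
      have h4 := Ineq_lt n j t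
      omega
  · intro l hl hne
    refine Finset.sum_eq_zero fun u _ => ?_
    by_cases h' : t + l = u
    · rw [if_pos h', if_neg]
      intro h
      apply hne
      have e : (l + t) % (n + 1) = j := by
        rw [Nat.add_comm, h']
        exact h
      rw [← e]
      exact (Ineq_inv (mem_range.1 hl) t).symm
    · rw [if_neg h']
  · intro h
    exact absurd (mem_range.2 (Ineq_lt n j t)) h

theorem SS_pos {r q : ℕ → ℝ} {m n : ℕ} (hr : ∀ i, 0 < r i) (hq : ∀ i, 0 < q i) {R : ℝ[X]} (hdeg : R.natDegree ≤ n)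
    (hR : ∀ l, l ≤ n → 0 < R.coeff l) {j : ℕ} (hj : j < n + 1) : 0 < SS r m n (EE q m * R) j := by
  rw [Ineq_SS hdeg hj]
  exact Finset.sum_pos (fun t ht => mul_pos (mul_pos (EE_coeff_pos hq (Nat.lt_succ_iff.1 (mem_range.1 ht)))
    (hR _ (Nat.lt_succ_iff.1 (Ineq_lt n j t)))) (wt_pos hr n _)) ⟨0, mem_range.2 (Nat.succ_pos m)⟩

theorem SS_ineq {r q : ℕ → ℝ} {m n : ℕ} (hr : ∀ i, 0 < r i) (hq : ∀ i, 0 < q i) (hanti : ∀ i j, i ≤ j → j < m → r j ≤ r i)
    {R : ℝ[X]} (hdeg : R.natDegree ≤ n) (hR : ∀ l, l ≤ n → 0 < R.coeff l) :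
    (∏ l ∈ range (n + 1), R.coeff l) * (∏ i ∈ range m, (r i + q i)) ^ (n + 1) ≤
      ∏ j ∈ range (n + 1), SS r m n (EE q m * R) j := by
  set A : ℝ := ∏ l ∈ range (n + 1), R.coeff l with hA
  have hA0 : 0 < A := Finset.prod_pos fun l hl => hR l (Nat.lt_succ_iff.1 (mem_range.1 hl))
  obtain ⟨D, hD0, hDn⟩ : ∃ D : ℝ, 0 < D ∧ D ^ (n + 1) = A :=
    ⟨A ^ (((n + 1 : ℕ) : ℝ)⁻¹), Real.rpow_pos_of_pos hA0 _, Real.rpow_inv_natCast_pow hA0.le (Nat.succ_ne_zero n)⟩
  have hE0 : ∀ t : Fin (m + 1), 0 < (EE q m).coeff (t : ℕ) := fun t => EE_coeff_pos hq (Nat.lt_succ_iff.1 t.2)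
  have hr0 : ∀ t : ℕ, 0 < ∏ i ∈ range t, r i := fun t => Finset.prod_pos fun i _ => hr i
  have hRl : ∀ (j t : ℕ), 0 < R.coeff (Ineq_l n j t) := fun j t => hR _ (Nat.lt_succ_iff.1 (Ineq_lt n j t))
  have key := hoelder (J := Fin (n + 1)) (T := Fin (m + 1))
    (fun j t => (EE q m).coeff (t : ℕ) * R.coeff (Ineq_l n j t) * wt r n (Ineq_l n j t + t))
    (fun t => (EE q m).coeff (t : ℕ) * (∏ i ∈ range (t : ℕ), r i) * D)
    (fun j t => (mul_pos (mul_pos (hE0 t) (hRl j t)) (wt_pos hr n _)).le)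
    (fun t => (mul_pos (mul_pos (hE0 t) (hr0 t)) hD0).le)
    (fun t => by
      rw [Fintype.card_fin, Finset.prod_mul_distrib, Finset.prod_mul_distrib, Finset.prod_const, Finset.card_univ,
        Fintype.card_fin, Ineq_bij n t (fun l => R.coeff l), Ineq_bij n t (fun l => wt r n (l + t)), win hr n t, mul_pow,
        mul_pow, hDn]
      ring)
  rw [Fintype.card_fin, ← Finset.sum_mul, mul_pow, hDn] at key
  have h1 : ∑ t : Fin (m + 1), (EE q m).coeff (t : ℕ) * ∏ i ∈ range (t : ℕ), r i =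
      ∑ t ∈ range (m + 1), (EE q m).coeff t * ∏ i ∈ range t, r i :=
    (Finset.sum_range (fun t => (EE q m).coeff t * ∏ i ∈ range t, r i)).symm
  have h2 : ∏ j ∈ range (n + 1), SS r m n (EE q m * R) j =
      ∏ j : Fin (n + 1), ∑ t : Fin (m + 1), (EE q m).coeff (t : ℕ) * R.coeff (Ineq_l n j t) * wt r n (Ineq_l n j t + t) := by
    rw [Finset.prod_range]
    refine Finset.prod_congr rfl fun j _ => ?_
    rw [Ineq_SS hdeg j.2, Finset.sum_range]
  rw [h2]
  refine le_trans ?_ key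
  rw [h1, mul_comm]
  refine mul_le_mul_of_nonneg_right ?_ hA0.le
  refine pow_le_pow_left₀ (Finset.prod_nonneg fun i _ => (add_pos (hr i) (hq i)).le) ?_ _
  exact sym_le hr hq m hanti

end Pool.Agent.H25.DI
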