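import Pool.Agent.H25.DI.NF
import Pool.Agent.H25.DI.Alg

/-!
# DI Main

Sort the points of the axis (`Tuple.sort τ`, `FF_perm` in H65/AS/Sub, the permutation of `Fin (m + (n+1))` which is the sorting permutation on the first `m` indices and the
identity on the others), then `normal_form`, `FF_nf`, `reg`; `normDet_eq` (WeaklyConvex) for the two families; linear independence: `linInd_of_det` (H65/AS/Cfg), as at
the end of the proof of WeaklyConvex.  The pairs are not `0`: last part of `normal_form` and `reg`, `r + q > 0`.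
-/

set_option autoImplicit false

namespace Pool.Agent.H25.DI

open Pool.Agent.Results.MP_1fedf0_gt.CollinearPlusOne (spin br Lam)
open Pool.Agent.H65.AS (FF FF_perm)
open Pool.Agent.Results.MP_1fedf0_gt.WeaklyConvex (beta normDet coeffDet normDet_eq)

/-- the pairs of the normal form are not zero -/
theorem nf_br {m n : ℕ} {r q : ℕ → ℝ} (hr : ∀ i, 0 < r i) (hq : ∀ i, 0 < q i) {s : ℝ} (h0 : 0 ≤ s) (h1 : s < 1)
    {ζ : ℂ} (hζ : IsPrimitiveRoot ζ (n + 1)) {a b : Fin (m + (n + 1))} (hab : a ≠ b) :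
    br (nf m n r q s ζ a b) (nf m n r q s ζ b a) ≠ 0 := by
  have hζ0 : ζ ≠ 0 := hζ.ne_zero (by omega)
  induction a using Fin.addCases with
  | left i =>
    induction b using Fin.addCases with
    | left j =>
      have hij : i ≠ j := fun h => hab (by rw [h])
      simp only [nf, Fin.addCases_left]
      rcases lt_or_gt_of_ne hij with h | h
      · rw [if_neg (not_lt.2 h.le), if_pos h]
        simp [br]
      · rw [if_pos h, if_neg (not_lt.2 h.le)]
        simp [br]
    | right k =>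
      simp only [nf, Fin.addCases_left, Fin.addCases_right]
      have h2 : ((r i : ℂ) + (q i : ℂ)) ≠ 0 := by
        have h3 := add_pos (hr i) (hq i)
        exact_mod_cast h3.ne'
      have h4 : br ((r i : ℂ) * ζ ^ (k : ℕ), (1 : ℂ)) (-((q i : ℂ) * ζ ^ (k : ℕ)), (1 : ℂ)) =
          ((r i : ℂ) + (q i : ℂ)) * ζ ^ (k : ℕ) := by
        simp only [br]; ring
      rw [h4]
      exact mul_ne_zero h2 (pow_ne_zero _ hζ0)
  | right k =>
    induction b using Fin.addCases with
    | left i =>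
      simp only [nf, Fin.addCases_left, Fin.addCases_right]
      have h2 : ((r i : ℂ) + (q i : ℂ)) ≠ 0 := by
        have h3 := add_pos (hr i) (hq i)
        exact_mod_cast h3.ne'
      have h4 : br (-((q i : ℂ) * ζ ^ (k : ℕ)), (1 : ℂ)) ((r i : ℂ) * ζ ^ (k : ℕ), (1 : ℂ)) =
          -(((r i : ℂ) + (q i : ℂ)) * ζ ^ (k : ℕ)) := by
        simp only [br]; ring
      rw [h4]
      exact neg_ne_zero.2 (mul_ne_zero h2 (pow_ne_zero _ hζ0))
    | right l =>
      have hkl : k ≠ l := fun h => hab (by rw [h])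
      simp only [nf, Fin.addCases_right]
      exact (reg h0 h1 hζ).2 k l hkl

theorem lin_of {N : ℕ} (p : Fin N → Fin N → Fin 3 → ℝ) (h1 : 1 ≤ normDet p) : LinearIndependent ℂ (beta p) := by
  apply Pool.Agent.H65.AS.linInd_of_det
  change coeffDet p ≠ 0
  intro h2
  unfold normDet at h1
  rw [h2, norm_zero, zero_div] at h1
  exact absurd h1 (by norm_num)

theorem main {m n : ℕ} {x : Fin (m + (n + 1)) → Fin 3 → ℝ} {p : Fin (m + (n + 1)) → Fin (m + (n + 1)) → Fin 3 → ℝ}
    (hx : ∀ i, Ball (x i)) (hinj : Function.Injective x) (hp : ∀ i j, i ≠ j → Ray (x i) (x j) (p i j))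
    {c d : Fin 3 → ℝ} (hc : Ball c) (hd : Ball d) (hcd : c ≠ d) {U : Matrix (Fin 2) (Fin 2) ℂ} (hUc : Moves U c c) (hUd : Moves U d d)
    (ha : ∀ i : Fin m, ∃ t : ℝ, x (Fin.castAdd (n + 1) i) = c + t • (d - c))
    (hoff : ¬ ∃ t : ℝ, x (Fin.natAdd m 0) = c + t • (d - c))
    (hUb : ∀ k : Fin (n + 1), Moves U (x (Fin.natAdd m k)) (x (Fin.natAdd m (k + 1)))) :
    LinearIndependent ℂ (beta p) ∧ 1 ≤ normDet (fun k l : Fin (n + 1) => p (Fin.natAdd m k) (Fin.natAdd m l)) ∧
      normDet (fun k l : Fin (n + 1) => p (Fin.natAdd m k) (Fin.natAdd m l)) ≤ normDet p := by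
  choose τ0 hτ0 using ha
  have hτinj : Function.Injective τ0 := by
    intro i j hij
    have h1 : x (Fin.castAdd (n + 1) i) = x (Fin.castAdd (n + 1) j) := by rw [hτ0 i, hτ0 j, hij]
    exact Fin.castAdd_injective m (n + 1) (hinj h1)
  set σ0 : Equiv.Perm (Fin m) := Tuple.sort τ0 with hσ0
  have hmono : StrictMono (τ0 ∘ σ0) :=
    (Tuple.monotone_sort τ0).strictMono_of_injective (hτinj.comp σ0.injective)
  set σ : Equiv.Perm (Fin (m + (n + 1))) :=
    finSumFinEquiv.symm.trans ((Equiv.sumCongr σ0 (Equiv.refl (Fin (n + 1)))).trans finSumFinEquiv) with hσ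
  have hσa : ∀ i : Fin m, σ (Fin.castAdd (n + 1) i) = Fin.castAdd (n + 1) (σ0 i) := by
    intro i
    simp [hσ]
  have hσb : ∀ k : Fin (n + 1), σ (Fin.natAdd m k) = Fin.natAdd m k := by
    intro k
    simp [hσ]
  obtain ⟨r, q, s, ζ, hr, hq, hanti, h0, h1, hζ, hF, hG, hbr⟩ :=
    normal_form (x := fun i => x (σ i)) (p := fun i j => p (σ i) (σ j)) (fun i => hx _)
      (hinj.comp σ.injective) (fun i j hij => hp _ _ (fun h => hij (σ.injective h))) hc hd hcd hUc hUd
      (τ := τ0 ∘ σ0) hmono (fun i => by rw [hσa i, hτ0]; rfl) (by rw [hσb]; exact hoff)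
      (fun k => by
        have h2 := hUb k
        rw [← hσb k, ← hσb (k + 1)] at h2
        simpa only [hσb] using hUb k)
  -- the pairs are not zero
  have hne : ∀ i j, i ≠ j → br (spin (p i j)) (spin (p j i)) ≠ 0 := by
    intro i j hij
    obtain ⟨c', hc', h2⟩ := hbr (σ.symm i) (σ.symm j) (fun h => hij (σ.symm.injective h))
    simp only [Equiv.apply_symm_apply] at h2
    rw [h2]
    exact mul_ne_zero hc' (nf_br hr hq h0 h1 hζ (fun h => hij (σ.symm.injective h)))
  have e1 : normDet p = FF (nf m n r q s ζ) := by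
    rw [normDet_eq p hne, ← hF]
    exact (FF_perm (fun i j => spin (p i j)) σ).symm
  have e2 : normDet (fun k l : Fin (n + 1) => p (Fin.natAdd m k) (Fin.natAdd m l)) = FF (pf n s ζ) := by
    rw [normDet_eq _ (fun k l hkl => hne _ _ (fun h => hkl (Fin.natAdd_injective (n + 1) m h))), ← hG]
    simp only [hσb]
  have h3 : 1 ≤ FF (pf n s ζ) := (reg h0 h1 hζ).1
  have h4 : FF (pf n s ζ) ≤ FF (nf m n r q s ζ) := FF_nf hr hq hanti h0 h1 hζ
  refine ⟨lin_of p ?_, ?_, ?_⟩
  · rw [e1]; exact h3.trans h4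
  · rw [e2]; exact h3
  · rw [e1, e2]; exact h4

end Pool.Agent.H25.DI
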