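import Pool.Agent.H25.DI.HMb

/-!
# DI RayA: rays between a point of the axis and a point off the axis

`ray_ax`: `p = y + t (z - y)`, `t > 1` (`ray_gt`), coordinates of `p` (`HM_line`): `((1-t) A₁ + t κ A, t κ Λ, (1-t) C₁ + t κ C) = t κ (A - u A₁, Λ, C - u C₁)`,
`u = (t-1)/(t κ) > 0`.  `HM_sph`: both diagonal entries are `≥ 0` with product `(t κ)² ‖Λ‖² > 0`, so `> 0`, and `ρ = 1/(C - u C₁)`.
`ray_ra`: `p = z + t (y - z)`: `((1-t) κ A + t A₁, (1-t) κ Λ, ..) = (t-1) κ (v A₁ - A, -Λ, v C₁ - C)`, `v = t/((t-1) κ)`.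
`ax_mono`: if `ρ' > ρ`, then `C - u' C₁' < C - u C₁`, so `u' C₁' > u C₁` and `u' A₁' ≥ u' C₁' A₁/C₁ > u A₁`: both factors are smaller for the second, against the equal
products.  `ra_uniq`: `(v A₁ - A)(v C₁ - C)` is strictly increasing in `v` where both factors are positive.
-/

set_option autoImplicit false

namespace Pool.Agent.H25.DI

open Pool.Agent.Results.MP_1fedf0_gt.CollinearPlusOne (spin br Lam)

/-- the data of a ray from the point `(A₁, 0, C₁)` of the axis through the point `(A, Λ, C)`, `L = ‖Λ‖²` -/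
def AxRing (A1 C1 A C L ρ : ℝ) : Prop :=
  0 < ρ ∧ ∃ u : ℝ, 0 < u ∧ 0 < A - u * A1 ∧ 0 < C - u * C1 ∧ (A - u * A1) * (C - u * C1) = L ∧ ρ * (C - u * C1) = 1

/-- the data of a ray from `(A, Λ, C)` through `(A₁, 0, C₁)` -/
def RingAx (A1 C1 A C L ρ : ℝ) : Prop :=
  0 < ρ ∧ ∃ v : ℝ, 0 < v ∧ 0 < v * A1 - A ∧ 0 < v * C1 - C ∧ (v * A1 - A) * (v * C1 - C) = L ∧ ρ * (v * C1 - C) = 1

theorem ray_ax {α γ : ℂ × ℂ} {y z p : Fin 3 → ℝ} (hy : Ball y) (hz : Ball z) {A1 C1 A C κ : ℝ} {Λ : ℂ}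
    (hy' : HM α γ y A1 0 C1) (hκ : 0 < κ) (hz' : HM α γ z (κ * A) ((κ : ℂ) * Λ) (κ * C)) (hΛ : Λ ≠ 0) (hray : Ray y z p) :
    ∃ ρ : ℝ, AxRing A1 C1 A C (‖Λ‖ ^ 2) ρ ∧ br (spin p) γ ≠ 0 ∧ br (spin p) α = (ρ : ℂ) * Λ * br (spin p) γ := by
  obtain ⟨t, ht, hpt⟩ := ray_gt hy hz hray
  have hp := hray.1
  have hl := HM_line hy' hz' t
  rw [← hpt] at hl
  obtain ⟨h1, h2, h3, h4, h5⟩ := HM_sph hp hl
  have ht0 : 0 < t := by linarith
  have htk : 0 < t * κ := mul_pos ht0 hκ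
  have hΛ' : (0 : ℂ) + (t : ℂ) * ((κ : ℂ) * Λ - 0) = ((t * κ : ℝ) : ℂ) * Λ := by
    push_cast
    ring
  rw [hΛ'] at h3 h4 h5
  have hne : ((t * κ : ℝ) : ℂ) ≠ 0 := Complex.ofReal_ne_zero.2 htk.ne'
  obtain ⟨u, hu⟩ : ∃ u : ℝ, u = (t - 1) / (t * κ) := ⟨_, rfl⟩
  have hu' : t * κ * u = t - 1 := by
    rw [hu]
    field_simp
  have hu0 : 0 < u := by
    rw [hu]
    exact div_pos (by linarith) htk
  have eA : A1 + t * (κ * A - A1) = t * κ * (A - u * A1) := by linear_combination A1 * hu'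
  have eC : C1 + t * (κ * C - C1) = t * κ * (C - u * C1) := by linear_combination C1 * hu'
  rw [eA] at h1 h3
  rw [eC] at h2 h3 h5
  have hn : ‖((t * κ : ℝ) : ℂ) * Λ‖ ^ 2 = (t * κ) ^ 2 * ‖Λ‖ ^ 2 := by
    rw [norm_mul, Complex.norm_real, Real.norm_of_nonneg htk.le, mul_pow]
  rw [hn] at h3
  have hΛ0 : 0 < ‖Λ‖ ^ 2 := by
    have := norm_pos_iff.2 hΛ
    positivity
  have hprod : (A - u * A1) * (C - u * C1) = ‖Λ‖ ^ 2 := by
    have h6 : (t * κ) ^ 2 * ((A - u * A1) * (C - u * C1)) = (t * κ) ^ 2 * ‖Λ‖ ^ 2 := by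
      rw [h3]
      ring
    exact mul_left_cancel₀ (pow_ne_zero 2 htk.ne') h6
  have hA0 : 0 ≤ A - u * A1 := nonneg_of_mul_nonneg_right h1 htk
  have hC0 : 0 ≤ C - u * C1 := nonneg_of_mul_nonneg_right h2 htk
  have hA1 : 0 < A - u * A1 := by
    rcases hA0.lt_or_eq with h | h
    · exact h
    · rw [← h, zero_mul] at hprod
      linarith
  have hC1 : 0 < C - u * C1 := by
    rcases hC0.lt_or_eq with h | h
    · exact h
    · rw [← h, mul_zero] at hprod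
      linarith
  refine ⟨(C - u * C1)⁻¹, ⟨inv_pos.2 hC1, u, hu0, hA1, hC1, hprod, inv_mul_cancel₀ hC1.ne'⟩,
    h4 (mul_ne_zero hne hΛ), ?_⟩
  have hC2 : ((C - u * C1 : ℝ) : ℂ) ≠ 0 := Complex.ofReal_ne_zero.2 hC1.ne'
  have h7 : ((t * κ : ℝ) : ℂ) * (((C - u * C1 : ℝ) : ℂ) * br (spin p) α) =
      ((t * κ : ℝ) : ℂ) * (Λ * br (spin p) γ) := by
    rw [Complex.ofReal_mul] at h5
    linear_combination h5
  have h8 := mul_left_cancel₀ hne h7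
  rw [Complex.ofReal_inv, mul_assoc, ← h8, inv_mul_cancel_left₀ hC2]

theorem ray_ra {α γ : ℂ × ℂ} {y z p : Fin 3 → ℝ} (hy : Ball y) (hz : Ball z) {A1 C1 A C κ : ℝ} {Λ : ℂ}
    (hy' : HM α γ y A1 0 C1) (hκ : 0 < κ) (hz' : HM α γ z (κ * A) ((κ : ℂ) * Λ) (κ * C)) (hΛ : Λ ≠ 0) (hray : Ray z y p) :
    ∃ ρ : ℝ, RingAx A1 C1 A C (‖Λ‖ ^ 2) ρ ∧ br (spin p) γ ≠ 0 ∧ br (spin p) α = -((ρ : ℂ) * Λ * br (spin p) γ) := by
  obtain ⟨t, ht, hpt⟩ := ray_gt hz hy hray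
  have hp := hray.1
  have hl := HM_line hz' hy' t
  rw [← hpt] at hl
  obtain ⟨h1, h2, h3, h4, h5⟩ := HM_sph hp hl
  have htk : 0 < (t - 1) * κ := mul_pos (by linarith) hκ
  have hΛ' : (κ : ℂ) * Λ + (t : ℂ) * (0 - (κ : ℂ) * Λ) = (((t - 1) * κ : ℝ) : ℂ) * (-Λ) := by
    push_cast
    ring
  rw [hΛ'] at h3 h4 h5
  have hne : (((t - 1) * κ : ℝ) : ℂ) ≠ 0 := Complex.ofReal_ne_zero.2 htk.ne'
  obtain ⟨v, hv⟩ : ∃ v : ℝ, v = t / ((t - 1) * κ) := ⟨_, rfl⟩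
  have hv' : (t - 1) * κ * v = t := by
    rw [hv]
    exact mul_div_cancel₀ t htk.ne'
  have hv0 : 0 < v := by
    rw [hv]
    exact div_pos (by linarith) htk
  have eA : κ * A + t * (A1 - κ * A) = (t - 1) * κ * (v * A1 - A) := by
    linear_combination (-A1) * hv'
  have eC : κ * C + t * (C1 - κ * C) = (t - 1) * κ * (v * C1 - C) := by
    linear_combination (-C1) * hv'
  rw [eA] at h1 h3
  rw [eC] at h2 h3 h5
  have hn : ‖(((t - 1) * κ : ℝ) : ℂ) * (-Λ)‖ ^ 2 = ((t - 1) * κ) ^ 2 * ‖Λ‖ ^ 2 := by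
    rw [norm_mul, norm_neg, Complex.norm_real, Real.norm_of_nonneg htk.le, mul_pow]
  rw [hn] at h3
  have hΛ0 : 0 < ‖Λ‖ ^ 2 := by
    have := norm_pos_iff.2 hΛ
    positivity
  have hprod : (v * A1 - A) * (v * C1 - C) = ‖Λ‖ ^ 2 := by
    have h6 : ((t - 1) * κ) ^ 2 * ((v * A1 - A) * (v * C1 - C)) =
        ((t - 1) * κ) ^ 2 * ‖Λ‖ ^ 2 := by
      rw [h3]
      ring
    exact mul_left_cancel₀ (pow_ne_zero 2 htk.ne') h6
  have hA0 : 0 ≤ v * A1 - A := nonneg_of_mul_nonneg_right h1 htk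
  have hC0 : 0 ≤ v * C1 - C := nonneg_of_mul_nonneg_right h2 htk
  have hA1 : 0 < v * A1 - A := by
    rcases hA0.lt_or_eq with h | h
    · exact h
    · rw [← h, zero_mul] at hprod
      linarith
  have hC1 : 0 < v * C1 - C := by
    rcases hC0.lt_or_eq with h | h
    · exact h
    · rw [← h, mul_zero] at hprod
      linarith
  refine ⟨(v * C1 - C)⁻¹, ⟨inv_pos.2 hC1, v, hv0, hA1, hC1, hprod, inv_mul_cancel₀ hC1.ne'⟩,
    h4 (mul_ne_zero hne (neg_ne_zero.2 hΛ)), ?_⟩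
  have hC2 : ((v * C1 - C : ℝ) : ℂ) ≠ 0 := Complex.ofReal_ne_zero.2 hC1.ne'
  have h7 : (((t - 1) * κ : ℝ) : ℂ) * (((v * C1 - C : ℝ) : ℂ) * br (spin p) α) =
      (((t - 1) * κ : ℝ) : ℂ) * (-Λ * br (spin p) γ) := by
    rw [Complex.ofReal_mul ((t - 1) * κ)] at h5
    linear_combination h5
  have h8 := mul_left_cancel₀ hne h7
  rw [Complex.ofReal_inv, mul_assoc, ← mul_neg, ← neg_mul, ← h8, inv_mul_cancel_left₀ hC2]

theorem ax_mono {A1 C1 A1' C1' A C L ρ ρ' : ℝ} (hA1 : 0 < A1) (hC1 : 0 < C1) (hA1' : 0 < A1') (hC1' : 0 < C1')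
    (h : A1 * C1' ≤ A1' * C1) (hρ : AxRing A1 C1 A C L ρ) (hρ' : AxRing A1' C1' A C L ρ') : ρ' ≤ ρ := by
  obtain ⟨h0, u, hu, h1, h2, h3, h4⟩ := hρ
  obtain ⟨h0', u', hu', h1', h2', h3', h4'⟩ := hρ'
  by_contra hlt
  push Not at hlt
  have hD : C - u' * C1' < C - u * C1 := by
    by_contra hge
    push Not at hge
    have e1 : ρ * (C - u * C1) ≤ ρ * (C - u' * C1') := mul_le_mul_of_nonneg_left hge h0.le
    have e2 : ρ * (C - u' * C1') < ρ' * (C - u' * C1') := mul_lt_mul_of_pos_right hlt h2'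
    linarith
  have hC : u * C1 < u' * C1' := by linarith
  have hA : u * A1 < u' * A1' := by
    have e1 : u' * (A1 * C1') ≤ u' * (A1' * C1) := mul_le_mul_of_nonneg_left h hu'.le
    have e2 : A1 * (u * C1) < A1 * (u' * C1') := mul_lt_mul_of_pos_left hC hA1
    have e3 : (u * A1) * C1 < (u' * A1') * C1 := by linarith
    exact lt_of_mul_lt_mul_right e3 hC1.le
  have e1 : (A - u' * A1') * (C - u' * C1') < (A - u * A1) * (C - u * C1) :=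
    mul_lt_mul'' (by linarith) hD h1'.le h2'.le
  linarith

theorem ax_uniq {A1 C1 A C L ρ ρ' : ℝ} (hA1 : 0 < A1) (hC1 : 0 < C1) (hρ : AxRing A1 C1 A C L ρ) (hρ' : AxRing A1 C1 A C L ρ') :
    ρ = ρ' := by
  exact le_antisymm (ax_mono hA1 hC1 hA1 hC1 le_rfl hρ' hρ)
    (ax_mono hA1 hC1 hA1 hC1 le_rfl hρ hρ')

theorem ra_uniq {A1 C1 A C L ρ ρ' : ℝ} (hA1 : 0 < A1) (hC1 : 0 < C1) (hρ : RingAx A1 C1 A C L ρ) (hρ' : RingAx A1 C1 A C L ρ') :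
    ρ = ρ' := by
  obtain ⟨h0, v, hv, h1, h2, h3, h4⟩ := hρ
  obtain ⟨h0', v', hv', h1', h2', h3', h4'⟩ := hρ'
  have key : ∀ a b : ℝ, a < b → 0 < a * A1 - A → 0 < a * C1 - C →
      (a * A1 - A) * (a * C1 - C) < (b * A1 - A) * (b * C1 - C) := by
    intro a b hab ha1 ha2
    have e1 : a * A1 < b * A1 := mul_lt_mul_of_pos_right hab hA1
    have e2 : a * C1 < b * C1 := mul_lt_mul_of_pos_right hab hC1
    exact mul_lt_mul'' (by linarith) (by linarith) ha1.le ha2.le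
  have hvv : v = v' := by
    rcases lt_trichotomy v v' with h | h | h
    · have := key v v' h h1 h2
      linarith
    · exact h
    · have := key v' v h h1' h2'
      linarith
  rw [← hvv] at h4'
  exact mul_right_cancel₀ h2.ne' (h4.trans h4'.symm)

end Pool.Agent.H25.DI
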