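import Pool.Agent.H25.DI.Defs

/-!
# DI Tt: the function `tt`

With `d = ‖z - 1‖`, `‖z‖ = 1`: `re (z - 1) = -d²/2`, so `‖s + t (z - 1)‖² = s² - s t d² + t² d²`; it is `1` iff `t² - s t - (1 - s²)/d² = 0`, whose roots are `tt s z > 0` and
`(s - √(s² + 4(1-s²)/d²))/2`, which is `≤ 0` for `s ≤ 1`, `< 0` for `s < 1`.
-/

set_option autoImplicit false

namespace Pool.Agent.H25.DI

private theorem Tt_sq {s t : ℝ} {z : ℂ} (hz : ‖z‖ = 1) :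
    ‖(s : ℂ) + (t : ℂ) * (z - 1)‖ ^ 2 = s ^ 2 - s * t * ‖z - 1‖ ^ 2 + t ^ 2 * ‖z - 1‖ ^ 2 := by
  have h1 : z.re * z.re + z.im * z.im = 1 := by
    have h := Complex.sq_norm z
    rw [hz, Complex.normSq_apply] at h
    linarith
  rw [Complex.sq_norm, Complex.sq_norm, Complex.normSq_apply, Complex.normSq_apply]
  simp only [Complex.add_re, Complex.add_im, Complex.mul_re, Complex.mul_im, Complex.ofReal_re, Complex.ofReal_im,
    Complex.sub_re, Complex.sub_im, Complex.one_re, Complex.one_im]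
  linear_combination (s * t) * h1

private theorem Tt_d {z : ℂ} (hz1 : z ≠ 1) : 0 < ‖z - 1‖ ^ 2 := by
  have : z - 1 ≠ 0 := sub_ne_zero.2 hz1
  positivity

private theorem Tt_in {s : ℝ} (h0 : 0 ≤ s) (h1 : s ≤ 1) (z : ℂ) : 0 ≤ s ^ 2 + 4 * (1 - s ^ 2) / ‖z - 1‖ ^ 2 := by
  have h2 : 0 ≤ 1 - s ^ 2 := by nlinarith
  positivity

theorem tt_pos {s : ℝ} (h0 : 0 ≤ s) (h1 : s ≤ 1) {z : ℂ} (hz : ‖z‖ = 1) (hz1 : z ≠ 1) : 0 < tt s z := by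
  have hd := Tt_d hz1
  unfold tt
  rcases h0.lt_or_eq with h | h
  · have := Real.sqrt_nonneg (s ^ 2 + 4 * (1 - s ^ 2) / ‖z - 1‖ ^ 2)
    linarith
  · subst h
    have h2 : 0 < (0 : ℝ) ^ 2 + 4 * (1 - 0 ^ 2) / ‖z - 1‖ ^ 2 := by
      have : 0 < 4 * (1 - (0 : ℝ) ^ 2) / ‖z - 1‖ ^ 2 := by
        apply div_pos _ hd
        norm_num
      linarith
    have := Real.sqrt_pos.2 h2
    linarith

private theorem Tt_quad {s : ℝ} (h0 : 0 ≤ s) (h1 : s ≤ 1) {z : ℂ} (hz1 : z ≠ 1) :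
    tt s z ^ 2 * ‖z - 1‖ ^ 2 - s * tt s z * ‖z - 1‖ ^ 2 = 1 - s ^ 2 := by
  have hd := Tt_d hz1
  have h2 := Real.sq_sqrt (Tt_in h0 h1 z)
  have h3 : 2 * tt s z - s = Real.sqrt (s ^ 2 + 4 * (1 - s ^ 2) / ‖z - 1‖ ^ 2) := by
    unfold tt
    ring
  rw [← h3] at h2
  have h4 : (2 * tt s z - s) ^ 2 * ‖z - 1‖ ^ 2 = s ^ 2 * ‖z - 1‖ ^ 2 + 4 * (1 - s ^ 2) := by
    rw [h2, add_mul, div_mul_cancel₀ _ hd.ne']
  linarith

theorem tt_norm {s : ℝ} (h0 : 0 ≤ s) (h1 : s ≤ 1) {z : ℂ} (hz : ‖z‖ = 1) (hz1 : z ≠ 1) :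
    ‖(s : ℂ) + (tt s z : ℂ) * (z - 1)‖ = 1 := by
  have h2 : ‖(s : ℂ) + (tt s z : ℂ) * (z - 1)‖ ^ 2 = 1 := by
    rw [Tt_sq hz]
    have := Tt_quad h0 h1 hz1
    linarith
  exact (pow_eq_one_iff_of_nonneg (norm_nonneg _) two_ne_zero).1 h2

theorem tt_unique {s t : ℝ} (h0 : 0 ≤ s) (h1 : s < 1) {z : ℂ} (hz : ‖z‖ = 1) (hz1 : z ≠ 1) (ht : 0 < t)
    (h : ‖(s : ℂ) + (t : ℂ) * (z - 1)‖ = 1) : t = tt s z := by
  have hd := Tt_d hz1
  have h2 := Tt_sq (s := s) (t := t) hz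
  rw [h, one_pow] at h2
  have h3 := Tt_quad h0 h1.le hz1
  have h4 := tt_pos h0 h1.le hz hz1
  have h5 : (t - tt s z) * ((t + tt s z - s) * ‖z - 1‖ ^ 2) = 0 := by linarith
  rcases mul_eq_zero.1 h5 with h6 | h6
  · linarith
  · exfalso
    have h7 : t + tt s z - s = 0 := (mul_eq_zero.1 h6).resolve_right hd.ne'
    have h8 : t = s - tt s z := by linarith
    have h9 : 0 < 1 - s ^ 2 := by nlinarith
    have h10 : t * tt s z * ‖z - 1‖ ^ 2 = -(1 - s ^ 2) := by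
      rw [h8]
      linarith
    have h11 : 0 < t * tt s z * ‖z - 1‖ ^ 2 := by positivity
    linarith

theorem tt_one (z : ℂ) : tt 1 z = 1 := by
  unfold tt
  norm_num

theorem tt_conj (s : ℝ) (z : ℂ) : tt s ((starRingEnd ℂ) z) = tt s z := by
  unfold tt
  have : ‖(starRingEnd ℂ) z - 1‖ = ‖z - 1‖ := by
    rw [← Complex.norm_conj (z - 1), map_sub, map_one]
  rw [this]

theorem tt_cont (z : ℂ) : Continuous fun s : ℝ => tt s z := by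
  unfold tt
  fun_prop

/-- `|ee s ζ l| = 1` and the quotient of the two end points of a chord is not `1` -/
theorem ee_norm {n : ℕ} {s : ℝ} (h0 : 0 ≤ s) (h1 : s ≤ 1) {ζ : ℂ} (hζ : IsPrimitiveRoot ζ (n + 1)) {l : ℕ} (hl0 : 0 < l) (hl : l < n + 1) :
    ‖ee s ζ l‖ = 1 := by
  unfold ee
  apply tt_norm h0 h1
  · rw [norm_pow, hζ.norm'_eq_one (Nat.succ_ne_zero n), one_pow]
  · exact hζ.pow_ne_one_of_pos_of_lt hl0.ne' hl

theorem ee_one (ζ : ℂ) (l : ℕ) : ee 1 ζ l = ζ ^ l := by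
  unfold ee
  rw [tt_one]
  push_cast
  ring

/-- conjugate of the power of a root of unity -/
private theorem Tt_pow {n : ℕ} {ζ : ℂ} (hζ : IsPrimitiveRoot ζ (n + 1)) {l : ℕ} (hl : l ≤ n + 1) :
    ζ ^ (n + 1 - l) = (starRingEnd ℂ) (ζ ^ l) := by
  have h1 : ‖ζ ^ l‖ = 1 := by rw [norm_pow, hζ.norm'_eq_one (Nat.succ_ne_zero n), one_pow]
  have h2 : (starRingEnd ℂ) (ζ ^ l) * ζ ^ l = 1 := by
    rw [mul_comm, Complex.mul_conj, Complex.normSq_eq_norm_sq, h1]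
    norm_num
  have h3 : ζ ^ (n + 1 - l) * ζ ^ l = 1 := by
    rw [← pow_add, Nat.sub_add_cancel hl, hζ.pow_eq_one]
  have h4 : ζ ^ l ≠ 0 := by
    intro h
    rw [h, norm_zero] at h1
    exact zero_ne_one h1
  exact mul_right_cancel₀ h4 (h3.trans h2.symm)

theorem ee_conj {n : ℕ} (s : ℝ) {ζ : ℂ} (hζ : IsPrimitiveRoot ζ (n + 1)) {l : ℕ} (hl : l ≤ n + 1) :
    ee s ζ (n + 1 - l) = (starRingEnd ℂ) (ee s ζ l) := by
  unfold ee
  rw [Tt_pow hζ hl, tt_conj]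
  simp only [map_add, map_mul, map_sub, map_one, Complex.conj_ofReal]

end Pool.Agent.H25.DI
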