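import Pool.Agent.H25.DI.HMb
import Pool.Agent.H25.DI.Tt

/-!
# DI RayC: rays between two vertices of the polygon

`p = x + t (y - x)`, `t > 1`; coordinates `t κ' (A (1 - u), Λ (ζ^l - u ζ^k), C (1 - u))`, `u = (t-1) κ/(t κ') > 0`; `C (1-u) ≥ 0` and the matrix is not `0`
(`ζ^l = ζ^k u` would give `u = 1`, `l = k`; so `Λ (ζ^l - u ζ^k) ≠ 0`), so `1 - u > 0` and `A C (1-u)² = ‖Λ‖² ‖ζ^l - u ζ^k‖²`.  `s = ‖Λ‖/√(A C)`, `t' = s/(1-u)`: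
`s + t' (ζ^(l-k) - 1) = s (ζ^(l-k) - u)/(1-u)` has norm `1`, so `t' = tt s (ζ^(l-k))` (`tt_unique`, `s < 1`).  `Λ/C = √(A/C) (Λ/‖Λ‖) s`.
`ζ^((l - k : Fin (n+1)) : ℕ) * ζ^k = ζ^l` (`ζ^(n+1) = 1`).
-/

set_option autoImplicit false

namespace Pool.Agent.H25.DI

open Pool.Agent.Results.MP_1fedf0_gt.CollinearPlusOne (spin br Lam)

private lemma RayC_pow {n : ℕ} {ζ : ℂ} (hζ : IsPrimitiveRoot ζ (n + 1)) (k l : Fin (n + 1)) :
    ζ ^ ((l - k : Fin (n + 1)) : ℕ) * ζ ^ (k : ℕ) = ζ ^ (l : ℕ) := by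
  rw [← pow_add, pow_eq_pow_mod _ hζ.pow_eq_one, ← Fin.val_add, sub_add_cancel]

private lemma RayC_sqrt {A C m : ℝ} (hA : 0 < A) (hC : 0 < C) :
    Real.sqrt (A / C) * (m / Real.sqrt (A * C)) = m / C := by
  have h1 : Real.sqrt (A * C) = Real.sqrt (A / C) * C := by
    rw [show A * C = A / C * C ^ 2 by field_simp, Real.sqrt_mul (by positivity),
      Real.sqrt_sq hC.le]
  have h2 : 0 < Real.sqrt (A / C) := Real.sqrt_pos.mpr (by positivity)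
  rw [h1]
  field_simp

theorem ray_rr {n : ℕ} {α γ : ℂ × ℂ} {x y p : Fin 3 → ℝ} (hx : Ball x) (hy : Ball y) {A C κ κ' : ℝ} {Λ ζ : ℂ}
    (hζ : IsPrimitiveRoot ζ (n + 1)) {k l : Fin (n + 1)} (hkl : k ≠ l) (hA : 0 < A) (hC : 0 < C) (hΛ : Λ ≠ 0) (hL : ‖Λ‖ ^ 2 < A * C)
    (hκ : 0 < κ) (hκ' : 0 < κ') (hx' : HM α γ x (κ * A) ((κ : ℂ) * (Λ * ζ ^ (k : ℕ))) (κ * C))
    (hy' : HM α γ y (κ' * A) ((κ' : ℂ) * (Λ * ζ ^ (l : ℕ))) (κ' * C)) (hray : Ray x y p) :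
    br (spin p) γ ≠ 0 ∧ br (spin p) α =
      ((Real.sqrt (A / C) : ℝ) : ℂ) * (Λ / (‖Λ‖ : ℂ)) *
        (ζ ^ (k : ℕ) * ee (‖Λ‖ / Real.sqrt (A * C)) ζ ((l - k : Fin (n + 1)) : ℕ)) * br (spin p) γ := by
  obtain ⟨t, ht, hp⟩ := ray_gt hx hy hray
  have hpn := hray.1
  have ht0 : 0 < t := by linarith
  -- the notation
  obtain ⟨z, hz⟩ : ∃ z : ℂ, z = ζ ^ ((l - k : Fin (n + 1)) : ℕ) := ⟨_, rfl⟩
  have hzl : ζ ^ (l : ℕ) = z * ζ ^ (k : ℕ) := by rw [hz]; exact (RayC_pow hζ k l).symm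
  have hζ1 : ‖ζ‖ = 1 := hζ.norm'_eq_one (Nat.succ_ne_zero n)
  have hz1 : ‖z‖ = 1 := by rw [hz, norm_pow, hζ1, one_pow]
  have hk1 : ‖ζ ^ (k : ℕ)‖ = 1 := by rw [norm_pow, hζ1, one_pow]
  have hk0 : ζ ^ (k : ℕ) ≠ 0 := by
    intro h
    rw [h, norm_zero] at hk1
    exact zero_ne_one hk1
  have hzne : z ≠ 1 := by
    intro h
    rw [h, one_mul] at hzl
    have := hζ.pow_inj l.isLt k.isLt hzl
    exact hkl (Fin.ext this.symm)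
  obtain ⟨c, hc⟩ : ∃ c : ℝ, c = t * κ' := ⟨_, rfl⟩
  have hc0 : 0 < c := by rw [hc]; exact mul_pos ht0 hκ'
  obtain ⟨u, hu⟩ : ∃ u : ℝ, u = (t - 1) * κ / c := ⟨_, rfl⟩
  have hu0 : 0 < u := by rw [hu]; exact div_pos (mul_pos (by linarith) hκ) hc0
  have huc : c * u = (t - 1) * κ := by rw [hu]; field_simp
  have hH := HM_line hx' hy' t
  rw [← hp] at hH
  have e1 : κ * A + t * (κ' * A - κ * A) = c * (A * (1 - u)) := by
    have : c * (A * (1 - u)) = A * c - A * (c * u) := by ring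
    rw [this, huc, hc]; ring
  have e3 : κ * C + t * (κ' * C - κ * C) = c * (C * (1 - u)) := by
    have : c * (C * (1 - u)) = C * c - C * (c * u) := by ring
    rw [this, huc, hc]; ring
  have e2 : (κ : ℂ) * (Λ * ζ ^ (k : ℕ)) + (t : ℂ) * ((κ' : ℂ) * (Λ * ζ ^ (l : ℕ)) - (κ : ℂ) * (Λ * ζ ^ (k : ℕ)))
      = (c : ℂ) * (Λ * (ζ ^ (k : ℕ) * (z - (u : ℂ)))) := by
    have h1 : (c : ℂ) * (Λ * (ζ ^ (k : ℕ) * (z - (u : ℂ))))
        = (c : ℂ) * (Λ * (z * ζ ^ (k : ℕ))) - ((c * u : ℝ) : ℂ) * (Λ * ζ ^ (k : ℕ)) := by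
      push_cast; ring
    rw [h1, huc, hc, hzl]
    push_cast
    ring
  rw [e1, e2, e3] at hH
  obtain ⟨hA0, hC0, hN, hbr, hαγ⟩ := HM_sph hpn hH
  -- z - u is not zero
  have hzu : z - (u : ℂ) ≠ 0 := by
    intro h
    have h1 : z = (u : ℂ) := sub_eq_zero.mp h
    have h2 : u = 1 := by
      have h3 : ‖z‖ = u := by
        rw [h1, Complex.norm_real, Real.norm_eq_abs, abs_of_pos hu0]
      rw [← h3, hz1]
    exact hzne (by rw [h1, h2]; norm_num)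
  have hcC : (c : ℂ) ≠ 0 := by exact_mod_cast hc0.ne'
  have hΛp : (c : ℂ) * (Λ * (ζ ^ (k : ℕ) * (z - (u : ℂ)))) ≠ 0 :=
    mul_ne_zero hcC (mul_ne_zero hΛ (mul_ne_zero hk0 hzu))
  refine ⟨hbr hΛp, ?_⟩
  -- the norms
  have hN' : ‖Λ‖ ^ 2 * ‖z - (u : ℂ)‖ ^ 2 = A * C * (1 - u) ^ 2 := by
    rw [norm_mul, norm_mul, norm_mul, hk1, Complex.norm_real, Real.norm_eq_abs,
      abs_of_pos hc0] at hN
    have h1 : c ^ 2 * (‖Λ‖ ^ 2 * ‖z - (u : ℂ)‖ ^ 2) = c ^ 2 * (A * C * (1 - u) ^ 2) := by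
      linear_combination hN
    exact mul_left_cancel₀ (by positivity) h1
  have hnz : 0 < ‖z - (u : ℂ)‖ := norm_pos_iff.mpr hzu
  have hnΛ : 0 < ‖Λ‖ := norm_pos_iff.mpr hΛ
  have h1u : 0 < 1 - u := by
    have h1 : 0 ≤ 1 - u := by
      have h2 : 0 ≤ c * C * (1 - u) := by rw [mul_assoc]; exact hC0
      exact nonneg_of_mul_nonneg_right h2 (mul_pos hc0 hC)
    rcases h1.lt_or_eq with h | h
    · exact h
    · exfalso
      rw [← h] at hN'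
      have : 0 < ‖Λ‖ ^ 2 * ‖z - (u : ℂ)‖ ^ 2 := by positivity
      rw [hN'] at this
      norm_num at this
  have hAC : 0 < Real.sqrt (A * C) := Real.sqrt_pos.mpr (mul_pos hA hC)
  have hACs : Real.sqrt (A * C) ^ 2 = A * C := Real.sq_sqrt (mul_pos hA hC).le
  obtain ⟨s, hs⟩ : ∃ s : ℝ, s = ‖Λ‖ / Real.sqrt (A * C) := ⟨_, rfl⟩
  have hs0 : 0 < s := by rw [hs]; exact div_pos hnΛ hAC
  have hsS : s * Real.sqrt (A * C) = ‖Λ‖ := by rw [hs]; field_simp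
  have hs1 : s < 1 := by
    rw [hs, div_lt_one hAC]
    refine lt_of_pow_lt_pow_left₀ 2 hAC.le ?_
    rw [hACs]; exact hL
  have hsn : s * ‖z - (u : ℂ)‖ = 1 - u := by
    have h1 : (Real.sqrt (A * C) * (s * ‖z - (u : ℂ)‖)) ^ 2 = (Real.sqrt (A * C) * (1 - u)) ^ 2 := by
      have h2 : (Real.sqrt (A * C) * (s * ‖z - (u : ℂ)‖)) ^ 2
          = (s * Real.sqrt (A * C)) ^ 2 * ‖z - (u : ℂ)‖ ^ 2 := by ring
      rw [h2, hsS, hN', mul_pow, hACs]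
    have h3 := (pow_left_inj₀ (by positivity) (by positivity) two_ne_zero).mp h1
    exact mul_left_cancel₀ hAC.ne' h3
  have h1uC : (1 : ℂ) - (u : ℂ) ≠ 0 := by
    have : ((1 - u : ℝ) : ℂ) ≠ 0 := by exact_mod_cast h1u.ne'
    push_cast at this
    exact this
  have hform : (s : ℂ) + ((s / (1 - u) : ℝ) : ℂ) * (z - 1)
      = ((s / (1 - u) : ℝ) : ℂ) * (z - (u : ℂ)) := by
    push_cast
    field_simp
    ring
  have htt : s / (1 - u) = tt s z := by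
    refine tt_unique hs0.le hs1 hz1 hzne (div_pos hs0 h1u) ?_
    rw [hform, norm_mul, Complex.norm_real, Real.norm_eq_abs, abs_of_pos (div_pos hs0 h1u),
      div_mul_eq_mul_div, hsn, div_self h1u.ne']
  have hee : ee s ζ ((l - k : Fin (n + 1)) : ℕ) = ((s / (1 - u) : ℝ) : ℂ) * (z - (u : ℂ)) := by
    unfold ee
    rw [← hz, ← htt, hform]
  rw [← hs, hee]
  have hrt : Real.sqrt (A / C) * s = ‖Λ‖ / C := by rw [hs]; exact RayC_sqrt hA hC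
  have hrtC : ((Real.sqrt (A / C) : ℝ) : ℂ) * (s : ℂ) = (‖Λ‖ : ℂ) / (C : ℂ) := by
    exact_mod_cast hrt
  have hCC : (C : ℂ) ≠ 0 := by exact_mod_cast hC.ne'
  have hnC : (‖Λ‖ : ℂ) ≠ 0 := by exact_mod_cast hnΛ.ne'
  have hgoal : ((Real.sqrt (A / C) : ℝ) : ℂ) * (Λ / (‖Λ‖ : ℂ)) *
        (ζ ^ (k : ℕ) * (((s / (1 - u) : ℝ) : ℂ) * (z - (u : ℂ))))
      = Λ * (ζ ^ (k : ℕ) * (z - (u : ℂ))) / ((C : ℂ) * (1 - (u : ℂ))) := by
    have h1 : ((Real.sqrt (A / C) : ℝ) : ℂ) * (Λ / (‖Λ‖ : ℂ)) *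
        (ζ ^ (k : ℕ) * (((s / (1 - u) : ℝ) : ℂ) * (z - (u : ℂ))))
        = (((Real.sqrt (A / C) : ℝ) : ℂ) * (s : ℂ)) *
          (Λ / (‖Λ‖ : ℂ) * (ζ ^ (k : ℕ) * (z - (u : ℂ)) / (1 - (u : ℂ)))) := by
      push_cast
      ring
    rw [h1, hrtC]
    field_simp
  rw [hgoal, div_mul_eq_mul_div, eq_div_iff (mul_ne_zero hCC h1uC)]
  have h2 : (c : ℂ) * (br (spin p) α * ((C : ℂ) * (1 - (u : ℂ))))
      = (c : ℂ) * (Λ * (ζ ^ (k : ℕ) * (z - (u : ℂ))) * br (spin p) γ) := by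
    have h3 := hαγ
    push_cast at h3
    linear_combination h3
  exact mul_left_cancel₀ hcC h2

end Pool.Agent.H25.DI
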