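import Pool.Agent.H25.DI.HMb

/-!
# DI Rot: the rotation in coordinates

`G = !![α.2, -α.1; γ.2, -γ.1]`, `HH x = G * herm x * G^*` (entries `A, Λ, conj Λ, C`), `V = G * U * G⁻¹`: `U * herm x * U^* = κ herm y` means `V * HH x * V^* = κ HH y`.
`HH c`, `HH d` are diagonal, not proportional (`HM_ray`), `κ_c = κ_d = |det U|` (determinants), so `V E₁₁ V^* = κ E₁₁`, `V E₂₂ V^* = κ E₂₂`: `V` is diagonal with
`|V₁₁|² = |V₂₂|² = κ`; `ζ = V₁₁ conj V₂₂ / κ`.  Then `HH (b (k+1))` is a positive multiple of `[[A, ζ Λ], [.., C]]` if `HH (b k)` is one of `[[A, Λ], [.., C]]`.  After `n + 1` steps: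
`ζ^(n+1) = 1`; primitive: `ζ^k = ζ^l` gives `b k = b l` (`HM_ray`).
-/

set_option autoImplicit false

namespace Pool.Agent.H25.DI

open Pool.Agent.Results.MP_1fedf0_gt.CollinearPlusOne (spin br Lam)

private noncomputable def Rot_G (α γ : ℂ × ℂ) : Matrix (Fin 2) (Fin 2) ℂ := !![α.2, -α.1; γ.2, -γ.1]

private lemma Rot_det (α γ : ℂ × ℂ) : (Rot_G α γ).det = br α γ := by
  rw [Rot_G, Matrix.det_fin_two_of, br]
  ring

private lemma Rot_HH {α γ : ℂ × ℂ} {x : Fin 3 → ℝ} {A C : ℝ} {Λ : ℂ} (h : HM α γ x A Λ C) :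
    Rot_G α γ * herm x * (Rot_G α γ).conjTranspose = !![(A : ℂ), Λ; (starRingEnd ℂ) Λ, (C : ℂ)] := by
  obtain ⟨h1, h2, h3⟩ := h
  rw [← h1, ← h2, ← h3]
  ext i j
  fin_cases i <;> fin_cases j <;>
    simp [Rot_G, herm, Lam, Matrix.mul_apply, Fin.sum_univ_two] <;> ring

private lemma Rot_moves {α γ : ℂ × ℂ} (hbr : br α γ ≠ 0) (U : Matrix (Fin 2) (Fin 2) ℂ) :
    ∃ V : Matrix (Fin 2) (Fin 2) ℂ, ∀ x y, Moves U x y → ∃ κ : ℝ, 0 < κ ∧
      V * (Rot_G α γ * herm x * (Rot_G α γ).conjTranspose) * V.conjTranspose =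
        (κ : ℂ) • (Rot_G α γ * herm y * (Rot_G α γ).conjTranspose) := by
  refine ⟨Rot_G α γ * U * (Rot_G α γ)⁻¹, ?_⟩
  rintro x y ⟨κ, hκ, h⟩
  refine ⟨κ, hκ, ?_⟩
  have hu : IsUnit (Rot_G α γ).det := by
    rw [Rot_det]
    exact isUnit_iff_ne_zero.2 hbr
  have e1 : (Rot_G α γ)⁻¹ * Rot_G α γ = 1 := Matrix.nonsing_inv_mul _ hu
  have e2 : (Rot_G α γ).conjTranspose * ((Rot_G α γ)⁻¹).conjTranspose = 1 := by
    rw [← Matrix.conjTranspose_mul, e1, Matrix.conjTranspose_one]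
  generalize Rot_G α γ = G at *
  generalize G⁻¹ = G' at *
  calc G * U * G' * (G * herm x * G.conjTranspose) * (G * U * G').conjTranspose
      = G * U * (G' * G) * herm x * (G.conjTranspose * G'.conjTranspose) * U.conjTranspose *
        G.conjTranspose := by
        rw [Matrix.conjTranspose_mul, Matrix.conjTranspose_mul]
        simp only [Matrix.mul_assoc]
    _ = G * (U * herm x * U.conjTranspose) * G.conjTranspose := by
        rw [e1, e2]
        simp only [Matrix.mul_one, Matrix.mul_assoc]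
    _ = (κ : ℂ) • (G * herm y * G.conjTranspose) := by
        rw [h, Matrix.mul_smul, Matrix.smul_mul]

private lemma Rot_ent {V : Matrix (Fin 2) (Fin 2) ℂ} {A Λ Λc C A' Λ' Λc' C' κ : ℂ}
    (h : V * !![A, Λ; Λc, C] * V.conjTranspose = κ • !![A', Λ'; Λc', C']) :
    (V 0 0 * A + V 0 1 * Λc) * (starRingEnd ℂ) (V 0 0) +
      (V 0 0 * Λ + V 0 1 * C) * (starRingEnd ℂ) (V 0 1) = κ * A' ∧
    (V 0 0 * A + V 0 1 * Λc) * (starRingEnd ℂ) (V 1 0) +
      (V 0 0 * Λ + V 0 1 * C) * (starRingEnd ℂ) (V 1 1) = κ * Λ' ∧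
    (V 1 0 * A + V 1 1 * Λc) * (starRingEnd ℂ) (V 1 0) +
      (V 1 0 * Λ + V 1 1 * C) * (starRingEnd ℂ) (V 1 1) = κ * C' := by
  refine ⟨?_, ?_, ?_⟩
  · have h1 := congrFun (congrFun h 0) 0
    simpa [Matrix.mul_apply, Fin.sum_univ_two] using h1
  · have h1 := congrFun (congrFun h 0) 1
    simpa [Matrix.mul_apply, Fin.sum_univ_two] using h1
  · have h1 := congrFun (congrFun h 1) 1
    simpa [Matrix.mul_apply, Fin.sum_univ_two] using h1

/-- The real equations for a fixed diagonal matrix. -/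
private lemma Rot_diag {p q r s : ℂ} {A C κ : ℝ} (hA : 0 < A) (hC : 0 < C)
    (h1 : (p * A + q * 0) * (starRingEnd ℂ) p + (p * 0 + q * C) * (starRingEnd ℂ) q = κ * A)
    (h2 : (p * A + q * 0) * (starRingEnd ℂ) r + (p * 0 + q * C) * (starRingEnd ℂ) s = κ * 0)
    (h3 : (r * A + s * 0) * (starRingEnd ℂ) r + (r * 0 + s * C) * (starRingEnd ℂ) s = κ * C) :
    A * Complex.normSq p + C * Complex.normSq q = κ * A ∧
    A * Complex.normSq r + C * Complex.normSq s = κ * C ∧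
    κ ^ 2 = Complex.normSq (p * s - q * r) := by
  have e1 : A * Complex.normSq p + C * Complex.normSq q = κ * A := by
    have h : ((A * Complex.normSq p + C * Complex.normSq q : ℝ) : ℂ) = ((κ * A : ℝ) : ℂ) := by
      push_cast
      rw [← Complex.mul_conj, ← Complex.mul_conj]
      linear_combination h1
    exact_mod_cast h
  have e3 : A * Complex.normSq r + C * Complex.normSq s = κ * C := by
    have h : ((A * Complex.normSq r + C * Complex.normSq s : ℝ) : ℂ) = ((κ * C : ℝ) : ℂ) := by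
      push_cast
      rw [← Complex.mul_conj, ← Complex.mul_conj]
      linear_combination h3
    exact_mod_cast h
  refine ⟨e1, e3, ?_⟩
  have h4 : (A : ℂ) * (starRingEnd ℂ) p * r + (C : ℂ) * (starRingEnd ℂ) q * s = 0 := by
    have h5 := congrArg (starRingEnd ℂ) h2
    simp only [map_add, map_mul, Complex.conj_ofReal, Complex.conj_conj, map_zero, mul_zero, add_zero,
      zero_add] at h5
    linear_combination h5
  have h6 : ((κ ^ 2 * (A * C) : ℝ) : ℂ) = ((Complex.normSq (p * s - q * r) * (A * C) : ℝ) : ℂ) := by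
    push_cast
    rw [← Complex.mul_conj, map_sub, map_mul, map_mul]
    linear_combination (-(κ : ℂ) * C) * h1 -
      ((p * A + q * 0) * (starRingEnd ℂ) p + (p * 0 + q * C) * (starRingEnd ℂ) q) * h3 +
      ((A : ℂ) * (starRingEnd ℂ) p * r + (C : ℂ) * (starRingEnd ℂ) q * s) * h2
  have h7 : κ ^ 2 * (A * C) = Complex.normSq (p * s - q * r) * (A * C) := by exact_mod_cast h6
  exact mul_right_cancel₀ (mul_pos hA hC).ne' h7

theorem rot {n : ℕ} {α γ : ℂ × ℂ} (hbr : br α γ ≠ 0) {c d : Fin 3 → ℝ} (hc : Ball c) (hd : Ball d) (hcd : c ≠ d)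
    (hc0 : Lam α γ c = 0) (hd0 : Lam α γ d = 0) {U : Matrix (Fin 2) (Fin 2) ℂ} (hUc : Moves U c c) (hUd : Moves U d d)
    {b : Fin (n + 1) → Fin 3 → ℝ} (hb : ∀ k, Ball (b k)) (hinj : Function.Injective b) (hoff : Lam α γ (b 0) ≠ 0)
    (hUb : ∀ k, Moves U (b k) (b (k + 1))) :
    ∃ (ζ Λ : ℂ) (A C : ℝ) (κ : Fin (n + 1) → ℝ), IsPrimitiveRoot ζ (n + 1) ∧ 0 < A ∧ 0 < C ∧ Λ ≠ 0 ∧ ‖Λ‖ ^ 2 < A * C ∧
      ∀ k, 0 < κ k ∧ HM α γ (b k) (κ k * A) ((κ k : ℂ) * (Λ * ζ ^ (k : ℕ))) (κ k * C) := by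
  obtain ⟨V, hV⟩ := Rot_moves hbr U
  obtain ⟨Ac, Λc, Cc, hHc⟩ := HM_exists α γ c
  obtain ⟨Ad, Λd, Cd, hHd⟩ := HM_exists α γ d
  have hΛc : Λc = 0 := by rw [← hHc.2.1, hc0]
  have hΛd : Λd = 0 := by rw [← hHd.2.1, hd0]
  subst hΛc
  subst hΛd
  obtain ⟨hAc, hCc, -⟩ := HM_pos hbr hc hHc
  obtain ⟨hAd, hCd, -⟩ := HM_pos hbr hd hHd
  obtain ⟨κc, hκc, ec⟩ := hV c c hUc
  obtain ⟨κd, hκd, ed⟩ := hV d d hUd
  rw [Rot_HH hHc, map_zero] at ec
  rw [Rot_HH hHd, map_zero] at ed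
  obtain ⟨c1, c2, c3⟩ := Rot_ent ec
  obtain ⟨d1, d2, d3⟩ := Rot_ent ed
  obtain ⟨c4, c5, c6⟩ := Rot_diag hAc hCc c1 c2 c3
  obtain ⟨d4, d5, d6⟩ := Rot_diag hAd hCd d1 d2 d3
  have hκ : κd = κc := by
    have h1 : κd ^ 2 = κc ^ 2 := by rw [d6, c6]
    exact (pow_left_inj₀ hκd.le hκc.le two_ne_zero).1 h1
  subst hκ
  have hnp : Ac * Cd - Ad * Cc ≠ 0 := by
    intro h
    apply hcd
    have h1 : Ad = Ad / Ac * Ac := by field_simp
    have h2 : Cd = Ad / Ac * Cc := by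
      field_simp
      linarith
    refine HM_ray hbr (κ := Ad / Ac) hHc ?_
    rw [← h1, ← h2, mul_zero]
    exact hHd
  have q0 : Complex.normSq (V 0 1) = 0 := by
    have h1 : Complex.normSq (V 0 1) * (Ac * Cd - Ad * Cc) = 0 := by
      linear_combination Ac * d4 - Ad * c4
    exact (mul_eq_zero.1 h1).resolve_right hnp
  have r0 : Complex.normSq (V 1 0) = 0 := by
    have h1 : Complex.normSq (V 1 0) * (Ac * Cd - Ad * Cc) = 0 := by
      linear_combination Cd * c5 - Cc * d5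
    exact (mul_eq_zero.1 h1).resolve_right hnp
  have p1 : Complex.normSq (V 0 0) = κd := by
    rw [q0, mul_zero, add_zero] at c4
    exact mul_left_cancel₀ hAc.ne' (by linarith)
  have s1 : Complex.normSq (V 1 1) = κd := by
    rw [r0, mul_zero, zero_add] at c5
    exact mul_left_cancel₀ hCc.ne' (by linarith)
  have q0' : V 0 1 = 0 := Complex.normSq_eq_zero.1 q0
  have r0' : V 1 0 = 0 := Complex.normSq_eq_zero.1 r0
  have p1' : V 0 0 * (starRingEnd ℂ) (V 0 0) = (κd : ℂ) := by rw [Complex.mul_conj, p1]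
  have s1' : V 1 1 * (starRingEnd ℂ) (V 1 1) = (κd : ℂ) := by rw [Complex.mul_conj, s1]
  have hκ0 : (κd : ℂ) ≠ 0 := by exact_mod_cast hκd.ne'
  set ζ : ℂ := V 0 0 * (starRingEnd ℂ) (V 1 1) / κd with hζ
  have hζ' : V 0 0 * (starRingEnd ℂ) (V 1 1) = κd * ζ := by
    rw [hζ]
    field_simp
  -- one step
  have step : ∀ x y : Fin 3 → ℝ, Moves U x y → ∀ (A C : ℝ) (Λ : ℂ), HM α γ x A Λ C →
      ∃ μ : ℝ, 0 < μ ∧ HM α γ y (μ * A) ((μ : ℂ) * (Λ * ζ)) (μ * C) := by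
    intro x y hxy A C Λ hx
    obtain ⟨A', Λ', C', hy⟩ := HM_exists α γ y
    obtain ⟨κ, hκ, e⟩ := hV x y hxy
    rw [Rot_HH hx, Rot_HH hy] at e
    obtain ⟨e1, e2, e3⟩ := Rot_ent e
    rw [q0', zero_mul, add_zero, zero_mul, add_zero, map_zero, mul_zero, add_zero] at e1
    rw [q0', r0', map_zero, mul_zero, zero_add, zero_mul, add_zero] at e2
    rw [r0', zero_mul, zero_add, zero_mul, zero_add, map_zero, mul_zero, zero_add] at e3
    have f1 : κd * A = κ * A' := by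
      have h : ((κd * A : ℝ) : ℂ) = ((κ * A' : ℝ) : ℂ) := by
        push_cast
        rw [← e1, ← p1']
        ring
      exact_mod_cast h
    have f3 : κd * C = κ * C' := by
      have h : ((κd * C : ℝ) : ℂ) = ((κ * C' : ℝ) : ℂ) := by
        push_cast
        rw [← e3, ← s1']
        ring
      exact_mod_cast h
    have hκn : (κ : ℂ) ≠ 0 := by exact_mod_cast hκ.ne'
    refine ⟨κd / κ, div_pos hκd hκ, ?_⟩
    have g1 : κd / κ * A = A' := by
      rw [div_mul_eq_mul_div, f1, mul_div_cancel_left₀ _ hκ.ne']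
    have g3 : κd / κ * C = C' := by
      rw [div_mul_eq_mul_div, f3, mul_div_cancel_left₀ _ hκ.ne']
    have g2 : ((κd / κ : ℝ) : ℂ) * (Λ * ζ) = Λ' := by
      push_cast
      rw [div_mul_eq_mul_div, div_eq_iff hκn]
      linear_combination e2 - Λ * hζ'
    rw [g1, g2, g3]
    exact hy
  obtain ⟨A, Λ, C, h0⟩ := HM_exists α γ (b 0)
  obtain ⟨hA, hC, hΛ⟩ := HM_pos hbr (hb 0) h0
  have hΛ0 : Λ ≠ 0 := by
    rw [← h0.2.1]
    exact hoff
  have all : ∀ (j : ℕ) (hj : j < n + 1), ∃ κ : ℝ, 0 < κ ∧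
      HM α γ (b ⟨j, hj⟩) (κ * A) ((κ : ℂ) * (Λ * ζ ^ j)) (κ * C) := by
    intro j
    induction j with
    | zero =>
      intro hj
      refine ⟨1, one_pos, ?_⟩
      rw [one_mul, one_mul, Complex.ofReal_one, one_mul, pow_zero, mul_one]
      exact h0
    | succ j ih =>
      intro hj
      obtain ⟨κ, hκ, h⟩ := ih (by omega)
      have hs : (⟨j, by omega⟩ : Fin (n + 1)) + 1 = ⟨j + 1, hj⟩ := by
        apply Fin.ext
        rw [Fin.val_add_one_of_lt]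
        rw [Fin.lt_def]
        simp only [Fin.val_last]
        omega
      obtain ⟨μ, hμ, h'⟩ := step _ _ (hUb ⟨j, by omega⟩) _ _ _ h
      rw [hs] at h'
      refine ⟨μ * κ, mul_pos hμ hκ, ?_⟩
      have e1 : μ * κ * A = μ * (κ * A) := by ring
      have e2 : ((μ * κ : ℝ) : ℂ) * (Λ * ζ ^ (j + 1)) = (μ : ℂ) * ((κ : ℂ) * (Λ * ζ ^ j) * ζ) := by
        push_cast
        ring
      have e3 : μ * κ * C = μ * (κ * C) := by ring
      rw [e1, e2, e3]
      exact h'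
  -- the order of the rotation
  have hpow : ζ ^ (n + 1) = 1 := by
    obtain ⟨κ, hκ, h⟩ := all n (Nat.lt_succ_self n)
    obtain ⟨μ, hμ, h'⟩ := step _ _ (hUb ⟨n, Nat.lt_succ_self n⟩) _ _ _ h
    have hs : (⟨n, Nat.lt_succ_self n⟩ : Fin (n + 1)) + 1 = 0 := Fin.last_add_one n
    rw [hs] at h'
    obtain ⟨u1, u2, u3⟩ := HM_unique h' h0
    have hμκ : μ * κ = 1 := by
      apply mul_right_cancel₀ hA.ne'
      linarith
    have hμκ' : (μ : ℂ) * (κ : ℂ) = 1 := by exact_mod_cast hμκ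
    apply mul_left_cancel₀ hΛ0
    rw [mul_one]
    have e2 : (μ : ℂ) * ((κ : ℂ) * (Λ * ζ ^ n) * ζ) = ((μ : ℂ) * (κ : ℂ)) * (Λ * ζ ^ (n + 1)) := by
      ring
    rw [e2, hμκ', one_mul] at u2
    exact u2
  have hprim : IsPrimitiveRoot ζ (n + 1) := by
    apply IsPrimitiveRoot.mk_of_lt ζ (Nat.succ_pos n) hpow
    intro l hl0 hl h1
    obtain ⟨κ, hκ, h⟩ := all l hl
    rw [h1, mul_one] at h
    have h2 := HM_ray hbr h0 h
    have h3 := hinj h2
    have h4 := congrArg Fin.val h3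
    simp only [Fin.val_zero] at h4
    omega
  choose κ hκ hκ2 using all
  refine ⟨ζ, Λ, A, C, fun k => κ k.1 k.2, hprim, hA, hC, hΛ0, hΛ, ?_⟩
  intro k
  exact ⟨hκ k.1 k.2, hκ2 k.1 k.2⟩

end Pool.Agent.H25.DI
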