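import Pool.Agent.H25.DI.Ax
import Pool.Agent.H25.DI.Rot
import Pool.Agent.H25.DI.RayA
import Pool.Agent.H25.DI.RayC
import Pool.Agent.H25.DI.Gl

/-!
# DI NF: from the configuration to the normal form

`chord`, `rot`, `ray_ax`, `ray_ra`, `ray_rr`.  `ρ₀ = √(A/C) Λ/‖Λ‖`; the coordinates of a spinor are `(br v α / ρ₀, br v γ)` (`FF_gl` with the matrix
`(α.2/ρ₀, -α.1/ρ₀; γ.2, -γ.1)`, determinant `± br α γ / ρ₀`); up to factors they are `nf m n r q s ζ i j` for `i ≠ j` (`FF_smul` in H88/Euc/Lim) with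
`r i = ρ_i ‖Λ‖ √(C/A)`, `q i = ρ'_i ‖Λ‖ √(C/A)` (`ρ_i`, `ρ'_i` from `ray_ax`, `ray_ra` for the vertex `0`; the same for the vertex `k` by `ax_uniq`, `ra_uniq`, as `‖Λ ζ^k‖ = ‖Λ‖`),
`1` for `i ≥ m`, and `s = ‖Λ‖/√(A C)`.  `r` is antitone by `ax_mono` and the last part of `chord`.
For the points of the axis: `j < i`: `br (spin p) α = 0`, `(0, 1)` up to the factor `br (spin p) γ ≠ 0` (`br α γ ≠ 0` and `spin p ≠ 0`: a spinor with both brackets `0` is `0`).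
The pairs: `br` of the normal form is not `0` for `i ≠ j` (ring: `reg` is not needed: `x_k ≠ x_l`; or use `(reg ..).2`; axis/ring: `r + q ≠ 0`).
-/

set_option autoImplicit false

namespace Pool.Agent.H25.DI

open Pool.Agent.Results.MP_1fedf0_gt.CollinearPlusOne (spin br Lam)
open Pool.Agent.H65.AS (FF)

private theorem nf_aa (m n : ℕ) (r q : ℕ → ℝ) (s : ℝ) (ζ : ℂ) (i j : Fin m) :
    nf m n r q s ζ (Fin.castAdd (n + 1) i) (Fin.castAdd (n + 1) j) = if j < i then ((0 : ℂ), (1 : ℂ)) else (-1, 0) := by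
  unfold nf
  rw [Fin.addCases_left, Fin.addCases_left]

private theorem nf_ar (m n : ℕ) (r q : ℕ → ℝ) (s : ℝ) (ζ : ℂ) (i : Fin m) (k : Fin (n + 1)) :
    nf m n r q s ζ (Fin.castAdd (n + 1) i) (Fin.natAdd m k) = ((r i : ℂ) * ζ ^ (k : ℕ), 1) := by
  unfold nf
  rw [Fin.addCases_left, Fin.addCases_right]

private theorem nf_ra (m n : ℕ) (r q : ℕ → ℝ) (s : ℝ) (ζ : ℂ) (i : Fin m) (k : Fin (n + 1)) :
    nf m n r q s ζ (Fin.natAdd m k) (Fin.castAdd (n + 1) i) = (-((q i : ℂ) * ζ ^ (k : ℕ)), 1) := by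
  unfold nf
  rw [Fin.addCases_right, Fin.addCases_left]

private theorem nf_rr (m n : ℕ) (r q : ℕ → ℝ) (s : ℝ) (ζ : ℂ) (k l : Fin (n + 1)) :
    nf m n r q s ζ (Fin.natAdd m k) (Fin.natAdd m l) = pf n s ζ k l := by
  unfold nf
  rw [Fin.addCases_right, Fin.addCases_right]

private theorem nf_spin_ne (p : Fin 3 → ℝ) : spin p ≠ 0 := by
  unfold spin
  split_ifs
  · intro h
    have := congrArg Prod.fst h
    simp at this
  · intro h
    have := congrArg Prod.snd h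
    simp at this

private theorem nf_br_ne {α γ v : ℂ × ℂ} (hbr : br α γ ≠ 0) (hv : v ≠ 0) (h1 : br v α = 0) : br v γ ≠ 0 := by
  intro h2
  apply hv
  unfold br at h1 h2 hbr
  have e1 : v.1 * (α.1 * γ.2 - α.2 * γ.1) = 0 := by linear_combination α.1 * h2 - γ.1 * h1
  have e2 : v.2 * (α.1 * γ.2 - α.2 * γ.1) = 0 := by linear_combination α.2 * h2 - γ.2 * h1
  exact Prod.ext ((mul_eq_zero.1 e1).resolve_right hbr) ((mul_eq_zero.1 e2).resolve_right hbr)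

private theorem nf_glob {N : ℕ} {α γ : ℂ × ℂ} (hbr : br α γ ≠ 0) {ρ0 : ℂ} (hρ0 : ρ0 ≠ 0) (v u : Fin N → Fin N → ℂ × ℂ)
    (h : ∀ i j, i ≠ j → ∃ c' : ℂ, c' ≠ 0 ∧ br (v i j) α = c' * ρ0 * (u i j).1 ∧ br (v i j) γ = c' * (u i j).2) :
    FF v = FF u ∧ ∀ i j, i ≠ j → ∃ c' : ℂ, c' ≠ 0 ∧ br (v i j) (v j i) = c' * br (u i j) (u j i) := by
  classical
  have h' : ∀ i j, ∃ c' : ℂ, i ≠ j → c' ≠ 0 ∧ br (v i j) α = c' * ρ0 * (u i j).1 ∧ br (v i j) γ = c' * (u i j).2 := by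
    intro i j
    by_cases hij : i = j
    · exact ⟨0, fun h => absurd hij h⟩
    · obtain ⟨c', h1⟩ := h i j hij
      exact ⟨c', fun _ => h1⟩
  choose c hc using h'
  have hdet : (α.2 / ρ0) * (-γ.1) - (-α.1 / ρ0) * γ.2 ≠ 0 := by
    have e1 : (α.2 / ρ0) * (-γ.1) - (-α.1 / ρ0) * γ.2 = br α γ / ρ0 := by
      unfold br
      field_simp
      ring
    rw [e1]
    exact div_ne_zero hbr hρ0
  have h1 := FF_gl v (α.2 / ρ0) (-α.1 / ρ0) γ.2 (-γ.1) hdet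
  have h2 := Pool.Agent.H88.Euc.FF_smul u
    (fun i j => ((α.2 / ρ0) * (v i j).1 + (-α.1 / ρ0) * (v i j).2, γ.2 * (v i j).1 + (-γ.1) * (v i j).2)) c
    (fun i j hij => (hc i j hij).1) (fun i j hij => by
      obtain ⟨-, e1, e2⟩ := hc i j hij
      unfold br at e1 e2
      refine Prod.ext ?_ ?_
      · change (α.2 / ρ0) * (v i j).1 + (-α.1 / ρ0) * (v i j).2 = c i j * (u i j).1
        field_simp
        linear_combination e1
      · change γ.2 * (v i j).1 + (-γ.1) * (v i j).2 = c i j * (u i j).2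
        linear_combination e2)
  refine ⟨h1.symm.trans h2, ?_⟩
  intro i j hij
  obtain ⟨c1, e1, e2⟩ := hc i j hij
  obtain ⟨c2, e3, e4⟩ := hc j i (Ne.symm hij)
  refine ⟨c i j * c j i * ρ0 / br α γ, div_ne_zero (mul_ne_zero (mul_ne_zero c1 c2) hρ0) hbr, ?_⟩
  rw [div_mul_eq_mul_div, eq_div_iff hbr]
  have e5 : br (v i j) (v j i) * br α γ = br (v i j) α * br (v j i) γ - br (v i j) γ * br (v j i) α := by
    unfold br
    ring
  rw [e5, e1, e2, e3, e4]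
  unfold br
  ring

theorem normal_form {m n : ℕ} {x : Fin (m + (n + 1)) → Fin 3 → ℝ} {p : Fin (m + (n + 1)) → Fin (m + (n + 1)) → Fin 3 → ℝ}
    (hx : ∀ i, Ball (x i)) (hinj : Function.Injective x) (hp : ∀ i j, i ≠ j → Ray (x i) (x j) (p i j))
    {c d : Fin 3 → ℝ} (hc : Ball c) (hd : Ball d) (hcd : c ≠ d) {U : Matrix (Fin 2) (Fin 2) ℂ} (hUc : Moves U c c) (hUd : Moves U d d)
    {τ : Fin m → ℝ} (hτ : StrictMono τ) (ha : ∀ i, x (Fin.castAdd (n + 1) i) = c + τ i • (d - c))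
    (hoff : ¬ ∃ t : ℝ, x (Fin.natAdd m 0) = c + t • (d - c))
    (hUb : ∀ k : Fin (n + 1), Moves U (x (Fin.natAdd m k)) (x (Fin.natAdd m (k + 1)))) :
    ∃ (r q : ℕ → ℝ) (s : ℝ) (ζ : ℂ), (∀ i, 0 < r i) ∧ (∀ i, 0 < q i) ∧ (∀ i j, i ≤ j → j < m → r j ≤ r i) ∧ 0 ≤ s ∧ s < 1 ∧
      IsPrimitiveRoot ζ (n + 1) ∧ FF (fun i j => spin (p i j)) = FF (nf m n r q s ζ) ∧
      FF (fun k l => spin (p (Fin.natAdd m k) (Fin.natAdd m l))) = FF (pf n s ζ) ∧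
      ∀ i j, i ≠ j → ∃ c' : ℂ, c' ≠ 0 ∧ br (spin (p i j)) (spin (p j i)) = c' * br (nf m n r q s ζ i j) (nf m n r q s ζ j i) := by
  classical
  obtain ⟨α, γ, hbr, hax0, honline, haxis, hmono⟩ := chord hc hd hcd
  have hc0 : Lam α γ c = 0 := by
    have := hax0 0
    rwa [zero_smul, add_zero] at this
  have hd0 : Lam α γ d = 0 := by
    have := hax0 1
    rwa [one_smul, add_sub_cancel] at this
  have hoff' : Lam α γ (x (Fin.natAdd m 0)) ≠ 0 := fun h => hoff (honline _ (hx _) h)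
  obtain ⟨ζ, Λ, A, C, κ, hζ, hA, hC, hΛ, hL, hκ⟩ := rot hbr hc hd hcd hc0 hd0 hUc hUd (b := fun k => x (Fin.natAdd m k))
    (fun k => hx _) (fun k l h => Fin.natAdd_injective (n + 1) m (hinj h)) hoff' hUb
  have hζ1 : ‖ζ‖ = 1 := hζ.norm'_eq_one (Nat.succ_ne_zero n)
  have hζ0 : ζ ≠ 0 := by
    intro h
    rw [h, norm_zero] at hζ1
    exact zero_ne_one hζ1
  have hLk : ∀ k : ℕ, ‖Λ * ζ ^ k‖ ^ 2 = ‖Λ‖ ^ 2 := by
    intro k
    rw [norm_mul, norm_pow, hζ1, one_pow, mul_one]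
  have hΛk : ∀ k : ℕ, Λ * ζ ^ k ≠ 0 := fun k => mul_ne_zero hΛ (pow_ne_zero _ hζ0)
  have hNΛ : 0 < ‖Λ‖ := norm_pos_iff.2 hΛ
  -- the points of the axis
  have hAx : ∀ i : Fin m, ∃ A1 C1 : ℝ, HM α γ (x (Fin.castAdd (n + 1) i)) A1 0 C1 ∧ 0 < A1 ∧ 0 < C1 := by
    intro i
    obtain ⟨A1, Λ1, C1, h1⟩ := HM_exists α γ (x (Fin.castAdd (n + 1) i))
    have h2 : Λ1 = 0 := by
      rw [← h1.2.1, ha i]
      exact hax0 (τ i)
    rw [h2] at h1
    obtain ⟨h3, h4, -⟩ := HM_pos hbr (hx _) h1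
    exact ⟨A1, C1, h1, h3, h4⟩
  choose A1 C1 hHM hA1 hC1 using hAx
  have hr1 : ∀ i : Fin m, ∃ ρ : ℝ, AxRing (A1 i) (C1 i) A C (‖Λ‖ ^ 2) ρ ∧ ∀ k : Fin (n + 1),
      br (spin (p (Fin.castAdd (n + 1) i) (Fin.natAdd m k))) γ ≠ 0 ∧
      br (spin (p (Fin.castAdd (n + 1) i) (Fin.natAdd m k))) α =
        (ρ : ℂ) * (Λ * ζ ^ (k : ℕ)) * br (spin (p (Fin.castAdd (n + 1) i) (Fin.natAdd m k))) γ := by
    intro i
    have h1 : ∀ k : Fin (n + 1), ∃ ρ : ℝ, AxRing (A1 i) (C1 i) A C (‖Λ‖ ^ 2) ρ ∧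
        br (spin (p (Fin.castAdd (n + 1) i) (Fin.natAdd m k))) γ ≠ 0 ∧
        br (spin (p (Fin.castAdd (n + 1) i) (Fin.natAdd m k))) α =
        (ρ : ℂ) * (Λ * ζ ^ (k : ℕ)) * br (spin (p (Fin.castAdd (n + 1) i) (Fin.natAdd m k))) γ := by
      intro k
      have hne : Fin.castAdd (n + 1) i ≠ Fin.natAdd m k := by
        intro h
        have := congrArg Fin.val h
        simp only [Fin.val_castAdd, Fin.val_natAdd] at this
        omega
      have h2 := ray_ax (hx _) (hx _) (hHM i) (hκ k).1 (hκ k).2 (hΛk k) (hp _ _ hne)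
      rw [hLk] at h2
      exact h2
    obtain ⟨ρ, hρ, -⟩ := h1 0
    refine ⟨ρ, hρ, fun k => ?_⟩
    obtain ⟨ρ', hρ', h3⟩ := h1 k
    rw [ax_uniq (hA1 i) (hC1 i) hρ hρ']
    exact h3
  have hq1 : ∀ i : Fin m, ∃ ρ : ℝ, RingAx (A1 i) (C1 i) A C (‖Λ‖ ^ 2) ρ ∧ ∀ k : Fin (n + 1),
      br (spin (p (Fin.natAdd m k) (Fin.castAdd (n + 1) i))) γ ≠ 0 ∧
      br (spin (p (Fin.natAdd m k) (Fin.castAdd (n + 1) i))) α =
        -((ρ : ℂ) * (Λ * ζ ^ (k : ℕ)) * br (spin (p (Fin.natAdd m k) (Fin.castAdd (n + 1) i))) γ) := by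
    intro i
    have h1 : ∀ k : Fin (n + 1), ∃ ρ : ℝ, RingAx (A1 i) (C1 i) A C (‖Λ‖ ^ 2) ρ ∧
        br (spin (p (Fin.natAdd m k) (Fin.castAdd (n + 1) i))) γ ≠ 0 ∧
        br (spin (p (Fin.natAdd m k) (Fin.castAdd (n + 1) i))) α =
        -((ρ : ℂ) * (Λ * ζ ^ (k : ℕ)) * br (spin (p (Fin.natAdd m k) (Fin.castAdd (n + 1) i))) γ) := by
      intro k
      have hne : Fin.natAdd m k ≠ Fin.castAdd (n + 1) i := by
        intro h
        have := congrArg Fin.val h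
        simp only [Fin.val_castAdd, Fin.val_natAdd] at this
        omega
      have h2 := ray_ra (hx _) (hx _) (hHM i) (hκ k).1 (hκ k).2 (hΛk k) (hp _ _ hne)
      rw [hLk] at h2
      exact h2
    obtain ⟨ρ, hρ, -⟩ := h1 0
    refine ⟨ρ, hρ, fun k => ?_⟩
    obtain ⟨ρ', hρ', h3⟩ := h1 k
    rw [ra_uniq (hA1 i) (hC1 i) hρ hρ']
    exact h3
  choose ρ hρ hρb using hr1
  choose ρ' hρ' hρb' using hq1
  -- constants
  have hσ : 0 < Real.sqrt (A / C) := Real.sqrt_pos.2 (div_pos hA hC)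
  have hσ' : Real.sqrt (C / A) * Real.sqrt (A / C) = 1 := by
    rw [← Real.sqrt_mul (div_pos hC hA).le, div_mul_div_cancel₀ hA.ne', div_self hC.ne', Real.sqrt_one]
  have hσ'' : 0 < Real.sqrt (C / A) := Real.sqrt_pos.2 (div_pos hC hA)
  have hNC : ((‖Λ‖ : ℝ) : ℂ) ≠ 0 := by exact_mod_cast hNΛ.ne'
  set ρ0 : ℂ := ((Real.sqrt (A / C) : ℝ) : ℂ) * (Λ / (‖Λ‖ : ℂ)) with hρ0d
  have hρ0 : ρ0 ≠ 0 := by
    rw [hρ0d]
    refine mul_ne_zero ?_ (div_ne_zero hΛ hNC)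
    exact_mod_cast hσ.ne'
  have hkey : ((‖Λ‖ * Real.sqrt (C / A) : ℝ) : ℂ) * ρ0 = Λ := by
    have e1 : ((Real.sqrt (C / A) : ℝ) : ℂ) * ((Real.sqrt (A / C) : ℝ) : ℂ) = 1 := by exact_mod_cast hσ'
    rw [hρ0d]
    push_cast
    calc (((‖Λ‖ : ℝ) : ℂ) * ((Real.sqrt (C / A) : ℝ) : ℂ)) * (((Real.sqrt (A / C) : ℝ) : ℂ) * (Λ / (‖Λ‖ : ℂ)))
        = (((Real.sqrt (C / A) : ℝ) : ℂ) * ((Real.sqrt (A / C) : ℝ) : ℂ)) * (((‖Λ‖ : ℝ) : ℂ) * (Λ / (‖Λ‖ : ℂ))) := by ring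
      _ = Λ := by rw [e1, one_mul, mul_div_cancel₀ _ hNC]
  set r : ℕ → ℝ := fun i => if h : i < m then ρ ⟨i, h⟩ * (‖Λ‖ * Real.sqrt (C / A)) else 1 with hr
  set q : ℕ → ℝ := fun i => if h : i < m then ρ' ⟨i, h⟩ * (‖Λ‖ * Real.sqrt (C / A)) else 1 with hq
  have hrf : ∀ i : Fin m, r i = ρ i * (‖Λ‖ * Real.sqrt (C / A)) := by
    intro i
    rw [hr]
    exact dif_pos i.2
  have hqf : ∀ i : Fin m, q i = ρ' i * (‖Λ‖ * Real.sqrt (C / A)) := by
    intro i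
    rw [hq]
    exact dif_pos i.2
  have hpos : 0 < ‖Λ‖ * Real.sqrt (C / A) := mul_pos hNΛ hσ''
  have hrpos : ∀ i, 0 < r i := by
    intro i
    by_cases h : i < m
    · have := hrf ⟨i, h⟩
      change r i = _ at this
      rw [this]
      exact mul_pos (hρ ⟨i, h⟩).1 hpos
    · have : r i = 1 := by
        rw [hr]
        exact dif_neg h
      rw [this]
      exact one_pos
  have hqpos : ∀ i, 0 < q i := by
    intro i
    by_cases h : i < m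
    · have := hqf ⟨i, h⟩
      change q i = _ at this
      rw [this]
      exact mul_pos (hρ' ⟨i, h⟩).1 hpos
    · have : q i = 1 := by
        rw [hq]
        exact dif_neg h
      rw [this]
      exact one_pos
  have hAC : 0 < Real.sqrt (A * C) := Real.sqrt_pos.2 (mul_pos hA hC)
  have hs0 : 0 ≤ ‖Λ‖ / Real.sqrt (A * C) := (div_pos hNΛ hAC).le
  have hs1 : ‖Λ‖ / Real.sqrt (A * C) < 1 := by
    rw [div_lt_one hAC]
    exact Real.lt_sqrt_of_sq_lt hL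
  have hrr : ∀ k l : Fin (n + 1), k ≠ l → ∃ c' : ℂ, c' ≠ 0 ∧
      br (spin (p (Fin.natAdd m k) (Fin.natAdd m l))) α = c' * ρ0 * (pf n (‖Λ‖ / Real.sqrt (A * C)) ζ k l).1 ∧
      br (spin (p (Fin.natAdd m k) (Fin.natAdd m l))) γ = c' * (pf n (‖Λ‖ / Real.sqrt (A * C)) ζ k l).2 := by
    intro k l hkl
    have hne : Fin.natAdd m k ≠ Fin.natAdd m l := fun h => hkl (Fin.natAdd_injective (n + 1) m h)
    obtain ⟨h1, h2⟩ := ray_rr (hx _) (hx _) hζ hkl hA hC hΛ hL (hκ k).1 (hκ l).1 (hκ k).2 (hκ l).2 (hp _ _ hne)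
    refine ⟨_, h1, ?_, ?_⟩
    · rw [h2]
      unfold pf
      ring
    · unfold pf
      rw [mul_one]
  have hloc : ∀ a b, a ≠ b → ∃ c' : ℂ, c' ≠ 0 ∧
      br (spin (p a b)) α = c' * ρ0 * (nf m n r q (‖Λ‖ / Real.sqrt (A * C)) ζ a b).1 ∧
      br (spin (p a b)) γ = c' * (nf m n r q (‖Λ‖ / Real.sqrt (A * C)) ζ a b).2 := by
    intro a b
    induction a using Fin.addCases with
    | left i =>
      induction b using Fin.addCases with
      | left j =>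
        intro hij
        have hij' : i ≠ j := fun h => hij (by rw [h])
        have hray := hp _ _ hij
        have hbi := hx (Fin.castAdd (n + 1) i)
        have hbj := hx (Fin.castAdd (n + 1) j)
        rw [ha i] at hray hbi
        rw [ha j] at hray hbj
        obtain ⟨h1, h2⟩ := haxis (τ i) (τ j) _ hbi hbj hray
        rw [nf_aa]
        rcases lt_or_gt_of_ne hij' with h | h
        · have h3 := h1 (hτ h)
          have h4 : br (spin (p (Fin.castAdd (n + 1) i) (Fin.castAdd (n + 1) j))) α ≠ 0 := by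
            intro h5
            exact nf_br_ne hbr (nf_spin_ne _) h5 h3
          rw [if_neg (not_lt.2 h.le)]
          refine ⟨-(br (spin (p (Fin.castAdd (n + 1) i) (Fin.castAdd (n + 1) j))) α / ρ0), neg_ne_zero.2 (div_ne_zero h4 hρ0), ?_, ?_⟩
          · field_simp
          · rw [h3]
            simp
        · have h3 := h2 (hτ h)
          have h4 := nf_br_ne hbr (nf_spin_ne _) h3
          rw [if_pos h]
          refine ⟨_, h4, ?_, ?_⟩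
          · rw [h3]
            simp
          · simp
      | right k =>
        intro _
        obtain ⟨h1, h2⟩ := hρb i k
        rw [nf_ar]
        refine ⟨_, h1, ?_, ?_⟩
        · rw [h2, hrf i]
          have e1 := hkey
          push_cast at e1 ⊢
          linear_combination (-(ρ i : ℂ) * ζ ^ (k : ℕ) * br (spin (p (Fin.castAdd (n + 1) i) (Fin.natAdd m k))) γ) * e1
        · simp
    | right k =>
      induction b using Fin.addCases with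
      | left i =>
        intro _
        obtain ⟨h1, h2⟩ := hρb' i k
        rw [nf_ra]
        refine ⟨_, h1, ?_, ?_⟩
        · rw [h2, hqf i]
          have e1 := hkey
          push_cast at e1 ⊢
          linear_combination ((ρ' i : ℂ) * ζ ^ (k : ℕ) * br (spin (p (Fin.natAdd m k) (Fin.castAdd (n + 1) i))) γ) * e1
        · simp
      | right l =>
        intro hkl
        rw [nf_rr]
        exact hrr k l fun h => hkl (by rw [h])
  obtain ⟨g1, g2⟩ := nf_glob hbr hρ0 (fun i j => spin (p i j)) (nf m n r q (‖Λ‖ / Real.sqrt (A * C)) ζ) hloc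
  obtain ⟨g3, -⟩ := nf_glob hbr hρ0 (fun k l => spin (p (Fin.natAdd m k) (Fin.natAdd m l))) (pf n (‖Λ‖ / Real.sqrt (A * C)) ζ) hrr
  refine ⟨r, q, ‖Λ‖ / Real.sqrt (A * C), ζ, hrpos, hqpos, ?_, hs0, hs1, hζ, g1, g3, g2⟩
  intro i j hij hj
  have hi : i < m := lt_of_le_of_lt hij hj
  have e1 := hrf ⟨i, hi⟩
  have e2 := hrf ⟨j, hj⟩
  change r i = _ at e1
  change r j = _ at e2
  rw [e1, e2]
  refine mul_le_mul_of_nonneg_right ?_ hpos.le
  refine ax_mono (hA1 ⟨i, hi⟩) (hC1 ⟨i, hi⟩) (hA1 ⟨j, hj⟩) (hC1 ⟨j, hj⟩) ?_ (hρ ⟨i, hi⟩) (hρ ⟨j, hj⟩)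
  have hbi := hx (Fin.castAdd (n + 1) ⟨i, hi⟩)
  have hbj := hx (Fin.castAdd (n + 1) ⟨j, hj⟩)
  have hmi := hHM ⟨i, hi⟩
  have hmj := hHM ⟨j, hj⟩
  rw [ha ⟨i, hi⟩] at hbi hmi
  rw [ha ⟨j, hj⟩] at hbj hmj
  exact hmono (τ ⟨i, hi⟩) (τ ⟨j, hj⟩) _ _ _ _ (hτ.monotone (by exact hij)) hbi hbj hmi hmj

end Pool.Agent.H25.DI
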