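import Pool.Agent.H25.DI.Tt

/-!
# DI Reg: regular polygons

The points `x_k = (re ζ^k, im ζ^k, 0)` (curvature parameter `s`), end points `p_kl = (re w, im w, 0)`, `w = ζ^k ee s ζ (l - k) = s ζ^k + t (ζ^l - ζ^k)`,
`t = tt s (ζ^(l-k)) > 0`, `|w| = 1`: so `spin (p_kl) = pf n s ζ k l` for `k ≠ l` (`p_kl 2 = 0 ≠ 1`).  `n = 0`: `FF` of one row is `1` (see `normDet_one` in WeaklyConvex).
`n ≥ 1`: `Pool.Agent.H88.Euc.all_curvatures`.  The points are on the unit circle, so extreme points of their convex hull, not in the relative interior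
(for `n ≥ 1`; e.g. a point of the relative interior of the hull of at least two points is in an open segment of the hull, and the unit ball is strictly convex).
`FF_smul` (H88/Euc/Lim) changes the diagonal.
-/

set_option autoImplicit false

namespace Pool.Agent.H25.DI

open Finset Polynomial
open Pool.Agent.Results.MP_1fedf0_gt.CollinearPlusOne (spin br)
open Pool.Agent.H65.AS (cf cdet pol FF)

/-- a point of the plane `x 2 = 0` -/
noncomputable def pt (z : ℂ) : Fin 3 → ℝ := ![z.re, z.im, 0]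

theorem pt_sq (z : ℂ) : ∑ k : Fin 3, pt z k ^ 2 = ‖z‖ ^ 2 := by
  rw [Fin.sum_univ_three, ← Complex.normSq_eq_norm_sq, Complex.normSq_apply]
  simp only [pt, Matrix.cons_val_zero, Matrix.cons_val_one, Matrix.cons_val]
  ring

theorem pt_inj {z w : ℂ} (h : pt z = pt w) : z = w := by
  have h0 := congrFun h 0
  have h1 := congrFun h 1
  simp only [pt, Matrix.cons_val_zero, Matrix.cons_val_one] at h0 h1
  exact Complex.ext h0 h1

theorem pt_lin (s t : ℝ) (z w : ℂ) : pt ((s : ℂ) * z + (t : ℂ) * (w - z)) = s • pt z + t • (pt w - pt z) := by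
  funext k
  fin_cases k
  · simp [pt]
  · simp [pt]
  · simp [pt]

theorem pt_spin (z : ℂ) : spin (pt z) = (z, 1) := by
  have h1 : pt z 2 = 0 := by simp [pt]
  have h2 : pt z 0 = z.re := by simp [pt]
  have h3 : pt z 1 = z.im := by simp [pt]
  unfold spin
  rw [if_neg (by rw [h1]; norm_num), h1, h2, h3]
  simp [Complex.re_add_im]

theorem pt_coplanar {N : ℕ} (z : Fin N → ℂ) : Coplanar ℝ (Set.range fun i => pt (z i)) := by
  have h1 : Set.range (fun i => pt (z i)) ⊆ (Submodule.span ℝ {pt 1, pt Complex.I} : Submodule ℝ (Fin 3 → ℝ)) := by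
    rintro _ ⟨i, rfl⟩
    have h2 : pt (z i) = (z i).re • pt 1 + (z i).im • pt Complex.I := by
      funext k
      fin_cases k
      · simp [pt]
      · simp [pt]
      · simp [pt]
    rw [SetLike.mem_coe]
    beta_reduce
    rw [h2]
    exact Submodule.add_mem _ (Submodule.smul_mem _ _ (Submodule.subset_span (by simp)))
      (Submodule.smul_mem _ _ (Submodule.subset_span (by simp)))
  have h3 : vectorSpan ℝ (Set.range fun i => pt (z i)) ≤ Submodule.span ℝ {pt 1, pt Complex.I} := by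
    rw [vectorSpan, Submodule.span_le]
    rintro _ ⟨a, ha, b, hb, rfl⟩
    exact Submodule.sub_mem _ (h1 ha) (h1 hb)
  unfold Coplanar
  refine (Submodule.rank_mono h3).trans ?_
  refine (rank_span_le _).trans ?_
  exact (Cardinal.mk_insert_le).trans (by rw [Cardinal.mk_singleton]; norm_num)

/-- different points of the unit circle are in convex position -/
theorem pt_convex {N : ℕ} {z : Fin N → ℂ} (hz : ∀ i, ‖z i‖ = 1) (hinj : Function.Injective z) :
    ConvexIndependent ℝ fun i => pt (z i) := by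
  rw [convexIndependent_iff_notMem_convexHull_sdiff]
  intro i S h
  obtain ⟨L, hL⟩ : ∃ L : (Fin 3 → ℝ) →ₗ[ℝ] ℝ, ∀ v, L v = (z i).re * v 0 + (z i).im * v 1 :=
    ⟨(z i).re • LinearMap.proj 0 + (z i).im • LinearMap.proj 1, fun v => by simp⟩
  have h1 : (fun j => pt (z j)) '' (S \ {i}) ⊆ {v | L v < 1} := by
    rintro _ ⟨j, ⟨-, hj⟩, rfl⟩
    have hji : z j ≠ z i := fun h => hj (by rw [Set.mem_singleton_iff]; exact hinj h)
    have h2 : (z i).re ^ 2 + (z i).im ^ 2 = 1 := by
      have := Complex.normSq_eq_norm_sq (z i)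
      rw [hz, Complex.normSq_apply] at this
      nlinarith [this]
    have h3 : (z j).re ^ 2 + (z j).im ^ 2 = 1 := by
      have := Complex.normSq_eq_norm_sq (z j)
      rw [hz, Complex.normSq_apply] at this
      nlinarith [this]
    have h4 : 0 < ((z i).re - (z j).re) ^ 2 + ((z i).im - (z j).im) ^ 2 := by
      rcases eq_or_ne (z i).re (z j).re with h5 | h5
      · have h6 : (z i).im ≠ (z j).im := fun h6 => hji (Complex.ext h5.symm h6.symm)
        have := sub_ne_zero.2 h6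
        positivity
      · have := sub_ne_zero.2 h5
        positivity
    rw [Set.mem_ofPred_eq, hL]
    simp only [pt, Matrix.cons_val_zero, Matrix.cons_val_one]
    nlinarith
  have h2 := convexHull_min h1 (convex_halfSpace_lt L.isLinear 1) h
  rw [Set.mem_ofPred_eq, hL] at h2
  have h3 := Complex.normSq_eq_norm_sq (z i)
  rw [hz, Complex.normSq_apply] at h3
  simp only [pt, Matrix.cons_val_zero, Matrix.cons_val_one] at h2
  nlinarith

theorem sub_val_pos {n : ℕ} {k l : Fin (n + 1)} (hkl : k ≠ l) : 0 < ((l - k : Fin (n + 1)) : ℕ) := by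
  rw [Nat.pos_iff_ne_zero]
  intro h
  apply hkl
  have h1 : (l - k : Fin (n + 1)) = 0 := Fin.ext h
  exact (sub_eq_zero.1 h1).symm

theorem zpow_sub_val {n : ℕ} {ζ : ℂ} (hζ : IsPrimitiveRoot ζ (n + 1)) (k l : Fin (n + 1)) :
    ζ ^ (k : ℕ) * ζ ^ ((l - k : Fin (n + 1)) : ℕ) = ζ ^ (l : ℕ) := by
  rw [← pow_add]
  have h1 : ((k : ℕ) + ((l - k : Fin (n + 1)) : ℕ)) % (n + 1) = (l : ℕ) := by
    rw [← Fin.val_add, add_sub_cancel]
  conv_lhs => rw [← Nat.div_add_mod ((k : ℕ) + ((l - k : Fin (n + 1)) : ℕ)) (n + 1), h1]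
  rw [pow_add, pow_mul, hζ.pow_eq_one, one_pow, one_mul]

theorem reg {n : ℕ} {s : ℝ} (h0 : 0 ≤ s) (h1 : s < 1) {ζ : ℂ} (hζ : IsPrimitiveRoot ζ (n + 1)) :
    1 ≤ FF (pf n s ζ) ∧ ∀ k l : Fin (n + 1), k ≠ l → br (pf n s ζ k l) (pf n s ζ l k) ≠ 0 := by
  rcases Nat.eq_zero_or_pos n with hn | hn
  · subst hn
    refine ⟨?_, fun k l hkl => absurd (Fin.ext (by have := k.2; have := l.2; omega)) hkl⟩
    have e1 : cdet (pf 0 s ζ) = 1 := by
      unfold cdet cf
      rw [Matrix.det_fin_one, Matrix.of_apply]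
      have : Finset.univ.erase (0 : Fin 1) = ∅ := by decide
      unfold pol
      simp only [Nat.reduceAdd]
      rw [this, Finset.prod_empty]
      simp
    have e2 : ∀ i : Fin 1, Finset.Ioi i = ∅ := by decide
    unfold FF
    rw [e1]
    simp [e2]
  have hz : ∀ k : Fin (n + 1), ‖ζ ^ (k : ℕ)‖ = 1 := fun k => by
    rw [norm_pow, hζ.norm'_eq_one (by omega), one_pow]
  have hzinj : Function.Injective fun k : Fin (n + 1) => ζ ^ (k : ℕ) := fun k l h =>
    Fin.ext (hζ.pow_inj k.2 l.2 h)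
  have hinj : Function.Injective fun k : Fin (n + 1) => pt (ζ ^ (k : ℕ)) := fun k l h => hzinj (pt_inj h)
  have hee : ∀ k l : Fin (n + 1), k ≠ l → ‖ζ ^ (k : ℕ) * ee s ζ ((l - k : Fin (n + 1)) : ℕ)‖ = 1 := fun k l hkl => by
    rw [norm_mul, hz, one_mul]
    exact ee_norm h0 h1.le hζ (sub_val_pos hkl) (l - k).2
  have hp : ∀ k l : Fin (n + 1), k ≠ l →
      (∑ j : Fin 3, (pt (ζ ^ (k : ℕ) * ee s ζ ((l - k : Fin (n + 1)) : ℕ)) j) ^ 2 = 1) ∧
      ∃ t : ℝ, 0 < t ∧ pt (ζ ^ (k : ℕ) * ee s ζ ((l - k : Fin (n + 1)) : ℕ)) =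
        s • pt (ζ ^ (k : ℕ)) + t • (pt (ζ ^ (l : ℕ)) - pt (ζ ^ (k : ℕ))) := by
    intro k l hkl
    refine ⟨by rw [pt_sq, hee k l hkl, one_pow], tt s (ζ ^ ((l - k : Fin (n + 1)) : ℕ)), ?_, ?_⟩
    · apply tt_pos h0 h1.le (hz _)
      intro h
      have h2 := hζ.pow_inj (l - k).2 (Nat.succ_pos n) (by rw [h, pow_zero])
      exact (sub_val_pos hkl).ne' h2
    · rw [← pt_lin]
      congr 1
      unfold ee
      rw [← zpow_sub_val hζ k l]
      ring
  obtain ⟨g1, g2, -⟩ := Pool.Agent.H88.Euc.all_curvatures (n := n + 1) (by omega)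
    (x := fun k => pt (ζ ^ (k : ℕ))) (p := fun k l => pt (ζ ^ (k : ℕ) * ee s ζ ((l - k : Fin (n + 1)) : ℕ))) h0
    (fun k => by
      rw [pt_sq, hz, one_pow, mul_one]
      nlinarith)
    hinj hp (pt_coplanar _)
    (fun i => Pool.Agent.H64.CW.not_mem_interior_of_convexIndependent (by omega) (pt_convex hz hzinj) i)
  simp only [pt_spin] at g1 g2
  exact ⟨g2, g1⟩

end Pool.Agent.H25.DI
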