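import Pool.Agent.H25.DI.Defs

/-!
# DI Wt: the weights

`win`: induction on `t`; `∏_{l ≤ n} wt (l + t + 1) = (∏_{l ≤ n} wt (l + t)) * wt (t + n + 1) / wt t` (`Finset.prod_range_succ'`, `Finset.prod_range_succ`).
-/

set_option autoImplicit false

namespace Pool.Agent.H25.DI

open Finset Polynomial

theorem wt_small {r : ℕ → ℝ} {n t : ℕ} (h : t < n + 1) : wt r n t = 1 := by
  rw [wt, if_pos h]

theorem wt_add (r : ℕ → ℝ) (n t : ℕ) : wt r n (t + (n + 1)) = r t ^ (n + 1) * wt r n t := by
  rw [wt, if_neg (by omega), Nat.add_sub_cancel]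

theorem wt_pos {r : ℕ → ℝ} (hr : ∀ i, 0 < r i) (n t : ℕ) : 0 < wt r n t := by
  induction t using Nat.strong_induction_on with
  | _ t ih =>
    rcases lt_or_ge t (n + 1) with h | h
    · rw [wt_small h]
      exact one_pos
    · obtain ⟨t', rfl⟩ := Nat.exists_eq_add_of_le' h
      rw [wt_add]
      exact mul_pos (pow_pos (hr t') _) (ih t' (by omega))

/-- the product over a window of length `n + 1` -/
theorem win {r : ℕ → ℝ} (hr : ∀ i, 0 < r i) (n t : ℕ) :
    ∏ l ∈ range (n + 1), wt r n (l + t) = (∏ i ∈ range t, r i) ^ (n + 1) := by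
  induction t with
  | zero =>
    rw [Finset.range_zero, Finset.prod_empty, one_pow]
    refine Finset.prod_eq_one fun l hl => ?_
    exact wt_small (Finset.mem_range.1 hl)
  | succ t ih =>
    have h1 : ∏ l ∈ range (n + 1 + 1), wt r n (l + t) =
        (∏ l ∈ range (n + 1), wt r n (l + 1 + t)) * wt r n (0 + t) :=
      Finset.prod_range_succ' (fun l => wt r n (l + t)) (n + 1)
    have h2 : ∏ l ∈ range (n + 1 + 1), wt r n (l + t) =
        (∏ l ∈ range (n + 1), wt r n (l + t)) * wt r n (n + 1 + t) :=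
      Finset.prod_range_succ (fun l => wt r n (l + t)) (n + 1)
    have h3 : ∏ l ∈ range (n + 1), wt r n (l + (t + 1)) =
        ∏ l ∈ range (n + 1), wt r n (l + 1 + t) := by
      refine Finset.prod_congr rfl fun l _ => ?_
      have h4 : l + (t + 1) = l + 1 + t := by omega
      rw [h4]
    have h5 : n + 1 + t = t + (n + 1) := by omega
    rw [h1, zero_add, ih, h5, wt_add] at h2
    rw [h3, Finset.prod_range_succ r t, mul_pow]
    refine mul_right_cancel₀ (wt_pos hr n t).ne' ?_
    rw [h2]
    ring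

end Pool.Agent.H25.DI
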